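import Pool.Agent.Lib.Pa7c826y.Greedy
import Pool.Agent.Lib.Pa7c826.Fptas

/-!
The algorithm and what it computes.
-/

namespace Pool.Agent.Lib.Pa7c826y

open Pool.Agent.Lib.Pa7c826 Finset

section

variable (n m : ℕ) (F : ℕ → ℕ → Bool)

/-- the vertices of the other side without neighbours in `T` -/
def freeN (T : Finset ℕ) : Finset ℕ :=
  (range m).filter fun j => (!decide (∃ i < n, (decide (i ∈ T) && F i j) = true)) = true

/-- the vertices almost all of whose neighbours are covered by `T` -/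
def XXN (ψ : ℕ) (T : Finset ℕ) : Finset ℕ :=
  (range n).filter fun u =>
    decide (((freeN n m F T).filter fun j => F u j = true).card ≤ ψ) = true

/-- the set coded by the digits of `i` -/
def tup (k i : ℕ) : Finset ℕ :=
  (range n).filter fun v =>
    decide (∃ l < k, decide (i / (n + 1) ^ l % (n + 1) = v) = true) = true

/-- the `p`-th set -/
def SS (ψ k J p : ℕ) : Finset ℕ := sel (XXN n m F ψ (tup n k (p / J))) (p % J)

/-- equality test -/
def eqB (S T : Finset ℕ) : Bool :=
  !decide (∃ v < n, (decide (v ∈ S) ^^ decide (v ∈ T)) = true)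

/-- the sum over all different sets -/
def algA (ψ k I J : ℕ) : ℕ :=
  ∑ p ∈ range (I * J),
    if decide (∃ p' < p, eqB n (SS n m F ψ k J p') (SS n m F ψ k J p) = true) = true then 0
    else 2 ^ (freeN n m F (SS n m F ψ k J p)).card

end

section spec

variable {n m : ℕ} {F : ℕ → ℕ → Bool}

theorem sum_first (M : ℕ) (f : ℕ → Finset ℕ) (g : Finset ℕ → ℕ) :
    ∑ p ∈ range M, (open Classical in if ∃ p' < p, f p' = f p then 0 else g (f p)) =
      ∑ x ∈ (range M).image f, g x := by
  classical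
  induction M with
  | zero => simp
  | succ M ih =>
    rw [sum_range_succ, ih, range_add_one, image_insert]
    by_cases h : ∃ p' < M, f p' = f M
    · rw [if_pos h, add_zero, insert_eq_of_mem]
      obtain ⟨p', h1, h2⟩ := h
      exact mem_image.2 ⟨p', mem_range.2 h1, h2⟩
    · rw [if_neg h, sum_insert, add_comm]
      intro h1
      obtain ⟨p', h2, h3⟩ := mem_image.1 h1
      exact h ⟨p', mem_range.1 h2, h3⟩

theorem eqB_iff {S T : Finset ℕ} (hS : S ⊆ range n) (hT : T ⊆ range n) :
    eqB n S T = true ↔ S = T := by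
  unfold eqB
  simp only [Bool.not_eq_true', decide_eq_false_iff_not, not_exists, not_and]
  constructor
  · intro h
    ext v
    by_cases hv : v < n
    · have := h v hv
      by_cases a1 : v ∈ S <;> by_cases a2 : v ∈ T <;> simp [a1, a2] at this ⊢
    · constructor
      · intro h1; exact absurd (mem_range.1 (hS h1)) hv
      · intro h1; exact absurd (mem_range.1 (hT h1)) hv
  · rintro rfl v _
    simp

theorem sel_subset (W : Finset ℕ) (τ : ℕ) : sel W τ ⊆ W := filter_subset _ _

theorem exists_sel (W S : Finset ℕ) (h : S ⊆ W) : ∃ τ < 2 ^ W.card, sel W τ = S := by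
  have h1 : (range (2 ^ W.card)).image (sel W) = W.powerset := by
    refine eq_of_subset_of_card_le ?_ ?_
    · intro T hT
      obtain ⟨τ, _, rfl⟩ := mem_image.1 hT
      exact mem_powerset.2 (sel_subset _ _)
    · rw [card_powerset, card_image_of_injOn (sel_injOn W), card_range]
  have h2 : S ∈ (range (2 ^ W.card)).image (sel W) := by
    rw [h1]; exact mem_powerset.2 h
  obtain ⟨τ, hτ, h3⟩ := mem_image.1 h2
  exact ⟨τ, mem_range.1 hτ, h3⟩

theorem mem_tup {k i v : ℕ} : v ∈ tup n k i ↔ v < n ∧ ∃ l < k, i / (n + 1) ^ l % (n + 1) = v := by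
  simp [tup]

theorem tup_subset (k i : ℕ) : tup n k i ⊆ range n := filter_subset _ _

theorem card_tup_le (k i : ℕ) : (tup n k i).card ≤ k := by
  have h : tup n k i ⊆ (range k).image fun l => i / (n + 1) ^ l % (n + 1) := by
    intro v hv
    obtain ⟨_, l, hl, h⟩ := mem_tup.1 hv
    exact mem_image.2 ⟨l, mem_range.2 hl, h⟩
  exact (card_le_card h).trans (card_image_le.trans (by simp))

theorem exists_tup (k : ℕ) : ∀ T : Finset ℕ, T ⊆ range n → T.card ≤ k →
    ∃ i < (n + 1) ^ k, tup n k i = T := by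
  induction k with
  | zero =>
    intro T _ hc
    have : T = ∅ := card_eq_zero.1 (Nat.le_zero.1 hc)
    subst this
    exact ⟨0, by simp, by ext v; simp [mem_tup]⟩
  | succ k ih =>
    intro T hT hc
    have key : ∀ (v : ℕ) (T' : Finset ℕ), v < n + 1 → T' ⊆ range n → T'.card ≤ k →
        T = (if v < n then insert v T' else T') → ∃ i < (n + 1) ^ (k + 1), tup n (k + 1) i = T := by
      intro v T' hv hT' hc' hTT
      obtain ⟨i, hi, hti⟩ := ih T' hT' hc'
      refine ⟨v + (n + 1) * i, ?_, ?_⟩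
      · rw [pow_succ]
        have : (i + 1) * (n + 1) ≤ (n + 1) ^ k * (n + 1) := Nat.mul_le_mul_right _ hi
        calc v + (n + 1) * i < (n + 1) + (n + 1) * i := by omega
          _ = (i + 1) * (n + 1) := by ring
          _ ≤ _ := this
      · have hd0 : (v + (n + 1) * i) / (n + 1) ^ 0 % (n + 1) = v := by
          rw [pow_zero, Nat.div_one, Nat.add_mul_mod_self_left, Nat.mod_eq_of_lt hv]
        have hds : ∀ l, (v + (n + 1) * i) / (n + 1) ^ (l + 1) = i / (n + 1) ^ l := by
          intro l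
          rw [pow_succ', ← Nat.div_div_eq_div_mul, Nat.add_mul_div_left _ _ (Nat.succ_pos n),
            Nat.div_eq_of_lt hv, zero_add]
        ext u
        rw [mem_tup]
        have h1 : (∃ l < k + 1, (v + (n + 1) * i) / (n + 1) ^ l % (n + 1) = u) ↔
            (v = u ∨ ∃ l < k, i / (n + 1) ^ l % (n + 1) = u) := by
          constructor
          · rintro ⟨l, hl, h⟩
            rcases l with _ | l
            · left; rw [← h, hd0]
            · right
              rw [hds] at h
              exact ⟨l, by omega, h⟩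
          · rintro (h | ⟨l, hl, h⟩)
            · exact ⟨0, by omega, by rw [hd0, h]⟩
            · exact ⟨l + 1, by omega, by rw [hds, h]⟩
        rw [h1, hTT]
        have h2 : u ∈ T' ↔ u < n ∧ ∃ l < k, i / (n + 1) ^ l % (n + 1) = u := by
          rw [← hti, mem_tup]
        split_ifs with hvn
        · rw [mem_insert, h2]
          constructor
          · rintro ⟨h3, h4 | h4⟩
            · exact Or.inl h4.symm
            · exact Or.inr ⟨h3, h4⟩
          · rintro (h3 | h3)
            · subst h3; exact ⟨hvn, Or.inl rfl⟩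
            · exact ⟨h3.1, Or.inr h3.2⟩
        · rw [h2]
          constructor
          · rintro ⟨h3, h4 | h4⟩
            · omega
            · exact ⟨h3, h4⟩
          · intro h3
            exact ⟨h3.1, Or.inr h3.2⟩
    rcases T.eq_empty_or_nonempty with h | ⟨v, hv⟩
    · refine key n ∅ (Nat.lt_succ_self n) (empty_subset _) (by simp) ?_
      rw [if_neg (lt_irrefl n), h]
    · have hvn : v < n := mem_range.1 (hT hv)
      refine key v (T.erase v) (by omega) ((erase_subset _ _).trans hT) ?_ ?_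
      · rw [card_erase_of_mem hv]; omega
      · rw [if_pos hvn, insert_erase hv]

theorem XXN_subset (ψ : ℕ) (T : Finset ℕ) : XXN n m F ψ T ⊆ range n := filter_subset _ _

theorem SS_subset (ψ k J p : ℕ) : SS n m F ψ k J p ⊆ range n :=
  (sel_subset _ _).trans (XXN_subset _ _)

theorem algA_eq_sum {ψ k I J : ℕ} (hI : (n + 1) ^ k ≤ I)
    (hJ : ∀ T, T ⊆ range n → T.card ≤ k → 2 ^ (XXN n m F ψ T).card ≤ J) :
    algA n m F ψ k I J = ∑ S ∈ (range n).powerset.filter
      (fun S => ∃ T, T ⊆ range n ∧ T.card ≤ k ∧ S ⊆ XXN n m F ψ T),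
        2 ^ (freeN n m F S).card := by
  classical
  have hJ0 : 0 < J := by
    have := hJ ∅ (empty_subset _) (by simp)
    have h2 : 0 < 2 ^ (XXN n m F ψ ∅).card := by positivity
    omega
  have h1 : algA n m F ψ k I J = ∑ p ∈ range (I * J),
      (if ∃ p' < p, SS n m F ψ k J p' = SS n m F ψ k J p then 0
        else 2 ^ (freeN n m F (SS n m F ψ k J p)).card) := by
    unfold algA
    refine sum_congr rfl fun p _ => ?_
    simp only [decide_eq_true_eq, eqB_iff (SS_subset (F := F) (m := m) ψ k J _)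
      (SS_subset (F := F) (m := m) ψ k J _)]
  rw [h1]
  have h2 := sum_first (I * J) (fun p => SS n m F ψ k J p) (fun S => 2 ^ (freeN n m F S).card)
  have h3 : (∑ p ∈ range (I * J),
      (if ∃ p' < p, SS n m F ψ k J p' = SS n m F ψ k J p then 0
        else 2 ^ (freeN n m F (SS n m F ψ k J p)).card)) =
      ∑ x ∈ (range (I * J)).image (fun p => SS n m F ψ k J p), 2 ^ (freeN n m F x).card := by
    rw [← h2]
  rw [h3]
  refine sum_congr ?_ (fun _ _ => rfl)
  ext S
  rw [mem_image, mem_filter, mem_powerset]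
  constructor
  · rintro ⟨p, _, rfl⟩
    exact ⟨SS_subset _ _ _ _, tup n k (p / J), tup_subset _ _, card_tup_le _ _, sel_subset _ _⟩
  · rintro ⟨_, T, hT, hTk, hS⟩
    obtain ⟨i, hi, hti⟩ := exists_tup k T hT hTk
    obtain ⟨τ, hτ, hs⟩ := exists_sel _ _ hS
    have hτJ : τ < J := hτ.trans_le (hJ T hT hTk)
    refine ⟨J * i + τ, ?_, ?_⟩
    · rw [mem_range]
      have hiI : i + 1 ≤ I := hi.trans_le hI
      calc J * i + τ < J * i + J := by omega
        _ = (i + 1) * J := by ring
        _ ≤ I * J := Nat.mul_le_mul_right _ hiI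
    · unfold SS
      rw [Nat.mul_add_div hJ0, Nat.div_eq_of_lt hτJ, add_zero, Nat.mul_add_mod,
        Nat.mod_eq_of_lt hτJ, hti, hs]

/-! ### Transport -/

variable {E : Fin n → Fin m → Bool}

theorem emb_freeN (hF : ∀ (i : Fin n) (j : Fin m), F i j = E i j) (T : Finset (Fin n)) :
    freeN n m F (T.map Fin.valEmbedding) = ((nb E T)ᶜ).map Fin.valEmbedding := by
  have key : ∀ j : Fin m, (∃ i < n, (decide (i ∈ T.map Fin.valEmbedding) && F i j) = true) ↔
      ∃ i ∈ T, E i j = true := by
    intro j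
    constructor
    · rintro ⟨i, hi, h⟩
      rw [Bool.and_eq_true, decide_eq_true_eq, mem_map] at h
      obtain ⟨⟨i', hi', rfl⟩, h2⟩ := h
      exact ⟨i', hi', by rw [← hF]; exact h2⟩
    · rintro ⟨i, hi, h⟩
      refine ⟨i, i.2, ?_⟩
      rw [Bool.and_eq_true, decide_eq_true_eq, mem_map]
      exact ⟨⟨i, hi, rfl⟩, by rw [hF]; exact h⟩
  ext j
  unfold freeN
  rw [mem_filter, mem_range, mem_map]
  constructor
  · rintro ⟨hj, h⟩
    refine ⟨⟨j, hj⟩, ?_, rfl⟩
    rw [mem_compl, mem_nb, ← key]
    simpa only [Bool.not_eq_true', decide_eq_false_iff_not] using h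
  · rintro ⟨j', h, rfl⟩
    refine ⟨j'.2, ?_⟩
    rw [mem_compl, mem_nb, ← key] at h
    simp only [Bool.not_eq_true', decide_eq_false_iff_not]
    exact h

theorem emb_XXN (hF : ∀ (i : Fin n) (j : Fin m), F i j = E i j) (ψ : ℕ) (T : Finset (Fin n)) :
    XXN n m F ψ (T.map Fin.valEmbedding) = (XX E ψ T).map Fin.valEmbedding := by
  have h1 : ∀ u : Fin n, (((freeN n m F (T.map Fin.valEmbedding)).filter
      fun j => F u j = true).card) = (row E u \ nb E T).card := by
    intro u
    rw [emb_freeN hF, ← card_map Fin.valEmbedding]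
    congr 1
    ext j
    simp only [mem_filter, mem_map, Fin.valEmbedding_apply, mem_compl, mem_sdiff, mem_row]
    constructor
    · rintro ⟨⟨j', h, rfl⟩, h2⟩
      exact ⟨j', ⟨by rw [← hF]; exact h2, h⟩, rfl⟩
    · rintro ⟨j', ⟨h, h2⟩, rfl⟩
      exact ⟨⟨j', h2, rfl⟩, by rw [← h]; exact hF _ _⟩
  ext u
  unfold XXN
  rw [mem_filter, mem_range, mem_map]
  constructor
  · rintro ⟨hu, h⟩
    refine ⟨⟨u, hu⟩, ?_, rfl⟩
    rw [mem_XX, ← h1 ⟨u, hu⟩]
    simpa using h
  · rintro ⟨u', h, rfl⟩
    refine ⟨u'.2, ?_⟩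
    rw [mem_XX, ← h1 u'] at h
    simpa using h

theorem exists_emb {T : Finset ℕ} (hT : T ⊆ range n) :
    ∃ T' : Finset (Fin n), T'.map Fin.valEmbedding = T := by
  refine ⟨univ.filter fun i : Fin n => (i : ℕ) ∈ T, ?_⟩
  ext v
  simp only [mem_map, mem_filter, mem_univ, true_and, Fin.valEmbedding_apply]
  constructor
  · rintro ⟨i, h, rfl⟩; exact h
  · intro h
    exact ⟨⟨v, mem_range.1 (hT h)⟩, h, rfl⟩

theorem algA_eq {ψ k I J : ℕ} (hF : ∀ (i : Fin n) (j : Fin m), F i j = E i j)
    (hI : (n + 1) ^ k ≤ I) (hJ : ∀ T : Finset (Fin n), T.card ≤ k → 2 ^ (XX E ψ T).card ≤ J) :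
    algA n m F ψ k I J = ∑ S ∈ Fam E ψ k, 2 ^ ((nb E S)ᶜ).card := by
  rw [algA_eq_sum hI]
  · symm
    refine sum_bij (fun S _ => S.map Fin.valEmbedding) ?_ ?_ ?_ ?_
    · intro S hS
      rw [mem_Fam] at hS
      obtain ⟨T, hT, hST⟩ := hS
      rw [mem_filter, mem_powerset]
      constructor
      · intro v hv
        obtain ⟨i, _, rfl⟩ := mem_map.1 hv
        exact mem_range.2 i.2
      · refine ⟨T.map Fin.valEmbedding, ?_, by rwa [card_map], ?_⟩
        · intro v hv
          obtain ⟨i, _, rfl⟩ := mem_map.1 hv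
          exact mem_range.2 i.2
        · rw [emb_XXN hF]
          exact map_subset_map.2 hST
    · intro S _ S' _ h
      exact map_injective _ h
    · intro S hS
      rw [mem_filter, mem_powerset] at hS
      obtain ⟨hS1, T, hT, hTk, hST⟩ := hS
      obtain ⟨S', rfl⟩ := exists_emb hS1
      obtain ⟨T', rfl⟩ := exists_emb hT
      refine ⟨S', ?_, rfl⟩
      rw [mem_Fam]
      refine ⟨T', by rwa [card_map] at hTk, ?_⟩
      rw [emb_XXN hF] at hST
      exact map_subset_map.1 hST
    · intro S _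
      rw [emb_freeN hF, card_map]
  · intro T hT hTk
    obtain ⟨T', rfl⟩ := exists_emb hT
    rw [emb_XXN hF, card_map]
    rw [card_map] at hTk
    exact hJ T' hTk

end spec

section count

variable {α β : Type*} [Fintype α] [Fintype β] [DecidableEq α] [DecidableEq β]

theorem sum_fam (E : α → β → Bool) (𝒮 : Finset (Finset α)) :
    ∑ S ∈ 𝒮, 2 ^ ((nb E S)ᶜ).card = ((Ind E).filter fun P => P.1 ∈ 𝒮).card := by
  have h1 : (Ind E).filter (fun P => P.1 ∈ 𝒮) =
      𝒮.biUnion fun S => ((nb E S)ᶜ.powerset).image fun R => (S, R) := by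
    ext ⟨S, R⟩
    simp only [mem_filter, mem_Ind, mem_biUnion, mem_image, mem_powerset, Prod.mk.injEq]
    constructor
    · rintro ⟨h, hS⟩
      refine ⟨S, hS, R, ?_, rfl, rfl⟩
      intro j hj
      rw [mem_compl, mem_nb]
      rintro ⟨i, hi, hij⟩
      rw [h i hi j hj] at hij
      simp at hij
    · rintro ⟨S', hS', R', hR', rfl, rfl⟩
      refine ⟨fun i hi j hj => ?_, hS'⟩
      have := hR' hj
      rw [mem_compl, mem_nb] at this
      by_contra hc
      exact this ⟨i, hi, by simpa using hc⟩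
  rw [h1, card_biUnion]
  · refine sum_congr rfl fun S _ => ?_
    rw [card_image_of_injective, card_powerset]
    intro R R' h
    exact (Prod.mk.injEq _ _ _ _ ▸ h).2
  · intro S _ S' _ hSS
    rw [Function.onFun, disjoint_left]
    intro x hx hx'
    obtain ⟨R, _, rfl⟩ := mem_image.1 hx
    obtain ⟨R', _, h⟩ := mem_image.1 hx'
    simp only [Prod.mk.injEq] at h
    exact hSS h.1.symm

theorem sum_fam' (E : α → β → Bool) (𝒮 : Finset (Finset β)) :
    ∑ S ∈ 𝒮, 2 ^ ((nb (rev E) S)ᶜ).card = ((Ind E).filter fun P => P.2 ∈ 𝒮).card := by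
  rw [sum_fam]
  refine card_bij (fun P _ => (P.2, P.1)) ?_ ?_ ?_
  · rintro ⟨S, R⟩ h
    simp only [mem_filter, mem_Ind] at h ⊢
    exact ⟨fun i hi j hj => h.1 j hj i hi, h.2⟩
  · rintro ⟨S, R⟩ _ ⟨S', R'⟩ _ h
    simp only [Prod.mk.injEq] at h ⊢
    exact ⟨h.2, h.1⟩
  · rintro ⟨S, R⟩ h
    refine ⟨(R, S), ?_, rfl⟩
    simp only [mem_filter, mem_Ind] at h ⊢
    exact ⟨fun i hi j hj => h.1 j hj i hi, h.2⟩

/-- The error of the sum of the two partial counts. -/
theorem error_bound (E : α → β → Bool) (ψ k : ℕ) :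
    |(((∑ S ∈ Fam E ψ k, 2 ^ ((nb E S)ᶜ).card : ℕ) : ℝ) +
      ((∑ S ∈ Fam (rev E) ψ k, 2 ^ ((nb (rev E) S)ᶜ).card : ℕ) : ℝ)) - (Ind E).card| ≤
      max (((Fam E ψ k).card : ℝ) * (Fam (rev E) ψ k).card) (Bad E ψ k).card := by
  rw [sum_fam, sum_fam']
  set A := (Ind E).filter fun P => P.1 ∈ Fam E ψ k with hA
  set B := (Ind E).filter fun P => P.2 ∈ Fam (rev E) ψ k with hB
  have h1 : A.card + B.card = (A ∪ B).card + (A ∩ B).card := (card_union_add_card_inter A B).symm
  have h2 : (A ∪ B).card + (Bad E ψ k).card = (Ind E).card := by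
    have : A ∪ B = (Ind E).filter fun P => ¬ (P.1 ∉ Fam E ψ k ∧ P.2 ∉ Fam (rev E) ψ k) := by
      ext P
      simp only [hA, hB, mem_union, mem_filter]
      tauto
    rw [this, add_comm]
    exact card_filter_add_card_filter_not _
  have h3 : (A ∩ B).card ≤ (Fam E ψ k).card * (Fam (rev E) ψ k).card := by
    rw [← card_product]
    refine card_le_card ?_
    intro P hP
    rw [mem_inter, hA, hB, mem_filter, mem_filter] at hP
    exact mem_product.2 ⟨hP.1.2, hP.2.2⟩
  have e : ((A.card : ℝ) + B.card) - (Ind E).card = (A ∩ B).card - (Bad E ψ k).card := by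
    have h1' : (A.card : ℝ) + B.card = (A ∪ B).card + (A ∩ B).card := by exact_mod_cast h1
    have h2' : ((A ∪ B).card : ℝ) + (Bad E ψ k).card = (Ind E).card := by exact_mod_cast h2
    linarith
  rw [e]
  have h3' : ((A ∩ B).card : ℝ) ≤ ((Fam E ψ k).card : ℝ) * (Fam (rev E) ψ k).card := by
    exact_mod_cast h3
  have p1 : (0 : ℝ) ≤ (A ∩ B).card := Nat.cast_nonneg _
  have p2 : (0 : ℝ) ≤ (Bad E ψ k).card := Nat.cast_nonneg _
  rw [abs_le]
  constructor
  · have := le_max_right (((Fam E ψ k).card : ℝ) * (Fam (rev E) ψ k).card) (Bad E ψ k).card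
    linarith
  · have := le_max_left (((Fam E ψ k).card : ℝ) * (Fam (rev E) ψ k).card) (Bad E ψ k).card
    linarith

theorem two_pow_le_Ind (E : α → β → Bool) : 2 ^ Fintype.card β ≤ (Ind E).card := by
  have h : (univ : Finset (Finset β)).image (fun R => ((∅ : Finset α), R)) ⊆ Ind E := by
    intro P hP
    obtain ⟨R, _, rfl⟩ := mem_image.1 hP
    rw [mem_Ind]
    intro i hi
    simp at hi
  have h2 := card_le_card h
  rw [card_image_of_injective, card_univ, Fintype.card_finset] at h2
  · exact h2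
  · intro R R' h
    exact (Prod.mk.injEq _ _ _ _ ▸ h).2

theorem card_Fam_le {E : α → β → Bool} {N ψ k B : ℕ} (hα : Fintype.card α = N)
    (hB : ∀ T : Finset α, T.card ≤ k → (XX E ψ T).card ≤ B) :
    (Fam E ψ k).card ≤ (N + 1) ^ k * 2 ^ B := by
  classical
  have h1 : Fam E ψ k ⊆ (univ.filter fun T : Finset α => T.card ≤ k).biUnion
      fun T => (XX E ψ T).powerset := by
    intro S hS
    obtain ⟨T, hT, hST⟩ := mem_Fam.1 hS
    exact mem_biUnion.2 ⟨T, by simpa using hT, mem_powerset.2 hST⟩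
  refine (card_le_card h1).trans (card_biUnion_le.trans ?_)
  refine (sum_le_sum (g := fun _ => 2 ^ B) fun T hT => ?_).trans ?_
  · rw [card_powerset]
    exact Nat.pow_le_pow_right (by norm_num) (hB T (by simpa using hT))
  · rw [sum_const, smul_eq_mul]
    refine Nat.mul_le_mul_right _ ?_
    -- sets of size at most k are images of tuples
    let e := Fintype.equivFinOfCardEq hα
    have h2 : (univ.filter fun T : Finset α => T.card ≤ k).image
        (fun T => (T.map e.toEmbedding).map Fin.valEmbedding) ⊆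
        (range ((N + 1) ^ k)).image (tup N k) := by
      intro S hS
      obtain ⟨T, hT, rfl⟩ := mem_image.1 hS
      simp only [mem_filter, mem_univ, true_and] at hT
      obtain ⟨i, hi, h⟩ := exists_tup (n := N) k ((T.map e.toEmbedding).map Fin.valEmbedding)
        (by
          intro v hv
          obtain ⟨i, _, rfl⟩ := mem_map.1 hv
          exact mem_range.2 i.2) (by simpa using hT)
      exact mem_image.2 ⟨i, mem_range.2 hi, h⟩
    have h3 := card_le_card h2
    rw [card_image_of_injective] at h3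
    · exact h3.trans (card_image_le.trans (by simp))
    · intro T T' h
      exact map_injective _ (map_injective _ h)

end count

end Pool.Agent.Lib.Pa7c826y
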