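import Pool.Agent.Lib.Pa7c826y.Main

/-!
The machine and its correctness.
-/

namespace Pool.Agent.Lib.Pa7c826y

open Pool.Agent.Lib.Pa7c826
open Pool.Agent.Lib.Pa7c826x
open Pool.Agent.Lib.PolyTime

/-! ### The machine -/

/-- adjacency read off the input -/
def FA (w : List Bool) (i j : ℕ) : Bool :=
  (decide (i < aOf w) && decide (j < bOf w)) && eOf w i j

theorem FA_poly : FPoly FA :=
  fun hw hu hv => ((PolyB.lt hu (poly_aOf hw)).and (PolyB.lt hv (poly_bOf hw))).and
    (poly_eOf hw hu hv)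

theorem FA_inCode (G : BGraph) (t : ℕ) (i : Fin G.a) (j : Fin G.b) :
    FA (inCode G t) i j = G.E i j := by
  have h := F_of_inCode G t i j
  rw [G.F_eq] at h
  exact h.symm

/-- degree of the first left vertex -/
def dA (w : List Bool) : ℕ := ((Finset.range (bOf w)).filter fun j => FA w 0 j = true).card

/-- The output of the algorithm. -/
def algo2 (q e : ℕ) (w : List Bool) : ℕ :=
  if decide (1 ≤ JJ e (tOf w) / 2 ^ aOf w) = true then
    algA (aOf w) (bOf w) (FA w) (bOf w) 0 (KK e (tOf w)) (JJ e (tOf w))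
  else
    algA (aOf w) (bOf w) (FA w) (dA w / q) (LL e (tOf w) / (dA w + 1)) (KK e (tOf w))
      (JJ e (tOf w)) +
    algA (bOf w) (aOf w) (fun i j => FA w j i) (dA w / q) (LL e (tOf w) / (dA w + 1))
      (KK e (tOf w)) (JJ e (tOf w))

section poly

variable {α : Type} {D : α → Prop} {ctx : List (α → List Bool)} {w : α → List Bool}

theorem poly_lg {s : α → ℕ} (hs : PolyN D ctx s) : PolyN D ctx (fun a => lg (s a)) := by
  have S1 := upN (n := s) hs
  have L1 := last (D := D) (ctx := ctx) (n := s)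
  exact PolyN.count (φ := fun p : α × ℕ => decide (1 ≤ s p.1 / 2 ^ p.2)) hs
    (PolyB.le (PolyN.const 1) (PolyN.divPow S1 L1))

theorem poly_dA (hw : PolyC D ctx w) : PolyN D ctx (fun a => dA (w a)) := by
  have W1 := up (n := fun a => bOf (w a)) hw
  have L1 := last (D := D) (ctx := ctx) (n := fun a => bOf (w a))
  exact PolyN.count (φ := fun p : α × ℕ => FA (w p.1) 0 p.2) (poly_bOf hw)
    (FA_poly W1 (PolyN.const 0) L1)

theorem poly_algo2 (q e : ℕ) (hq : 1 ≤ q) (hw : PolyC D ctx w) :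
    PolyBin D ctx (fun a => algo2 q e (w a)) := by
  have ha := poly_aOf hw
  have hb := poly_bOf hw
  have ht := poly_tOf hw
  have hK : PolyN D ctx (fun a => KK e (tOf (w a))) :=
    PolyN.pow (((PolyN.const 16).mul ht).add (PolyN.const 1)) e
  have hJ : PolyN D ctx (fun a => JJ e (tOf (w a))) := PolyN.pow hK 11
  have hJ0 : ∀ a, D a → 0 < JJ e (tOf (w a)) := by
    intro a _
    unfold JJ KK
    positivity
  have hL : PolyN D ctx (fun a => LL e (tOf (w a))) :=
    (PolyN.const e).mul (poly_lg ((PolyN.const 8).mul ht))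
  have hd := poly_dA hw
  have hk : PolyN D ctx (fun a => LL e (tOf (w a)) / (dA (w a) + 1)) :=
    PolyN.div hL hd.succ (fun _ _ => Nat.succ_pos _)
  have hψ : PolyN D ctx (fun a => dA (w a) / q) :=
    PolyN.div hd (PolyN.const q) (fun _ _ => hq)
  have hA := poly_algA (F := FA) (w := w) (n := fun a => aOf (w a)) (m := fun a => bOf (w a))
    (ψ := fun a => bOf (w a)) (k := fun _ => 0) (I := fun a => KK e (tOf (w a)))
    (J := fun a => JJ e (tOf (w a))) FA_poly hw ha hb hb (PolyN.const 0) hK hJ hJ0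
  have hB := poly_algA (F := FA) (w := w) (n := fun a => aOf (w a)) (m := fun a => bOf (w a))
    (ψ := fun a => dA (w a) / q) (k := fun a => LL e (tOf (w a)) / (dA (w a) + 1))
    (I := fun a => KK e (tOf (w a))) (J := fun a => JJ e (tOf (w a)))
    FA_poly hw ha hb hψ hk hK hJ hJ0
  have hC := poly_algA (F := fun w i j => FA w j i) (w := w) (n := fun a => bOf (w a))
    (m := fun a => aOf (w a))
    (ψ := fun a => dA (w a) / q) (k := fun a => LL e (tOf (w a)) / (dA (w a) + 1))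
    (I := fun a => KK e (tOf (w a))) (J := fun a => JJ e (tOf (w a)))
    FA_poly.rev hw hb ha hψ hk hK hJ hJ0
  have hBC := PolyBin.add hB hC
  have hφ : PolyB D ctx (fun a => decide (1 ≤ JJ e (tOf (w a)) / 2 ^ aOf (w a))) :=
    PolyB.le (PolyN.const 1) (PolyN.divPow hJ ha)
  have h := PolyBin.ite hφ (hA.mono fun _ h => h.1) (hBC.mono fun _ h => h.1)
  exact h

end poly

/-! ### Correctness -/

theorem card_Ind_eq (G : BGraph) : (Ind G.E).card = numIndep G.graph := by
  classical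
  unfold BGraph.graph
  rw [numIndep_bip]
  unfold cnt
  rw [← Nat.card_eq_finsetCard]
  refine Nat.card_congr ?_
  refine Equiv.subtypeEquiv (Equiv.prodCongr (Equiv.ofBijective (fun S : Finset (Fin G.a) =>
    (S : Set (Fin G.a))) ⟨Finset.coe_injective, fun S => ⟨S.toFinset, by simp⟩⟩)
    (Equiv.ofBijective (fun S : Finset (Fin G.b) =>
    (S : Set (Fin G.b))) ⟨Finset.coe_injective, fun S => ⟨S.toFinset, by simp⟩⟩)) ?_
  rintro ⟨S, R⟩
  rw [mem_Ind]
  simp

theorem dA_inCode (G : BGraph) (t : ℕ) (h : 0 < G.a) :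
    dA (inCode G t) = (row G.E ⟨0, h⟩).card := by
  unfold dA
  rw [bOf_inCode, ← Finset.card_map Fin.valEmbedding]
  congr 1
  ext j
  rw [Finset.mem_filter, Finset.mem_range, Finset.mem_map]
  constructor
  · rintro ⟨hj, h2⟩
    refine ⟨⟨j, hj⟩, ?_, rfl⟩
    rw [mem_row, ← FA_inCode G t]
    exact h2
  · rintro ⟨j', h2, rfl⟩
    rw [mem_row, ← FA_inCode G t] at h2
    exact ⟨j'.2, h2⟩

theorem brute_spec {q e t : ℕ} (G : BGraph) (hb : 1 ≤ JJ e t / 2 ^ G.a) :
    algo2 q e (inCode G t) = numIndep G.graph := by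
  unfold algo2
  rw [tOf_inCode, aOf_inCode, bOf_inCode, if_pos (by simpa using hb), ← card_Ind_eq]
  have hK : 1 ≤ KK e t := by unfold KK; exact Nat.one_le_pow _ _ (by omega)
  have hJ : 2 ^ G.a ≤ JJ e t := by
    rwa [Nat.one_le_div_iff (by positivity)] at hb
  rw [algA_eq (E := G.E) (FA_inCode G t) (by simpa using hK), sum_fam]
  · congr 1
    rw [Finset.filter_eq_self]
    intro P _
    rw [mem_Fam]
    refine ⟨∅, by simp, fun u _ => ?_⟩
    rw [mem_XX]
    exact (Finset.card_le_univ _).trans (by simp)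
  · intro T _
    refine le_trans (Nat.pow_le_pow_right (by norm_num) ?_) hJ
    exact (Finset.card_le_univ _).trans (by simp)

theorem JJ_lower {e t N : ℕ} (ht : 1 ≤ t) (h : JJ e t < 2 ^ N) : 44 * e < N := by
  have h1 : 2 ^ (44 * e) ≤ JJ e t := by
    unfold JJ KK
    rw [← pow_mul, show 44 * e = 4 * (e * 11) by ring, pow_mul]
    exact Nat.pow_le_pow_left (by omega) _
  exact (Nat.pow_lt_pow_iff_right (by norm_num)).1 (h1.trans_lt h)

/-- The requirements on the constants. -/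
structure Consts (a γ κ c C : ℝ) (q e : ℕ) : Prop where
  a0 : 0 < a
  γ0 : 0 ≤ γ
  γ1 : γ ≤ 1
  κ0 : 0 < κ
  κ2 : κ ≤ 2
  q1 : 1 ≤ q
  κq : κ * (1 + γ) ≤ (κ - (1 + γ)) * q
  c0 : 0 < c
  C3 : 3 ≤ C
  Cq : 12 * q ≤ c * C
  ce : 4 * q * Real.log 2 ≤ c * e
  e1 : 1 ≤ e
  ae : 1 ≤ a * e
  cnt : ∀ (n m N : ℕ) (E : Fin n → Fin m → Bool), n = N → m = N → 1 ≤ a * ((N : ℝ) - 1) →
    Exp a E → Exp a (rev E) → CountBound κ c N E

theorem algo2_spec {a γ κ c C : ℝ} {q e t : ℕ} (hc : Consts a γ κ c C q e) (ht : 1 ≤ t)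
    (G : BGraph) (hG : AlmostRegularExpander a γ (fun N => C * Real.log N) G) :
    |((algo2 q e (inCode G t) : ℕ) : ℝ) - numIndep G.graph| ≤ numIndep G.graph / t := by
  by_cases hb : 1 ≤ JJ e t / 2 ^ G.a
  · rw [brute_spec G hb, sub_self, abs_zero]
    positivity
  have hlt : JJ e t < 2 ^ G.a := by
    by_contra h
    exact hb ((Nat.one_le_div_iff (by positivity)).2 (not_lt.1 h))
  have hif : algo2 q e (inCode G t) =
      algA G.a G.b (FA (inCode G t)) (dA (inCode G t) / q)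
        (LL e t / (dA (inCode G t) + 1)) (KK e t) (JJ e t) +
      algA G.b G.a (fun i j => FA (inCode G t) j i) (dA (inCode G t) / q)
        (LL e t / (dA (inCode G t) + 1)) (KK e t) (JJ e t) := by
    unfold algo2
    rw [tOf_inCode, aOf_inCode, bOf_inCode, if_neg (by simpa using hb)]
  have hNe := JJ_lower ht hlt
  have he1 := hc.e1
  have ha0 : 0 < G.a := by omega
  rw [hif, dA_inCode G t ha0]
  have hFA := FA_inCode G t
  rw [← card_Ind_eq]
  obtain ⟨hab, ⟨hex1, hex2⟩, δ, hδ, hrow, hcol⟩ := hG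
  simp only at hδ
  set N := G.a with hN
  have hNr : (44 * e : ℝ) + 1 ≤ N := by exact_mod_cast hNe
  have he1r : (1 : ℝ) ≤ e := by exact_mod_cast he1
  have hN2 : 2 ≤ N := by omega
  have haN : 1 ≤ a * ((N : ℝ) - 1) := by
    have h1 : a * e ≤ a * ((N : ℝ) - 1) := mul_le_mul_of_nonneg_left (by linarith) hc.a0.le
    linarith [hc.ae]
  have hlogN : 0 < Real.log N := Real.log_pos (by linarith)
  have hδ0 : 0 < δ := by
    have : (0 : ℝ) < δ := lt_of_lt_of_le (mul_pos (by linarith [hc.C3]) hlogN) hδ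
    exact_mod_cast this
  set E := G.E with hE
  have hα : Fintype.card (Fin G.a) = N := Fintype.card_fin _
  have hβ : Fintype.card (Fin G.b) = N := by rw [Fintype.card_fin]; exact hab.symm
  have h1 : Exp a E := by
    intro S hS
    rw [hα] at hS
    have e1 : nbR G S = nb E S := by
      ext j
      rw [mem_nb]
      simp [nbR, hE]
    rw [← e1]
    exact hex1 S hS
  have h2 : Exp a (rev E) := by
    intro S hS
    rw [Fintype.card_fin] at hS
    have e1 : nbL G S = nb (rev E) S := by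
      ext j
      rw [mem_nb]
      simp [nbL, hE, rev]
    rw [← e1]
    exact hex2 S hS
  have hrow1 : ∀ u, δ ≤ (row E u).card := fun u => (hrow u).1
  have hrow2 : ∀ u, ((row E u).card : ℝ) ≤ (1 + γ) * δ := fun u => (hrow u).2
  have hcol1 : ∀ v, δ ≤ (row (rev E) v).card := fun v => (hcol v).1
  have hcol2 : ∀ v, ((row (rev E) v).card : ℝ) ≤ (1 + γ) * δ := fun v => (hcol v).2
  obtain ⟨d0, hd0⟩ : ∃ d0, d0 = (row E ⟨0, ha0⟩).card := ⟨_, rfl⟩
  rw [← hd0]
  have hd1 : δ ≤ d0 := by rw [hd0]; exact hrow1 _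
  have hd2 : (d0 : ℝ) ≤ (1 + γ) * δ := by rw [hd0]; exact hrow2 _
  have hX : ∀ T, ((XX E (d0 / q) T).card : ℝ) ≤ κ * (nb E T).card :=
    XX_ratio hc.κ0 hc.γ0 hc.q1 hc.κq hd2 hδ0 hrow1 hcol2
  have hX' : ∀ T, ((XX (rev E) (d0 / q) T).card : ℝ) ≤ κ * (nb (rev E) T).card :=
    XX_ratio hc.κ0 hc.γ0 hc.q1 hc.κq hd2 hδ0 hcol1 hrow2
  set L := LL e t with hL
  set k := L / (d0 + 1) with hk
  have hS1 : ∀ T, T.card ≤ k → (XX E (d0 / q) T).card ≤ 4 * L :=
    fun T hT => XX_small hc.κ2 hc.γ0 hc.γ1 hd1 hrow2 hX T hT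
  have hS2 : ∀ T, T.card ≤ k → (XX (rev E) (d0 / q) T).card ≤ 4 * L :=
    fun T hT => XX_small hc.κ2 hc.γ0 hc.γ1 hd1 hcol2 hX' T hT
  have hT : (N + 1) ^ k ≤ 2 ^ L := tuples_small hN2 hc.C3 hδ hd1
  have hLK : 2 ^ L ≤ KK e t := LL_upper e ht
  have hK1 : 1 ≤ KK e t := by unfold KK; exact Nat.one_le_pow _ _ (by omega)
  have h4L : 2 ^ (4 * L) ≤ KK e t ^ 4 := by
    rw [mul_comm, pow_mul]
    exact Nat.pow_le_pow_left hLK 4
  have hJ4 : KK e t ^ 4 ≤ JJ e t := Nat.pow_le_pow_right hK1 (by norm_num)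
  have hba : G.b = N := hab.symm
  rw [algA_eq (E := E) hFA (hT.trans hLK) (fun T hT => (Nat.pow_le_pow_right (by norm_num)
    (hS1 T hT)).trans (h4L.trans hJ4)),
    algA_eq (E := rev E) (fun i j => hFA j i) (by rw [hba]; exact hT.trans hLK)
    (fun T hT => (Nat.pow_le_pow_right (by norm_num)
    (hS2 T hT)).trans (h4L.trans hJ4))]
  have herr := error_bound E (d0 / q) k
  push_cast at herr ⊢
  refine herr.trans ?_
  have ht' : (0 : ℝ) < t := by exact_mod_cast ht
  have hInd : (2 : ℝ) ^ N ≤ (Ind E).card := by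
    have := two_pow_le_Ind E
    rw [hβ] at this
    exact_mod_cast this
  have hfin : (2 : ℝ) ^ N / t ≤ (Ind E).card / t := div_le_div_of_nonneg_right hInd ht'.le
  refine le_trans (max_le ?_ ?_) hfin
  · -- both in small families
    have f1 := card_Fam_le (E := E) (N := N) (ψ := d0 / q) (k := k) hα hS1
    have f2 := card_Fam_le (E := rev E) (N := N) (ψ := d0 / q) (k := k) hβ hS2
    have g : (N + 1) ^ k * 2 ^ (4 * L) ≤ KK e t ^ 5 := by
      calc (N + 1) ^ k * 2 ^ (4 * L) ≤ KK e t * KK e t ^ 4 :=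
            Nat.mul_le_mul (hT.trans hLK) h4L
        _ = _ := by ring
    have htK : t ≤ KK e t := by
      unfold KK
      calc t ≤ 16 * t + 1 := by omega
        _ = (16 * t + 1) ^ 1 := (pow_one _).symm
        _ ≤ _ := Nat.pow_le_pow_right (by omega) he1
    have h3 : (Fam E (d0 / q) k).card * (Fam (rev E) (d0 / q) k).card * t ≤ 2 ^ N := by
      calc (Fam E (d0 / q) k).card * (Fam (rev E) (d0 / q) k).card * t
          ≤ KK e t ^ 5 * KK e t ^ 5 * KK e t :=
            Nat.mul_le_mul (Nat.mul_le_mul (f1.trans g) (f2.trans g)) htK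
        _ = JJ e t := by unfold JJ; ring
        _ ≤ _ := hlt.le
    rw [le_div_iff₀ ht']
    exact_mod_cast h3
  · exact bad_small hα hβ hN2 (hc.cnt _ _ N E hN.symm hba haN h1 h2)
      (hc.cnt _ _ N (rev E) hba hN.symm haN h2 h1) hc.κ0 hc.κ2 hc.q1 hX hX' hc.c0 hc.Cq hc.ce
      hδ hd1 ht hlt

theorem hasFPTAS_of_consts {a γ κ c C : ℝ} {q e : ℕ} (hc : Consts a γ κ c C q e) :
    HasFPTAS (AlmostRegularExpander a γ (fun N => C * Real.log N)) := by
  let D : BGraph × ℕ → Prop := fun x =>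
    AlmostRegularExpander a γ (fun N => C * Real.log N) x.1 ∧ 1 ≤ x.2
  let enc : BGraph × ℕ → List Bool := fun x => inCode x.1 x.2
  have hw : PolyC D [enc] enc := PolyC.var (by simp)
  obtain ⟨u, hu, hval⟩ := poly_algo2 q e hc.q1 hw
  have hout : PolyC D [enc] (fun x => false :: u x) := PolyC.cons false hu
  refine ⟨fun x => false :: u x.1, PolyC.toTM2 enc (fun x => false :: u x) id hout, ?_⟩
  rintro ⟨⟨G, t⟩, hG, ht⟩
  have hG' : AlmostRegularExpander a γ (fun N => C * Real.log N) G := hG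
  have ht' : 1 ≤ t := ht
  have h1 := algo2_spec hc ht' G hG'
  have h2 : binVal (u (G, t)) = algo2 q e (inCode G t) := by
    rw [binVal_eq_bval]
    exact hval (G, t) ⟨hG, ht⟩
  unfold Good
  simp only [outVal, h2]
  have h3 : ((|((algo2 q e (inCode G t) : ℕ) : ℚ) - (numIndep G.graph : ℚ)| : ℚ) : ℝ) ≤
      (((numIndep G.graph : ℚ) / (t : ℚ) : ℚ) : ℝ) := by
    push_cast
    exact h1
  exact Rat.cast_le.1 h3

/-- A bound for the number of independent pairs gives an approximation scheme. -/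
theorem easy_of_count {a γ κ c : ℝ} (ha : 0 < a) (hγ0 : 0 ≤ γ) (hγ1 : γ ≤ 1) (hκ : 1 + γ < κ)
    (hκ2 : κ ≤ 2) (hc : 0 < c)
    (hcnt : ∀ (n m N : ℕ) (E : Fin n → Fin m → Bool), n = N → m = N → 1 ≤ a * ((N : ℝ) - 1) →
      Exp a E → Exp a (rev E) → CountBound κ c N E) :
    ∃ C : ℝ, HasFPTAS (AlmostRegularExpander a γ (fun N => C * Real.log N)) := by
  have hε0 : 0 < κ - (1 + γ) := by linarith
  obtain ⟨q0, hq0⟩ := exists_nat_ge (κ * (1 + γ) / (κ - (1 + γ)))
  set q := q0 + 1 with hq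
  have hqr : κ * (1 + γ) / (κ - (1 + γ)) ≤ q := by
    rw [hq]; push_cast; linarith
  rw [div_le_iff₀ hε0] at hqr
  obtain ⟨e0, he0⟩ := exists_nat_ge (4 * q * Real.log 2 / c)
  obtain ⟨e1, he1⟩ := exists_nat_ge (1 / a)
  have he : (((e0 + e1 + 1 : ℕ)) : ℝ) = e0 + e1 + 1 := by push_cast; ring
  have h0 : (0 : ℝ) ≤ e0 := Nat.cast_nonneg _
  have h0' : (0 : ℝ) ≤ e1 := Nat.cast_nonneg _
  refine ⟨max 3 (12 * q / c), hasFPTAS_of_consts (κ := κ) (c := c) (q := q) (e := e0 + e1 + 1)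
    ⟨ha, hγ0, hγ1, by linarith, hκ2, by omega, ?_, hc, le_max_left _ _, ?_, ?_, by omega, ?_,
      hcnt⟩⟩
  · linarith
  · have := le_max_right (3 : ℝ) (12 * q / c)
    rw [div_le_iff₀ hc] at this
    linarith
  · rw [div_le_iff₀ hc] at he0
    rw [he]
    nlinarith
  · rw [div_le_iff₀ ha] at he1
    rw [he]
    nlinarith

/-- Almost regular expanders are easy below the threshold. -/
theorem easy_main {a γ : ℝ} (ha : 0 < a) (hγ0 : 0 ≤ γ)
    (h : γ * (1 + a) * Real.log (3 / 2) < a * Real.log (4 / 3)) :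
    ∃ C : ℝ, HasFPTAS (AlmostRegularExpander a γ (fun N => C * Real.log N)) := by
  obtain ⟨hA, hAB, hl2, _⟩ := log_facts
  have hB : 0 < Real.log (3 / 2) := hA.trans hAB
  have ha1 : 0 < 1 + a := by linarith
  -- `γ < 1`
  have hγ1 : γ < 1 := by
    by_contra hc
    push Not at hc
    have h1 : 1 * (1 + a) * Real.log (3 / 2) ≤ γ * (1 + a) * Real.log (3 / 2) :=
      mul_le_mul_of_nonneg_right (mul_le_mul_of_nonneg_right hc ha1.le) hB.le
    nlinarith
  -- the slack
  have hs : 0 < (a * Real.log (4 / 3) / (1 + a) - γ * Real.log (3 / 2)) / Real.log (3 / 2) := by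
    refine div_pos ?_ hB
    rw [sub_pos, lt_div_iff₀ ha1]
    linarith
  obtain ⟨ε, hε0, hε⟩ := exists_between (lt_min hs (by linarith : (0 : ℝ) < 1 - γ))
  have hε1 := hε.trans_le (min_le_left _ _)
  have hε2 := hε.trans_le (min_le_right _ _)
  rw [lt_div_iff₀ hB] at hε1
  set κ := 1 + γ + ε with hκ
  have hcc : 0 < cc a κ := by
    unfold cc
    have e1 : Real.log (4 / 3) / (1 + a) =
        Real.log (4 / 3) - a * Real.log (4 / 3) / (1 + a) := by
      field_simp
      ring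
    rw [e1, hl2, hκ]
    nlinarith
  refine easy_of_count (κ := κ) (c := cc a κ) ha hγ0 hγ1.le (by linarith) (by linarith) hcc ?_
  intro n m N E hn hm haN h1 h2 X F hXF hκF
  have h3 := card_IndIn_exp (by rw [Fintype.card_fin]; exact hn)
    (by rw [Fintype.card_fin]; exact hm) ha haN h1 h2 X F hXF hκF
  refine h3.trans ?_
  have : (0 : ℝ) ≤ 2 ^ N * Real.exp (-(cc a κ * F.card)) := by positivity
  linarith

end Pool.Agent.Lib.Pa7c826y
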