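import Pool.Agent.Lib.Pa7c826.Transfer2
import Pool.Agent.Lib.Pa7c826.Fptas

/-!
Binary multiplication and powers; transfer of approximation schemes with a general factor.
-/

namespace Pool.Agent.Lib.Pa7c826y

open Pool.Agent.Lib.Pa7c826
open Pool.Agent.Lib.PolyTime

variable {α : Type*} {D : α → Prop} {ctx : List (α → List Bool)}

/-! ### Shifts and products -/

theorem PolyBin.shift {k f : α → ℕ} (hk : PolyN D ctx k) (hf : PolyBin D ctx f) :
    PolyBin D ctx (fun a => 2 ^ k a * f a) := by
  obtain ⟨t, h1, h2⟩ := hf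
  refine ⟨fun a => List.replicate (k a) false ++ t a, (PolyC.replicateFalse hk).append h1,
    fun a ha => ?_⟩
  rw [bval_append, bval_replicate_false, List.length_replicate, h2 a ha]
  simp

theorem PolyBin.up {f n : α → ℕ} (hf : PolyBin D ctx f) :
    PolyBin (fun p : α × ℕ => D p.1 ∧ p.2 < n p.1) (PolyTime.lift ctx ++ [fun p => un p.2])
      (fun p => f p.1) := by
  obtain ⟨t, h1, h2⟩ := hf
  exact ⟨fun p => t p.1, Pa7c826.up h1, fun p hp => h2 p.1 hp.1⟩

theorem PolyBin.mul {f g : α → ℕ} (hf : PolyBin D ctx f) (hg : PolyBin D ctx g) :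
    PolyBin D ctx (fun a => f a * g a) := by
  obtain ⟨t, h1, h2⟩ := hf
  have hn := PolyN.length h1
  have hb : PolyB (fun p : α × ℕ => D p.1 ∧ p.2 < (t p.1).length)
      (PolyTime.lift ctx ++ [fun p => un p.2]) (fun p => (t p.1).getD p.2 false) :=
    PolyB.getD (Pa7c826.up (n := fun a => (t a).length) h1)
      (last (D := D) (ctx := ctx) (n := fun a => (t a).length))
  have hterm : PolyBin (fun p : α × ℕ => D p.1 ∧ p.2 < (t p.1).length)
      (PolyTime.lift ctx ++ [fun p => un p.2])
      (fun p => if (t p.1).getD p.2 false then 2 ^ p.2 * g p.1 else 0) :=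
    PolyBin.ite hb (PolyBin.mono (PolyBin.shift
      (last (D := D) (ctx := ctx) (n := fun a => (t a).length))
      (PolyBin.up (n := fun a => (t a).length) hg)) (fun _ h => h.1)) PolyBin.zero
  refine (PolyBin.sum_range hn hterm).congr (fun a ha => ?_)
  rw [← h2 a ha, bval_eq_sum (t a) _ le_rfl, Finset.sum_mul]
  refine Finset.sum_congr rfl fun i _ => ?_
  simp only
  cases (t a).getD i false <;> simp

/-! ### Canonical digits -/

/-- the first `L` binary digits of `n` -/
def bitsN (L n : ℕ) : List Bool := (List.range L).map (fun i => n.testBit i)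

@[simp] theorem bitsN_length (L n : ℕ) : (bitsN L n).length = L := by simp [bitsN]

theorem testBit_bval (l : List Bool) (i : ℕ) : (bval l).testBit i = l.getD i false := by
  induction l generalizing i with
  | nil => simp [bval]
  | cons b l ih =>
    rcases i with _ | i
    · simp only [bval, List.getD_cons_zero, Nat.testBit_zero]
      cases b <;> simp
    · rw [List.getD_cons_succ, ← ih, Nat.testBit_succ]
      congr 1
      simp only [bval]
      cases b <;> simp; omega

theorem bval_bitsN (L n : ℕ) (h : n < 2 ^ L) : bval (bitsN L n) = n := by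
  refine Nat.eq_of_testBit_eq fun i => ?_
  rw [testBit_bval]
  unfold bitsN
  rcases lt_or_ge i L with hi | hi
  · rw [List.getD_eq_getElem?_getD, List.getElem?_map, List.getElem?_range hi]
    rfl
  · rw [List.getD_eq_default _ _ (by simpa using hi)]
    symm
    exact Nat.testBit_lt_two_pow (h.trans_le (Nat.pow_le_pow_right (by norm_num) hi))

theorem PolyBin.canon {L f : α → ℕ} (hL : PolyN D ctx L) (hf : PolyBin D ctx f) :
    PolyC D ctx (fun a => bitsN (L a) (f a)) := by
  obtain ⟨t, h1, h2⟩ := hf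
  refine (PolyC.map_range (φ := fun p : α × ℕ => (t p.1).getD p.2 false) hL
    (PolyB.getD (Pa7c826.up h1) last)).congr (fun a ha => ?_)
  unfold bitsN
  refine List.map_congr_left fun i _ => ?_
  simp only
  rw [← h2 a ha, testBit_bval]

theorem PolyBin.ofN {f : α → ℕ} (hf : PolyN D ctx f) : PolyBin D ctx f := by
  have h1 : PolyBin (fun p : α × ℕ => D p.1 ∧ p.2 < f p.1)
      (PolyTime.lift ctx ++ [fun p => un p.2]) (fun _ => 1) :=
    (PolyBin.pow2 (PolyN.const 0)).congr (fun _ _ => by simp)
  refine (PolyBin.sum_range hf h1).congr (fun a _ => by simp)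

/-- Powers with a bounded base. -/
theorem PolyBin.powN {w m l : α → ℕ} (hw : PolyBin D ctx w) (hm : PolyN D ctx m)
    (hl : PolyN D ctx l) (hwl : ∀ a, D a → w a < 2 ^ l a) :
    PolyBin D ctx (fun a => w a ^ m a) := by
  let L : α → ℕ := fun a => l a * m a + 1
  have hL : PolyN D ctx L := (hl.mul hm).succ
  have hlt : ∀ a, D a → ∀ k, k ≤ m a → w a ^ k < 2 ^ L a := by
    intro a ha k hk
    calc w a ^ k ≤ (2 ^ l a) ^ k := Nat.pow_le_pow_left (hwl a ha).le k
      _ = 2 ^ (l a * k) := by rw [← pow_mul]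
      _ < 2 ^ L a := Nat.pow_lt_pow_right (by norm_num) (by
          show l a * k < l a * m a + 1
          have := Nat.mul_le_mul_left (l a) hk
          omega)
  obtain ⟨pL, hpL⟩ := PolyC.length_le hL
  refine ⟨fun a => bitsN (L a) (w a ^ m a), ?_, fun a ha => bval_bitsN _ _ (hlt a ha _ le_rfl)⟩
  refine PolyC.natRec (fun a k => bitsN (L a) (w a ^ k)) hm ?_ ?_ ⟨pL, fun a ha k hk => ?_⟩
  · refine (PolyBin.canon hL ((PolyBin.pow2 (PolyN.const 0)).congr (g := fun _ => 1)
      (fun _ _ => by simp))).congr (fun a _ => by simp)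
  · let D' : α × ℕ → Prop := fun p => D p.1 ∧ p.2 < m p.1
    let ctx' : List (α × ℕ → List Bool) :=
      PolyTime.lift ctx ++ [fun p => un p.2, fun p => bitsN (L p.1) (w p.1 ^ p.2)]
    have h1 : PolyBin D' ctx' (fun p => w p.1 ^ p.2) :=
      ⟨fun p => bitsN (L p.1) (w p.1 ^ p.2), PolyC.var (by simp [ctx']), fun p hp =>
        bval_bitsN _ _ (hlt p.1 hp.1 _ hp.2.le)⟩
    have h2 : PolyBin D' ctx' (fun p => w p.1) := by
      obtain ⟨t, h3, h4⟩ := hw
      exact ⟨fun p => t p.1, up2 h3, fun p hp => h4 p.1 hp.1⟩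
    have h3 : PolyN D' ctx' (fun p => L p.1) := up2 hL
    refine (PolyBin.canon h3 (PolyBin.mul h1 h2)).congr (fun p _ => ?_)
    simp only [pow_succ]
  · have h1 := hpL a ha
    rw [un_length] at h1
    rw [bitsN_length]
    exact h1

/-! ### The numbers `(4 ^ r - 1) / 3` -/

/-- `(4 ^ r - 1) / 3` -/
def third (r : ℕ) : ℕ := ∑ i ∈ Finset.range r, 2 ^ (2 * i)

theorem third_eq (r : ℕ) : 3 * third r + 1 = 4 ^ r := by
  unfold third
  induction r with
  | zero => simp
  | succ r ih =>
    rw [Finset.sum_range_succ, pow_succ, ← ih]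
    have : (2 : ℕ) ^ (2 * r) = 4 ^ r := by rw [pow_mul]; norm_num
    rw [this, ← ih]
    ring

theorem PolyBin.third {r : α → ℕ} (hr : PolyN D ctx r) : PolyBin D ctx (fun a => third (r a)) :=
  PolyBin.sum_range hr (PolyBin.pow2 ((PolyN.const 2).mul last))

/-! ### Transfer with a factor -/

theorem afterTrue_outVal (o : List Bool) :
    outVal o = (bval (afterTrue o) : ℚ) / 2 ^ (o.takeWhile id).length := by
  induction o with
  | nil => simp [outVal, afterTrue, bval]
  | cons b o ih =>
    cases b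
    · simp [outVal, afterTrue, binVal_eq_bval]
    · simp only [outVal, afterTrue, List.takeWhile_cons, id_eq, if_true, List.length_cons, ih]
      rw [pow_succ]
      field_simp

theorem bval_lt (l : List Bool) : bval l < 2 ^ l.length := by
  induction l with
  | nil => simp [bval]
  | cons b l ih =>
    simp only [bval, List.length_cons, pow_succ]
    have : b.toNat ≤ 1 := Bool.toNat_le b
    omega

/-- the output string multiplied by `u / 2 ^ K`, where `u < 2 ^ l` -/
def rescale (K u l : ℕ) (o : List Bool) : List Bool :=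
  List.replicate (K + (o.takeWhile id).length) true ++
    false :: bitsN ((afterTrue o).length + l) (bval (afterTrue o) * u)

theorem outVal_rescale {K u l : ℕ} (hu : u < 2 ^ l) (o : List Bool) :
    outVal (rescale K u l o) = outVal o * u / 2 ^ K := by
  unfold rescale
  rw [outVal_replicate, afterTrue_outVal o]
  have h : bval (afterTrue o) * u < 2 ^ ((afterTrue o).length + l) := by
    rw [pow_add]
    exact Nat.mul_lt_mul'' (bval_lt _) hu
  simp only [outVal, binVal_eq_bval, bval_bitsN _ _ h]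
  push_cast
  rw [pow_add]
  field_simp

theorem Good.transfer3 {G G' : BGraph} {t : ℕ} {K u l : ℕ} {o : List Bool} (ht : 1 ≤ t)
    (hu : u < 2 ^ l) (h : Good G' (2 * t) o)
    (h5 : |(numIndep G'.graph : ℚ) * u / 2 ^ K - numIndep G.graph| ≤
      numIndep G.graph / (2 * t + 1)) :
    Good G t (rescale K u l o) := by
  unfold Good at *
  rw [outVal_rescale hu]
  have htq : (1 : ℚ) ≤ t := by exact_mod_cast ht
  set x : ℚ := (numIndep G.graph : ℚ) with hx
  set y : ℚ := (numIndep G'.graph : ℚ) * u / 2 ^ K with hy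
  have hx0 : 0 ≤ x := by rw [hx]; positivity
  have hK : (0 : ℚ) < 2 ^ K := by positivity
  have h3 : |outVal o * u / 2 ^ K - y| ≤ y / (2 * t) := by
    have e : outVal o * u / 2 ^ K - y = (outVal o - numIndep G'.graph) * (u / 2 ^ K) := by
      rw [hy]; ring
    have hpos : (0 : ℚ) ≤ u / 2 ^ K := by positivity
    rw [e, abs_mul, abs_of_nonneg hpos, hy]
    calc |outVal o - (numIndep G'.graph : ℚ)| * (u / 2 ^ K)
        ≤ ((numIndep G'.graph : ℚ) / ((2 * t : ℕ) : ℚ)) * (u / 2 ^ K) :=
          mul_le_mul_of_nonneg_right h hpos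
      _ = (numIndep G'.graph : ℚ) * u / 2 ^ K / (2 * t) := by
          push_cast
          ring
  have h4 : |outVal o * u / 2 ^ K - x| ≤ |outVal o * u / 2 ^ K - y| + |y - x| := abs_sub_le _ _ _
  have h2 : y ≤ x + x / (2 * t + 1) := by
    have := (abs_le.1 h5).2
    linarith
  have h6 : y / (2 * t) ≤ (x + x / (2 * t + 1)) / (2 * t) :=
    div_le_div_of_nonneg_right h2 (by linarith)
  have h7 : (x + x / (2 * t + 1)) / (2 * t) + x / (2 * t + 1) = x / t := by
    field_simp
    ring
  linarith

/-- **Transfer with a factor.** -/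
theorem HasFPRAS.transfer3 {C C' : BGraph → Prop} (red : BGraph → ℕ → BGraph)
    (K u l : BGraph → ℕ → ℕ)
    (hred : PolyC (fun x : BGraph × ℕ => C x.1 ∧ 1 ≤ x.2) [fun x => inCode x.1 x.2]
      (fun x => inCode (red x.1 x.2) (2 * x.2)))
    (hK : PolyN (fun x : BGraph × ℕ => C x.1 ∧ 1 ≤ x.2) [fun x => inCode x.1 x.2]
      (fun x => K x.1 x.2))
    (hl : PolyN (fun x : BGraph × ℕ => C x.1 ∧ 1 ≤ x.2) [fun x => inCode x.1 x.2]
      (fun x => l x.1 x.2))
    (hu : PolyBin (fun x : BGraph × ℕ => C x.1 ∧ 1 ≤ x.2) [fun x => inCode x.1 x.2]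
      (fun x => u x.1 x.2))
    (hul : ∀ G t, C G → 1 ≤ t → u G t < 2 ^ l G t)
    (hC : ∀ G t, C G → 1 ≤ t → C' (red G t))
    (h12 : ∀ G t, C G → 1 ≤ t → |(numIndep (red G t).graph : ℚ) * u G t / 2 ^ K G t -
      numIndep G.graph| ≤ numIndep G.graph / (2 * t + 1))
    (h : HasFPRAS C') : HasFPRAS C := by
  obtain ⟨m', f', hf', hgood⟩ := h
  obtain ⟨pr, hpr⟩ := hred.length_le
  let M' : BGraph → ℕ → ℕ := fun G t => m'.eval (inCode (red G t) (2 * t)).length
  let m : Polynomial ℕ := m'.comp pr
  have hM : ∀ G t, C G → 1 ≤ t → M' G t ≤ m.eval (inCode G t).length := by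
    intro G t hG ht
    have h3 := hpr (G, t) ⟨hG, ht⟩
    simp only [vals_cons, vals_nil, total_cons, total_nil, Nat.add_zero] at h3
    simp only [M', m, Polynomial.eval_comp]
    exact eval_mono _ h3
  let f : BGraph → ℕ → List Bool → List Bool := fun G t r =>
    rescale (K G t) (u G t) (l G t) (f' (red G t) (2 * t) (r.take (M' G t)))
  refine ⟨m, f, ?_, ?_⟩
  · -- the machine
    let D : BGraph × ℕ × List Bool → Prop := fun x =>
      C x.1 ∧ 1 ≤ x.2.1 ∧ x.2.2.length = m.eval (inCode x.1 x.2.1).length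
    let enc : BGraph × ℕ × List Bool → List Bool := fun x => inCode x.1 x.2.1 ++ x.2.2
    have hw : PolyC D [enc] enc := PolyC.var (by simp)
    have hlen : PolyN D [enc] (fun x => (inCode x.1 x.2.1).length) :=
      (((poly_tOf hw).add ((poly_aOf hw).add ((poly_bOf hw).add
        ((poly_aOf hw).mul (poly_bOf hw))))).add (PolyN.const 3)).congr (fun x _ =>
          lenOf_append x.1 x.2.1 x.2.2)
    have hpre : PolyC D [enc] (fun x => inCode x.1 x.2.1) :=
      (PolyC.take hw hlen).congr (fun x _ => List.take_left)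
    have hsuf : PolyC D [enc] (fun x => x.2.2) :=
      (PolyC.drop hw hlen).congr (fun x _ => List.drop_left)
    have hsub : ∀ {t : BGraph × ℕ → List Bool},
        PolyC (fun x : BGraph × ℕ => C x.1 ∧ 1 ≤ x.2) [fun x => inCode x.1 x.2] t →
        PolyC D [enc] (fun x => t (x.1, x.2.1)) := by
      intro t ht
      have h3 := ht.reindex (β := BGraph × ℕ × List Bool) (D' := D) (fun x => (x.1, x.2.1))
        (fun x hx => ⟨hx.1, hx.2.1⟩)
      refine h3.comp ?_
      intro g hg
      simp only [List.map_cons, List.map_nil, List.mem_singleton] at hg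
      subst hg
      exact hpre
    have hred' : PolyC D [enc] (fun x => inCode (red x.1 x.2.1) (2 * x.2.1)) := hsub hred
    have hK' : PolyN D [enc] (fun x => K x.1 x.2.1) := hsub hK
    have hl' : PolyN D [enc] (fun x => l x.1 x.2.1) := hsub hl
    have hu' : PolyBin D [enc] (fun x => u x.1 x.2.1) := by
      obtain ⟨s, h3, h4⟩ := hu
      exact ⟨fun x => s (x.1, x.2.1), hsub h3, fun x hx => h4 (x.1, x.2.1) ⟨hx.1, hx.2.1⟩⟩
    have hM' : PolyN D [enc] (fun x => M' x.1 x.2.1) :=
      PolyN.polyEval (PolyN.length hred') m'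
    have hin : PolyC D [enc] (fun x => inCode (red x.1 x.2.1) (2 * x.2.1) ++
        x.2.2.take (M' x.1 x.2.1)) := hred'.append (PolyC.take hsuf hM')
    have hcall : PolyC D [enc] (fun x => f' (red x.1 x.2.1) (2 * x.2.1)
        (x.2.2.take (M' x.1 x.2.1))) := by
      refine PolyC.applyTM2 hf' _ _ hin ?_
      rintro ⟨G, t, r⟩ ⟨hG, ht, hr⟩
      refine ⟨⟨(red G t, 2 * t, r.take (M' G t)), hC G t hG ht, ?_, ?_⟩, rfl, rfl⟩
      · have ht' : 1 ≤ t := ht
        show 1 ≤ 2 * t
        omega
      · show (r.take (M' G t)).length = M' G t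
        have hr' : r.length = m.eval (inCode G t).length := hr
        rw [List.length_take, hr', min_eq_left (hM G t hG ht)]
    have haft := PolyC.afterTrue hcall
    have hprod : PolyBin D [enc] (fun x => bval (afterTrue (f' (red x.1 x.2.1) (2 * x.2.1)
        (x.2.2.take (M' x.1 x.2.1)))) * u x.1 x.2.1) :=
      PolyBin.mul ⟨_, haft, fun _ _ => rfl⟩ hu'
    have hcan := PolyBin.canon ((PolyN.length haft).add hl') hprod
    have hones : PolyN D [enc] (fun x => K x.1 x.2.1 + ((f' (red x.1 x.2.1) (2 * x.2.1)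
        (x.2.2.take (M' x.1 x.2.1))).takeWhile id).length) :=
      hK'.add (PolyN.length (PolyC.takeTrue hcall))
    have hout : PolyC D [enc] (fun x => f x.1 x.2.1 x.2.2) :=
      PolyC.append hones (PolyC.cons false hcan)
    exact PolyC.toTM2 enc (fun x => f x.1 x.2.1 x.2.2) id hout
  · intro G t hG ht
    obtain ⟨j, hj⟩ := Nat.exists_eq_add_of_le (hM G t hG ht)
    rw [hj]
    have h3 := hgood (red G t) (2 * t) (hC G t hG ht) (by omega)
    have h4 : Nat.card {r : Fin (M' G t + j) → Bool //
        Good (red G t) (2 * t) (f' (red G t) (2 * t) ((List.ofFn r).take (M' G t)))} ≤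
        Nat.card {r : Fin (M' G t + j) → Bool // Good G t (f G t (List.ofFn r))} := by
      refine Nat.card_le_card_of_injective (fun r => ⟨r.1, ?_⟩) ?_
      · exact Good.transfer3 ht (hul G t hG ht) r.2 (h12 G t hG ht)
      · intro r r' hrr
        simp only [Subtype.mk.injEq] at hrr
        exact Subtype.ext hrr
    rw [card_prefix (M' G t) j (fun s => Good (red G t) (2 * t) (f' (red G t) (2 * t) s))] at h4
    have h5 : 3 * 2 ^ M' G t ≤ 4 * Nat.card {r : Fin (M' G t) → Bool //
        Good (red G t) (2 * t) (f' (red G t) (2 * t) (List.ofFn r))} := h3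
    calc 3 * 2 ^ (M' G t + j) = (3 * 2 ^ M' G t) * 2 ^ j := by rw [pow_add]; ring
      _ ≤ (4 * Nat.card {r : Fin (M' G t) → Bool //
        Good (red G t) (2 * t) (f' (red G t) (2 * t) (List.ofFn r))}) * 2 ^ j :=
          Nat.mul_le_mul_right _ h5
      _ = 4 * (Nat.card {r : Fin (M' G t) → Bool //
        Good (red G t) (2 * t) (f' (red G t) (2 * t) (List.ofFn r))} * 2 ^ j) := by ring
      _ ≤ _ := Nat.mul_le_mul_left _ h4

end Pool.Agent.Lib.Pa7c826y
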