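import Pool.Agent.Lib.Pa7c826x.Defs

/-!
Almost regular bipartite expanders.
-/

namespace Pool.Agent.Lib.Pa7c826y

open Pool.Agent.Lib.Pa7c826
open Pool.Agent.Lib.Pa7c826x

/-- Balanced bipartite `α`-expanders, with `N` vertices on each side, whose degrees all lie
between `δ` and `(1 + γ) δ` for some `δ ≥ D N`. -/
def AlmostRegularExpander (α γ : ℝ) (D : ℕ → ℝ) (G : BGraph) : Prop :=
  G.a = G.b ∧ IsExpander α G ∧ ∃ δ : ℕ, D G.a ≤ δ ∧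
    (∀ i, δ ≤ G.rowDeg i ∧ (G.rowDeg i : ℝ) ≤ (1 + γ) * δ) ∧
    ∀ j, δ ≤ G.colDeg j ∧ (G.colDeg j : ℝ) ≤ (1 + γ) * δ

end Pool.Agent.Lib.Pa7c826y
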