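import Pool.Agent.Lib.Pa7c826.NearHalf

/-!
The block structure of the hard instances: counting and expansion.
-/

namespace Pool.Agent.Lib.Pa7c826y

open Pool.Agent.Lib.Pa7c826

/-! ### Disjoint unions and matchings -/

/-- disjoint union of bipartite graphs -/
def dun {α α' β β' : Type*} (E : α → β → Prop) (E' : α' → β' → Prop) : α ⊕ α' → β ⊕ β' → Prop
  | .inl a, .inl b => E a b
  | .inr a, .inr b => E' a b
  | _, _ => False

theorem cnt_dun {α α' β β' : Type*} (E : α → β → Prop) (E' : α' → β' → Prop) :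
    cnt (dun E E') = cnt E * cnt E' := by
  have e : {P : Set (α ⊕ α') × Set (β ⊕ β') // ∀ a ∈ P.1, ∀ b ∈ P.2, ¬ dun E E' a b} ≃
      {P : Set α × Set β // ∀ a ∈ P.1, ∀ b ∈ P.2, ¬ E a b} ×
      {P : Set α' × Set β' // ∀ a ∈ P.1, ∀ b ∈ P.2, ¬ E' a b} :=
    { toFun := fun P => (⟨(Sum.inl ⁻¹' P.1.1, Sum.inl ⁻¹' P.1.2), fun a ha b hb =>
          P.2 (Sum.inl a) ha (Sum.inl b) hb⟩, ⟨(Sum.inr ⁻¹' P.1.1, Sum.inr ⁻¹' P.1.2),
          fun a ha b hb => P.2 (Sum.inr a) ha (Sum.inr b) hb⟩)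
      invFun := fun Q => ⟨(Sum.inl '' Q.1.1.1 ∪ Sum.inr '' Q.2.1.1,
          Sum.inl '' Q.1.1.2 ∪ Sum.inr '' Q.2.1.2), by
            rintro (a | a) ha (b | b) hb
            · exact Q.1.2 a (by simpa using ha) b (by simpa using hb)
            · exact fun h => h
            · exact fun h => h
            · exact Q.2.2 a (by simpa using ha) b (by simpa using hb)⟩
      left_inv := by
        rintro ⟨⟨P, Q⟩, h⟩
        simp only [Subtype.mk.injEq, Prod.mk.injEq]
        constructor <;> ext (x | x) <;> simp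
      right_inv := by
        rintro ⟨⟨⟨P, Q⟩, h⟩, ⟨⟨P', Q'⟩, h'⟩⟩
        simp only [Prod.mk.injEq, Subtype.mk.injEq]
        refine ⟨⟨?_, ?_⟩, ?_, ?_⟩ <;> ext x <;> simp }
  unfold cnt
  rw [Nat.card_congr e, Nat.card_prod]

theorem cnt_diag (ι : Type*) [Finite ι] : cnt (fun i j : ι => i = j) = 3 ^ Nat.card ι := by
  classical
  have e : {P : Set ι × Set ι // ∀ a ∈ P.1, ∀ b ∈ P.2, ¬ a = b} ≃
      (ι → {x : Prop × Prop // ¬ (x.1 ∧ x.2)}) :=
    { toFun := fun P i => ⟨(i ∈ P.1.1, i ∈ P.1.2), fun h => P.2 i h.1 i h.2 rfl⟩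
      invFun := fun f => ⟨({i | (f i).1.1}, {i | (f i).1.2}), by
        rintro a ha b hb rfl
        exact (f a).2 ⟨ha, hb⟩⟩
      left_inv := by
        rintro ⟨⟨P, Q⟩, h⟩
        rfl
      right_inv := by
        intro f
        rfl }
  unfold cnt
  rw [Nat.card_congr e]
  have := Fintype.ofFinite ι
  rw [Nat.card_fun]
  congr 1
  have e3 : {x : Prop × Prop // ¬ (x.1 ∧ x.2)} ≃ {x : Bool × Bool // ¬ (x.1 = true ∧ x.2 = true)} :=
    { toFun := fun x => ⟨(decide x.1.1, decide x.1.2), by simpa using x.2⟩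
      invFun := fun x => ⟨(x.1.1 = true, x.1.2 = true), x.2⟩
      left_inv := by
        rintro ⟨⟨p, q⟩, h⟩
        simp
      right_inv := by
        rintro ⟨⟨p, q⟩, h⟩
        simp }
  rw [Nat.card_congr e3, Nat.card_eq_fintype_card]
  rfl

/-! ### The core -/

/-- Add `φ` on both sides: a perfect matching between the two copies, each copy joined to
everything on the other side. -/
def core {ξ υ : Type*} (φ : Type*) (E : ξ → υ → Prop) : φ ⊕ ξ → φ ⊕ υ → Prop
  | .inl i, .inl j => i = j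
  | .inl _, .inr _ => True
  | .inr _, .inl _ => True
  | .inr x, .inr y => E x y

section

variable {φ ξ υ : Type*}

theorem core_swap (E : ξ → υ → Prop) (x : φ ⊕ ξ) (y : φ ⊕ υ) :
    core φ E x y ↔ core φ (fun y x => E x y) y x := by
  rcases x with x | x <;> rcases y with y | y <;> simp [core, eq_comm]

/-- the independent pairs -/
def ind {α β : Type*} (E : α → β → Prop) : Set (Set α × Set β) :=
  {P | ∀ a ∈ P.1, ∀ b ∈ P.2, ¬ E a b}

theorem cnt_eq_ncard {α β : Type*} (E : α → β → Prop) : cnt E = (ind E).ncard := by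
  unfold cnt ind
  exact Nat.card_coe_set_eq _

/-- embedding of pairs -/
def incl (P : Set ξ × Set υ) : Set (φ ⊕ ξ) × Set (φ ⊕ υ) := (Sum.inr '' P.1, Sum.inr '' P.2)

theorem incl_injective : Function.Injective (incl : Set ξ × Set υ → Set (φ ⊕ ξ) × Set (φ ⊕ υ)) := by
  rintro ⟨P, Q⟩ ⟨P', Q'⟩ h
  simp only [incl, Prod.mk.injEq] at h
  rw [Prod.mk.injEq]
  exact ⟨Set.image_injective.2 Sum.inr_injective h.1, Set.image_injective.2 Sum.inr_injective h.2⟩

theorem cnt_core_lower [Finite φ] [Finite ξ] [Finite υ] (E : ξ → υ → Prop) :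
    cnt E ≤ cnt (core φ E) := by
  rw [cnt_eq_ncard, cnt_eq_ncard, ← Set.ncard_image_of_injective _ (incl_injective (φ := φ))]
  refine Set.ncard_le_ncard ?_ (Set.toFinite _)
  rintro _ ⟨⟨P, Q⟩, h, rfl⟩
  rintro _ ⟨x, hx, rfl⟩ _ ⟨y, hy, rfl⟩
  exact h x hx y hy

theorem cnt_core_upper [Finite φ] [Finite ξ] [Finite υ] (E : ξ → υ → Prop) :
    cnt (core φ E) ≤ cnt E + 2 ^ Nat.card (φ ⊕ ξ) + 2 ^ Nat.card (φ ⊕ υ) +
      2 ^ (Nat.card φ + Nat.card φ) := by
  classical
  rw [cnt_eq_ncard, cnt_eq_ncard]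
  let A : Set (Set (φ ⊕ ξ) × Set (φ ⊕ υ)) := incl '' ind E
  let B : Set (Set (φ ⊕ ξ) × Set (φ ⊕ υ)) := Set.range fun P => (P, ∅)
  let C : Set (Set (φ ⊕ ξ) × Set (φ ⊕ υ)) := Set.range fun Q => (∅, Q)
  let F : Set (Set (φ ⊕ ξ) × Set (φ ⊕ υ)) :=
    Set.range fun P : Set φ × Set φ => (Sum.inl '' P.1, Sum.inl '' P.2)
  have hsub : ind (core φ E) ⊆ A ∪ B ∪ C ∪ F := by
    rintro ⟨P, Q⟩ h
    by_cases hP : P = ∅
    · left; right
      exact ⟨Q, by rw [hP]⟩
    by_cases hQ : Q = ∅
    · left; left; right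
      exact ⟨P, by rw [hQ]⟩
    by_cases h1 : ∃ i, Sum.inl i ∈ P
    · right
      obtain ⟨i, hi⟩ := h1
      have h2 : ∀ y, Sum.inr y ∉ Q := fun y hy => h _ hi _ hy trivial
      have h3 : ∃ j, Sum.inl j ∈ Q := by
        obtain ⟨z, hz⟩ := Set.nonempty_iff_ne_empty.2 hQ
        rcases z with j | y
        · exact ⟨j, hz⟩
        · exact absurd hz (h2 y)
      obtain ⟨j, hj⟩ := h3
      have h4 : ∀ x, Sum.inr x ∉ P := fun x hx => h _ hx _ hj trivial
      refine ⟨(Sum.inl ⁻¹' P, Sum.inl ⁻¹' Q), ?_⟩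
      rw [Prod.mk.injEq]
      constructor
      · ext (x | x)
        · simp
        · simp [h4]
      · ext (x | x)
        · simp
        · simp [h2]
    · push Not at h1
      by_cases h2 : ∃ j, Sum.inl j ∈ Q
      · obtain ⟨j, hj⟩ := h2
        exfalso
        obtain ⟨z, hz⟩ := Set.nonempty_iff_ne_empty.2 hP
        rcases z with i | x
        · exact h1 i hz
        · exact h _ hz _ hj trivial
      · push Not at h2
        left; left; left
        refine ⟨(Sum.inr ⁻¹' P, Sum.inr ⁻¹' Q), ?_, ?_⟩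
        · intro x hx y hy
          exact h _ hx _ hy
        · unfold incl
          rw [Prod.mk.injEq]
          constructor
          · ext (x | x)
            · simp [h1]
            · simp
          · ext (x | x)
            · simp [h2]
            · simp
  have hB : B.ncard ≤ 2 ^ Nat.card (φ ⊕ ξ) := by
    show (Set.range _).ncard ≤ _
    rw [← Set.image_univ]
    refine (Set.ncard_image_le (Set.toFinite _)).trans ?_
    rw [Set.ncard_univ]
    exact (card_set' _).le
  have hC : C.ncard ≤ 2 ^ Nat.card (φ ⊕ υ) := by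
    show (Set.range _).ncard ≤ _
    rw [← Set.image_univ]
    refine (Set.ncard_image_le (Set.toFinite _)).trans ?_
    rw [Set.ncard_univ]
    exact (card_set' _).le
  have hF : F.ncard ≤ 2 ^ (Nat.card φ + Nat.card φ) := by
    show (Set.range _).ncard ≤ _
    rw [← Set.image_univ]
    refine (Set.ncard_image_le (Set.toFinite _)).trans ?_
    rw [Set.ncard_univ, Nat.card_prod, card_set', pow_add]
  have hA : A.ncard = (ind E).ncard := Set.ncard_image_of_injective _ incl_injective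
  calc (ind (core φ E)).ncard ≤ (A ∪ B ∪ C ∪ F).ncard := Set.ncard_le_ncard hsub (Set.toFinite _)
    _ ≤ A.ncard + B.ncard + C.ncard + F.ncard := by
        refine (Set.ncard_union_le _ _).trans (Nat.add_le_add_right ?_ _)
        refine (Set.ncard_union_le _ _).trans (Nat.add_le_add_right ?_ _)
        exact Set.ncard_union_le _ _
    _ ≤ _ := by rw [hA]; omega

/-! ### Expansion -/

/-- the abstract relation: core, matching, rest -/
abbrev rel3 (φ μ ω : Type*) (E : ω → ω → Prop) : φ ⊕ (μ ⊕ ω) → φ ⊕ (μ ⊕ ω) → Prop :=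
  core φ (dun (fun i j : μ => i = j) E)

variable {μ ω : Type*}

theorem rel3_swap (E : ω → ω → Prop) (x y : φ ⊕ (μ ⊕ ω)) :
    rel3 φ μ ω E x y ↔ rel3 φ μ ω (fun y x => E x y) y x := by
  rcases x with x | x | x <;> rcases y with y | y | y <;> simp [rel3, core, dun, eq_comm]

theorem rel3_expand [Finite φ] [Finite μ] [Finite ω] (E : ω → ω → Prop)
    (S : Set (φ ⊕ (μ ⊕ ω))) (hS : S.Nonempty) :
    (Nat.card φ + Nat.card μ + Nat.card ω ≤ {y | ∃ x ∈ S, rel3 φ μ ω E x y}.ncard) ∨
    (S.ncard ≤ Nat.card φ ∧ Nat.card μ + Nat.card ω + S.ncard ≤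
      {y | ∃ x ∈ S, rel3 φ μ ω E x y}.ncard) ∨
    (Nat.card φ + S.ncard ≤ {y | ∃ x ∈ S, rel3 φ μ ω E x y}.ncard + Nat.card ω ∧
      Nat.card φ ≤ {y | ∃ x ∈ S, rel3 φ μ ω E x y}.ncard) := by
  classical
  set N := {y | ∃ x ∈ S, rel3 φ μ ω E x y} with hN
  by_cases h1 : ∃ i, Sum.inl i ∈ S
  · obtain ⟨i, hi⟩ := h1
    have hr : Set.range (Sum.inr : μ ⊕ ω → φ ⊕ (μ ⊕ ω)) ⊆ N := by
      rintro _ ⟨y, rfl⟩
      exact ⟨_, hi, trivial⟩
    by_cases h2 : ∃ x, Sum.inr x ∈ S
    · left
      obtain ⟨x, hx⟩ := h2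
      have hu : N = Set.univ := by
        refine Set.eq_univ_of_forall ?_
        rintro (y | y)
        · exact ⟨_, hx, trivial⟩
        · exact hr ⟨y, rfl⟩
      rw [hu, Set.ncard_univ, Nat.card_sum, Nat.card_sum]
      omega
    · right; left
      push Not at h2
      have hS' : S = Sum.inl '' (Sum.inl ⁻¹' S) := by
        ext (x | x)
        · simp
        · simp [h2]
      have hc : S.ncard = (Sum.inl ⁻¹' S : Set φ).ncard := by
        conv_lhs => rw [hS']
        exact Set.ncard_image_of_injective _ Sum.inl_injective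
      constructor
      · rw [hc, ← Set.ncard_univ]
        exact Set.ncard_le_ncard (Set.subset_univ _) (Set.toFinite _)
      · have h3 : Set.range (Sum.inr : μ ⊕ ω → φ ⊕ (μ ⊕ ω)) ∪ Sum.inl '' (Sum.inl ⁻¹' S) ⊆ N := by
          refine Set.union_subset hr ?_
          rintro _ ⟨j, hj, rfl⟩
          exact ⟨_, hj, rfl⟩
        have h4 := Set.ncard_le_ncard h3 (Set.toFinite _)
        rw [Set.ncard_union_eq (by
          rw [Set.disjoint_left]
          rintro _ ⟨y, rfl⟩ ⟨j, _, h⟩
          simp at h), Set.ncard_range_of_injective Sum.inr_injective,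
          Set.ncard_image_of_injective _ Sum.inl_injective, Nat.card_sum, ← hc] at h4
        omega
  · right; right
    push Not at h1
    have h2 : ∃ x, Sum.inr x ∈ S := by
      obtain ⟨z, hz⟩ := hS
      rcases z with i | x
      · exact absurd hz (h1 i)
      · exact ⟨x, hz⟩
    obtain ⟨x, hx⟩ := h2
    have hl : Set.range (Sum.inl : φ → φ ⊕ (μ ⊕ ω)) ⊆ N := by
      rintro _ ⟨y, rfl⟩
      exact ⟨_, hx, trivial⟩
    have hl' : Nat.card φ ≤ N.ncard := by
      have := Set.ncard_le_ncard hl (Set.toFinite _)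
      rwa [Set.ncard_range_of_injective Sum.inl_injective] at this
    refine ⟨?_, hl'⟩
    -- the matched part
    set M : Set μ := {i | Sum.inr (Sum.inl i) ∈ S} with hM
    set W : Set ω := {i | Sum.inr (Sum.inr i) ∈ S} with hW
    have hS' : S = (fun i => Sum.inr (Sum.inl i)) '' M ∪ (fun i => Sum.inr (Sum.inr i)) '' W := by
      ext (x | x | x)
      · simp [h1]
      · simp [hM]
      · simp [hW]
    have i1 : Function.Injective (fun i : μ => (Sum.inr (Sum.inl i) : φ ⊕ (μ ⊕ ω))) :=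
      Sum.inr_injective.comp Sum.inl_injective
    have i2 : Function.Injective (fun i : ω => (Sum.inr (Sum.inr i) : φ ⊕ (μ ⊕ ω))) :=
      Sum.inr_injective.comp Sum.inr_injective
    have hc : S.ncard ≤ M.ncard + Nat.card ω := by
      conv_lhs => rw [hS']
      refine (Set.ncard_union_le _ _).trans ?_
      rw [Set.ncard_image_of_injective _ i1, Set.ncard_image_of_injective _ i2]
      refine Nat.add_le_add_left ?_ _
      rw [← Set.ncard_univ]
      exact Set.ncard_le_ncard (Set.subset_univ _) (Set.toFinite _)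
    have h3 : Set.range (Sum.inl : φ → φ ⊕ (μ ⊕ ω)) ∪ (fun i => Sum.inr (Sum.inl i)) '' M ⊆ N := by
      refine Set.union_subset hl ?_
      rintro _ ⟨j, hj, rfl⟩
      exact ⟨_, hj, rfl⟩
    have h4 := Set.ncard_le_ncard h3 (Set.toFinite _)
    rw [Set.ncard_union_eq (by
      rw [Set.disjoint_left]
      rintro _ ⟨y, rfl⟩ ⟨j, _, h⟩
      simp at h), Set.ncard_range_of_injective Sum.inl_injective,
      Set.ncard_image_of_injective _ i1] at h4
    omega

/-! ### Degrees -/

theorem rel3_degree [Finite φ] [Finite μ] [Finite ω] (E : ω → ω → Prop) (b : ℕ)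
    (hE : ∀ x, {y | E x y}.ncard ≤ b) (x : φ ⊕ (μ ⊕ ω)) :
    {y | rel3 φ μ ω E x y}.ncard = Nat.card μ + Nat.card ω + 1 ∨
    (Nat.card φ ≤ {y | rel3 φ μ ω E x y}.ncard ∧
      {y | rel3 φ μ ω E x y}.ncard ≤ Nat.card φ + 1) ∨
    (Nat.card φ ≤ {y | rel3 φ μ ω E x y}.ncard ∧
      {y | rel3 φ μ ω E x y}.ncard ≤ Nat.card φ + b) := by
  classical
  rcases x with x | x | x
  · left
    have h : {y | rel3 φ μ ω E (.inl x) y} = {Sum.inl x} ∪ Set.range Sum.inr := by
      ext (y | y)
      · simp [rel3, core, eq_comm]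
      · simp [rel3, core]
    rw [h, Set.ncard_union_eq (by
      rw [Set.disjoint_left]
      rintro _ rfl ⟨j, h⟩
      simp at h), Set.ncard_singleton, Set.ncard_range_of_injective Sum.inr_injective,
      Nat.card_sum]
    omega
  · right; left
    have h : {y | rel3 φ μ ω E (.inr (.inl x)) y} =
        Set.range Sum.inl ∪ {Sum.inr (Sum.inl x)} := by
      ext (y | y | y)
      · simp [rel3, core]
      · simp [rel3, core, dun, eq_comm]
      · simp [rel3, core, dun]
    rw [h, Set.ncard_union_eq (by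
      rw [Set.disjoint_left]
      rintro _ ⟨y, rfl⟩ h
      simp at h), Set.ncard_singleton, Set.ncard_range_of_injective Sum.inl_injective]
    omega
  · right; right
    have i2 : Function.Injective (fun i : ω => (Sum.inr (Sum.inr i) : φ ⊕ (μ ⊕ ω))) :=
      Sum.inr_injective.comp Sum.inr_injective
    have h : {y | rel3 φ μ ω E (.inr (.inr x)) y} =
        Set.range Sum.inl ∪ (fun i => Sum.inr (Sum.inr i)) '' {y | E x y} := by
      ext (y | y | y)
      · simp [rel3, core]
      · simp [rel3, core, dun]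
      · simp [rel3, core, dun]
    rw [h, Set.ncard_union_eq (by
      rw [Set.disjoint_left]
      rintro _ ⟨y, rfl⟩ ⟨j, _, h⟩
      simp at h), Set.ncard_range_of_injective Sum.inl_injective,
      Set.ncard_image_of_injective _ i2]
    have := hE x
    omega

end

end Pool.Agent.Lib.Pa7c826y
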