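import Pool.Agent.Lib.Pa7c826y.Mul
import Pool.Agent.Lib.Pa7c826y.Hard
import Pool.Agent.Lib.Pa7c826y.Defs
import Pool.Agent.Lib.Pa7c826x.Red

/-!
The hard instances at the level of strings.
-/

namespace Pool.Agent.Lib.Pa7c826y

open Pool.Agent.Lib.Pa7c826
open Pool.Agent.Lib.Pa7c826x
open Pool.Agent.Lib.PolyTime

/-! ### Numbering -/

/-- adjacency of the new graph -/
def F3 (f m : ℕ) (F : ℕ → ℕ → Bool) (i j : ℕ) : Bool :=
  (decide (i < f) && decide (f ≤ j)) || ((decide (f ≤ i) && decide (j < f)) ||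
    ((decide (i = j) && decide (i < f + m)) ||
      ((decide (f + m ≤ i) && decide (f + m ≤ j)) && F (i - (f + m)) (j - (f + m)))))

/-- numbering of the vertices of one side -/
def eq3 (f m w : ℕ) : Fin f ⊕ (Fin m ⊕ Fin w) ≃ Fin (f + (m + w)) :=
  (Equiv.sumCongr (Equiv.refl _) finSumFinEquiv).trans finSumFinEquiv

theorem eq3_1 (f m w : ℕ) (v : Fin f) : (eq3 f m w (.inl v) : ℕ) = v := by
  simp [eq3]

theorem eq3_2 (f m w : ℕ) (v : Fin m) : (eq3 f m w (.inr (.inl v)) : ℕ) = f + v := by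
  simp [eq3]

theorem eq3_3 (f m w : ℕ) (v : Fin w) : (eq3 f m w (.inr (.inr v)) : ℕ) = f + (m + v) := by
  simp [eq3]

theorem F3_iff {f m w : ℕ} (F : ℕ → ℕ → Bool) (x y : Fin f ⊕ (Fin m ⊕ Fin w)) :
    rel3 (Fin f) (Fin m) (Fin w) (fun i j => F i j = true) x y ↔
      F3 f m F (eq3 f m w x) (eq3 f m w y) = true := by
  rcases x with x | x | x <;> rcases y with y | y | y <;>
    simp only [eq3_1, eq3_2, eq3_3, F3, rel3, core, dun, Bool.or_eq_true,
      Bool.and_eq_true, decide_eq_true_eq] <;> have hx := x.2 <;> have hy := y.2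
  · constructor
    · rintro rfl
      right; right; left
      exact ⟨rfl, by omega⟩
    · rintro (h | h | h | h)
      · omega
      · omega
      · exact Fin.ext h.1
      · omega
  · simp only [true_iff]; left; omega
  · simp only [true_iff]; left; omega
  · simp only [true_iff]; right; left; omega
  · constructor
    · rintro rfl
      right; right; left
      exact ⟨rfl, by omega⟩
    · rintro (h | h | h | h)
      · omega
      · omega
      · exact Fin.ext (by omega)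
      · omega
  · simp only [false_iff]
    rintro (h | h | h | h) <;> omega
  · simp only [true_iff]; right; left; omega
  · simp only [false_iff]
    rintro (h | h | h | h) <;> omega
  · have e1 : f + (m + (x : ℕ)) - (f + m) = x := by omega
    have e2 : f + (m + (y : ℕ)) - (f + m) = y := by omega
    rw [e1, e2]
    constructor
    · intro h
      right; right; right
      exact ⟨⟨by omega, by omega⟩, h⟩
    · rintro (h | h | h | h)
      · omega
      · omega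
      · omega
      · exact h.2

/-! ### The reduction -/

/-- scale -/
def sc (G : BGraph) (t : ℕ) : ℕ := G.a + G.b + 2 * t + 6

variable (f0 m0 w0 : ℕ)

/-- The new graph. -/
def red3 (G : BGraph) (t : ℕ) : BGraph :=
  mkGraph (f0 * sc G t + (m0 * sc G t + w0 * sc G t))
    (f0 * sc G t + (m0 * sc G t + w0 * sc G t)) (F3 (f0 * sc G t) (m0 * sc G t) G.F)

/-- number of digits -/
def r3 (G : BGraph) (t : ℕ) : ℕ := m0 * sc G t + 2 * t + 4

/-- The factor. -/
def u3 (G : BGraph) (t : ℕ) : ℕ := third (r3 m0 G t) ^ (m0 * sc G t)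

/-- The exponent. -/
def K3 (G : BGraph) (t : ℕ) : ℕ :=
  2 * r3 m0 G t * (m0 * sc G t) + ((w0 * sc G t - G.a) + (w0 * sc G t - G.b))

/-- Bound for the length of the factor. -/
def l3 (G : BGraph) (t : ℕ) : ℕ := 2 * r3 m0 G t * (m0 * sc G t) + 1

/-- the abstract relation -/
abbrev relG (G : BGraph) (t : ℕ) :=
  rel3 (Fin (f0 * sc G t)) (Fin (m0 * sc G t)) (Fin (w0 * sc G t)) (fun i j => G.F i j = true)

theorem numIndep_red3 (G : BGraph) (t : ℕ) :
    numIndep (red3 f0 m0 w0 G t).graph = cnt (relG f0 m0 w0 G t) :=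
  numIndep_mkGraph (eq3 _ _ _) (eq3 _ _ _) (fun x y => F3_iff G.F x y)

theorem cnt_padded (G : BGraph) {w : ℕ} (ha : G.a ≤ w) (hb : G.b ≤ w) :
    cnt (fun (i : Fin w) (j : Fin w) => G.F i j = true) =
      numIndep G.graph * 2 ^ ((w - G.a) + (w - G.b)) := by
  have h1 := cnt_pad (γ := Fin (w - G.a)) (δ := Fin (w - G.b))
    (fun (i : Fin G.a) (j : Fin G.b) => G.F i j = true)
  rw [cnt_graph, Nat.card_fin, Nat.card_fin] at h1
  rw [← h1]
  symm
  have e1 : G.a + (w - G.a) = w := by omega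
  have e2 : G.b + (w - G.b) = w := by omega
  have v1 : ∀ x : Fin G.a, ((finSumFinEquiv.trans (finCongr e1) (Sum.inl x) : Fin w) : ℕ) = x :=
    fun x => by simp
  have v2 : ∀ x : Fin (w - G.a), ((finSumFinEquiv.trans (finCongr e1) (Sum.inr x) : Fin w) : ℕ) =
      G.a + x := fun x => by simp
  have v3 : ∀ x : Fin G.b, ((finSumFinEquiv.trans (finCongr e2) (Sum.inl x) : Fin w) : ℕ) = x :=
    fun x => by simp
  have v4 : ∀ x : Fin (w - G.b), ((finSumFinEquiv.trans (finCongr e2) (Sum.inr x) : Fin w) : ℕ) =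
      G.b + x := fun x => by simp
  refine cnt_congr (finSumFinEquiv.trans (finCongr e1)) (finSumFinEquiv.trans (finCongr e2)) ?_
  have hout : ∀ i j : ℕ, (G.a ≤ i ∨ G.b ≤ j) → G.F i j = false := by
    intro i j h
    unfold BGraph.F
    rw [dif_neg]
    rintro ⟨h1, h2⟩
    omega
  rintro (x | x) (y | y)
  · rw [v1, v3]
    simp only [pad]
  · rw [v1, v4, hout _ _ (Or.inr (Nat.le_add_right _ _))]
    simp [pad]
  · rw [v2, v3, hout _ _ (Or.inl (Nat.le_add_right _ _))]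
    simp [pad]
  · rw [v2, v4, hout _ _ (Or.inl (Nat.le_add_right _ _))]
    simp [pad]

theorem red3_bounds (hw : 1 ≤ w0) (h5 : f0 ≤ m0 + w0) (G : BGraph) (t : ℕ) :
    3 ^ (m0 * sc G t) * 2 ^ ((w0 * sc G t - G.a) + (w0 * sc G t - G.b)) * numIndep G.graph ≤
      numIndep (red3 f0 m0 w0 G t).graph ∧
    numIndep (red3 f0 m0 w0 G t).graph ≤
      3 ^ (m0 * sc G t) * 2 ^ ((w0 * sc G t - G.a) + (w0 * sc G t - G.b)) * numIndep G.graph +
        3 * 2 ^ ((f0 + (m0 + w0)) * sc G t) := by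
  have hwg : sc G t ≤ w0 * sc G t := Nat.le_mul_of_pos_left _ hw
  have ha : G.a ≤ w0 * sc G t := by unfold sc at *; omega
  have hb : G.b ≤ w0 * sc G t := by unfold sc at *; omega
  have h1 : cnt (dun (fun i j : Fin (m0 * sc G t) => i = j)
      (fun (i j : Fin (w0 * sc G t)) => G.F i j = true)) =
      3 ^ (m0 * sc G t) * 2 ^ ((w0 * sc G t - G.a) + (w0 * sc G t - G.b)) * numIndep G.graph := by
    rw [cnt_dun, cnt_diag, Nat.card_fin, cnt_padded G ha hb]
    ring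
  rw [numIndep_red3]
  constructor
  · rw [← h1]
    exact cnt_core_lower _
  · have h2 := cnt_core_upper (φ := Fin (f0 * sc G t)) (dun (fun i j : Fin (m0 * sc G t) => i = j)
      (fun (i j : Fin (w0 * sc G t)) => G.F i j = true))
    rw [h1, Nat.card_sum, Nat.card_sum, Nat.card_fin, Nat.card_fin, Nat.card_fin] at h2
    refine h2.trans ?_
    have e : f0 * sc G t + (m0 * sc G t + w0 * sc G t) = (f0 + (m0 + w0)) * sc G t := by ring
    have h3 : (2 : ℕ) ^ (f0 * sc G t + f0 * sc G t) ≤ 2 ^ ((f0 + (m0 + w0)) * sc G t) := by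
      refine Nat.pow_le_pow_right (by norm_num) ?_
      have := Nat.mul_le_mul_right (sc G t) h5
      rw [← e]
      have e2 : (m0 + w0) * sc G t = m0 * sc G t + w0 * sc G t := by ring
      omega
    rw [e]
    omega

theorem main_large (hw : 1 ≤ w0) (h3 : 2 ^ (f0 + (m0 + w0) + 1) ≤ 3 ^ m0 * 4 ^ w0) (G : BGraph)
    (t : ℕ) :
    2 ^ (2 * t + 6) * 2 ^ ((f0 + (m0 + w0)) * sc G t) ≤
      3 ^ (m0 * sc G t) * 2 ^ ((w0 * sc G t - G.a) + (w0 * sc G t - G.b)) := by
  have hwg : sc G t ≤ w0 * sc G t := Nat.le_mul_of_pos_left _ hw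
  have ha : G.a ≤ w0 * sc G t := by unfold sc at *; omega
  have hb : G.b ≤ w0 * sc G t := by unfold sc at *; omega
  have h4 := Nat.pow_le_pow_left h3 (sc G t)
  rw [← pow_mul, mul_pow, ← pow_mul, ← pow_mul] at h4
  have e1 : (f0 + (m0 + w0) + 1) * sc G t =
      (2 * t + 6) + (f0 + (m0 + w0)) * sc G t + (G.a + G.b) := by
    have : (f0 + (m0 + w0) + 1) * sc G t = (f0 + (m0 + w0)) * sc G t + sc G t := by ring
    rw [this]
    unfold sc
    ring
  have e2 : (4 : ℕ) ^ (w0 * sc G t) =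
      2 ^ ((w0 * sc G t - G.a) + (w0 * sc G t - G.b)) * 2 ^ (G.a + G.b) := by
    rw [← pow_add, show (4 : ℕ) = 2 ^ 2 by norm_num, ← pow_mul]
    congr 1
    omega
  rw [e1, pow_add, pow_add, e2, ← mul_assoc] at h4
  exact Nat.le_of_mul_le_mul_right h4 (by positivity)

theorem red3_close (hw : 1 ≤ w0) (h5 : f0 ≤ m0 + w0)
    (h3 : 2 ^ (f0 + (m0 + w0) + 1) ≤ 3 ^ m0 * 4 ^ w0) (G : BGraph) (t : ℕ) :
    |(numIndep (red3 f0 m0 w0 G t).graph : ℚ) * u3 m0 G t / 2 ^ K3 m0 w0 G t -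
      numIndep G.graph| ≤ numIndep G.graph / (2 * t + 1) := by
  obtain ⟨b1, b2⟩ := red3_bounds f0 m0 w0 hw h5 G t
  have b3 := main_large f0 m0 w0 hw h3 G t
  set R : ℚ := (numIndep (red3 f0 m0 w0 G t).graph : ℚ) with hR
  set X : ℚ := (numIndep G.graph : ℚ) with hX
  set m := m0 * sc G t with hm
  set B : ℚ := 2 ^ ((w0 * sc G t - G.a) + (w0 * sc G t - G.b)) with hB
  set P : ℚ := 2 ^ ((f0 + (m0 + w0)) * sc G t) with hP
  set r := r3 m0 G t with hr
  set A : ℚ := 3 ^ m with hA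
  have hX1 : (1 : ℚ) ≤ X := by
    rw [hX]
    exact_mod_cast one_le_numIndep G
  have hB0 : 0 < B := by positivity
  have hP0 : 0 < P := by positivity
  have hA0 : 0 < A := by positivity
  have c1 : A * B * X ≤ R := by
    have := b1
    rw [hA, hB, hX, hR]
    exact_mod_cast this
  have c2 : R ≤ A * B * X + 3 * P := by
    have := b2
    rw [hA, hB, hX, hR, hP]
    exact_mod_cast this
  have c3 : 2 ^ (2 * t + 6) * P ≤ A * B := by
    have := b3
    rw [hA, hB, hP]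
    exact_mod_cast this
  -- the factor
  set q : ℚ := (1 / 4) ^ r with hq
  have hq0 : 0 < q := by positivity
  have hq1 : q ≤ 1 := pow_le_one₀ (by norm_num) (by norm_num)
  set θ : ℚ := (1 - q) ^ m with hθ
  have hθ1 : θ ≤ 1 := pow_le_one₀ (by linarith) (by linarith)
  have hθ0 : 0 ≤ θ := pow_nonneg (by linarith) _
  have hθ2 : 1 - m * q ≤ θ := by
    have := one_add_mul_le_pow (a := -q) (by linarith) m
    have e : (1 + -q) ^ m = θ := by rw [hθ, sub_eq_add_neg]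
    rw [e] at this
    linarith
  have h4r : (4 : ℚ) ^ r * q = 1 := by
    rw [hq, ← mul_pow]; norm_num
  have hth : 3 * (third r : ℚ) = 4 ^ r * (1 - q) := by
    have : (3 * third r + 1 : ℚ) = 4 ^ r := by exact_mod_cast third_eq r
    rw [mul_sub, h4r]
    linarith
  have hu : A * (u3 m0 G t : ℚ) = (4 ^ r) ^ m * θ := by
    have : ((u3 m0 G t : ℕ) : ℚ) = (third r : ℚ) ^ m := by
      unfold u3; push_cast; rfl
    rw [this, hA, ← mul_pow, hth, mul_pow]
  have hK : (2 : ℚ) ^ K3 m0 w0 G t = (4 ^ r) ^ m * B := by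
    unfold K3
    rw [pow_add, hB]
    congr 1
    have e4 : (2 : ℚ) ^ (2 * r) = 4 ^ r := by rw [pow_mul]; norm_num
    rw [← hr, ← hm, ← e4, ← pow_mul]
  have hval : ∀ Z : ℚ, Z * u3 m0 G t / 2 ^ K3 m0 w0 G t = Z / (A * B) * θ := by
    intro Z
    rw [hK]
    have hpos : (0 : ℚ) < (4 ^ r) ^ m := by positivity
    rw [div_eq_iff (by positivity)]
    have : (u3 m0 G t : ℚ) = (4 ^ r) ^ m * θ / A := by
      rw [← hu]; field_simp
    rw [this]
    field_simp
  rw [hval]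
  have hAB : 0 < A * B := mul_pos hA0 hB0
  have l1 : X ≤ R / (A * B) := by
    rw [le_div_iff₀ hAB]
    linarith
  have l2 : R / (A * B) ≤ X + 3 / 2 ^ (2 * t + 6) := by
    rw [div_le_iff₀ hAB, add_mul]
    have h6 : 3 * P ≤ 3 / 2 ^ (2 * t + 6) * (A * B) := by
      rw [div_mul_eq_mul_div, le_div_iff₀ (by positivity)]
      linarith
    linarith
  have hmq : (m : ℚ) * q ≤ 1 / 2 ^ (2 * t + 6) := by
    have h7 : (m : ℚ) ≤ 4 ^ m := by
      have : m ≤ 4 ^ m := (Nat.lt_pow_self (by norm_num)).le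
      exact_mod_cast this
    have h8 : q = (1 / 4) ^ m * (1 / 4) ^ (2 * t + 4) := by
      rw [hq, ← pow_add]
      congr 1
    have h9 : (4 : ℚ) ^ m * (1 / 4) ^ m = 1 := by rw [← mul_pow]; norm_num
    have h10 : (1 / 4 : ℚ) ^ (2 * t + 4) ≤ 1 / 2 ^ (2 * t + 6) := by
      rw [one_div, inv_pow, ← one_div]
      refine one_div_le_one_div_of_le (by positivity) ?_
      rw [show (4 : ℚ) = 2 ^ 2 by norm_num, ← pow_mul]
      exact pow_le_pow_right₀ (by norm_num) (by omega)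
    calc (m : ℚ) * q = m * (1 / 4) ^ m * (1 / 4) ^ (2 * t + 4) := by rw [h8]; ring
      _ ≤ 4 ^ m * (1 / 4) ^ m * (1 / 4) ^ (2 * t + 4) := by
          refine mul_le_mul_of_nonneg_right (mul_le_mul_of_nonneg_right h7 ?_) ?_ <;> positivity
      _ = (1 / 4) ^ (2 * t + 4) := by rw [h9, one_mul]
      _ ≤ _ := h10
  have hbig : (2 * t + 1 : ℚ) * 4 ≤ 2 ^ (2 * t + 6) := by
    have : (2 * t + 1) * 4 ≤ 2 ^ (2 * t + 6) := by
      have h11 : 2 * t + 1 ≤ 2 ^ (2 * t) := Nat.lt_two_pow_self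
      rw [pow_add]
      have : 4 ≤ 2 ^ 6 := by norm_num
      exact Nat.mul_le_mul h11 this
    exact_mod_cast this
  have ht0 : (0 : ℚ) < 2 * t + 1 := by positivity
  have hsm : 3 / 2 ^ (2 * t + 6) ≤ X / (2 * t + 1) := by
    rw [div_le_div_iff₀ (by positivity) ht0]
    nlinarith
  have hsm2 : (1 : ℚ) / 2 ^ (2 * t + 6) ≤ 1 / (2 * t + 1) := by
    refine one_div_le_one_div_of_le ht0 ?_
    linarith
  rw [abs_le]
  constructor
  · -- lower
    have h12 : X * θ ≤ R / (A * B) * θ := mul_le_mul_of_nonneg_right l1 hθ0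
    have h13 : X * (1 - m * q) ≤ X * θ := mul_le_mul_of_nonneg_left hθ2 (by linarith)
    have h14 : X * (m * q) ≤ X * (1 / (2 * t + 1)) :=
      mul_le_mul_of_nonneg_left (hmq.trans hsm2) (by linarith)
    have e : X * (1 / (2 * t + 1)) = X / (2 * t + 1) := by ring
    rw [e] at h14
    have e2 : X * (1 - m * q) = X - X * (m * q) := by ring
    rw [e2] at h13
    linarith
  · have h15 : R / (A * B) * θ ≤ R / (A * B) := mul_le_of_le_one_right (by linarith) hθ1
    linarith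

theorem u3_lt (G : BGraph) (t : ℕ) : u3 m0 G t < 2 ^ l3 m0 G t := by
  unfold u3 l3
  have h1 : third (r3 m0 G t) ≤ 2 ^ (2 * r3 m0 G t) := by
    have := third_eq (r3 m0 G t)
    rw [pow_mul]
    norm_num
    omega
  calc third (r3 m0 G t) ^ (m0 * sc G t) ≤ (2 ^ (2 * r3 m0 G t)) ^ (m0 * sc G t) :=
        Nat.pow_le_pow_left h1 _
    _ = 2 ^ (2 * r3 m0 G t * (m0 * sc G t)) := by rw [← pow_mul]
    _ < _ := Nat.pow_lt_pow_right (by norm_num) (Nat.lt_succ_self _)

/-! ### Expansion and degrees -/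

theorem red3_a (G : BGraph) (t : ℕ) :
    (red3 f0 m0 w0 G t).a = (f0 + (m0 + w0)) * sc G t := by
  show f0 * sc G t + (m0 * sc G t + w0 * sc G t) = _
  ring

theorem red3_b (G : BGraph) (t : ℕ) :
    (red3 f0 m0 w0 G t).b = (f0 + (m0 + w0)) * sc G t := by
  show f0 * sc G t + (m0 * sc G t + w0 * sc G t) = _
  ring

theorem nbR_red3 (G : BGraph) (t : ℕ) (S : Finset (Fin (red3 f0 m0 w0 G t).a))
    (hS : S.Nonempty) :
    ((f0 + (m0 + w0)) * sc G t ≤ (nbR (red3 f0 m0 w0 G t) S).card) ∨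
    (S.card ≤ f0 * sc G t ∧ (m0 + w0) * sc G t + S.card ≤ (nbR (red3 f0 m0 w0 G t) S).card) ∨
    (f0 * sc G t + S.card ≤ (nbR (red3 f0 m0 w0 G t) S).card + w0 * sc G t) := by
  revert hS S
  show ∀ S : Finset (Fin (f0 * sc G t + (m0 * sc G t + w0 * sc G t))), S.Nonempty →
    ((f0 + (m0 + w0)) * sc G t ≤ (nbR (red3 f0 m0 w0 G t) S).card) ∨
    (S.card ≤ f0 * sc G t ∧ (m0 + w0) * sc G t + S.card ≤ (nbR (red3 f0 m0 w0 G t) S).card) ∨
    (f0 * sc G t + S.card ≤ (nbR (red3 f0 m0 w0 G t) S).card + w0 * sc G t)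
  intro S hS
  have h1 : (nbR (red3 f0 m0 w0 G t) S).card = _ :=
    card_nbR (eq3 (f0 * sc G t) (m0 * sc G t) (w0 * sc G t))
      (eq3 (f0 * sc G t) (m0 * sc G t) (w0 * sc G t)) (fun x y => F3_iff G.F x y) S
  have h2 := rel3_expand (φ := Fin (f0 * sc G t)) (μ := Fin (m0 * sc G t))
    (fun (i j : Fin (w0 * sc G t)) => G.F i j = true)
    (eq3 (f0 * sc G t) (m0 * sc G t) (w0 * sc G t) ⁻¹' (S : Set (Fin _))) (by
      obtain ⟨x, hx⟩ := hS
      exact ⟨(eq3 (f0 * sc G t) (m0 * sc G t) (w0 * sc G t)).symm x, by simpa using hx⟩)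
  rw [← h1] at h2
  rw [ncard_preimage_equiv, Nat.card_fin, Nat.card_fin, Nat.card_fin] at h2
  have e1 : (f0 + (m0 + w0)) * sc G t = f0 * sc G t + m0 * sc G t + w0 * sc G t := by ring
  have e2 : (m0 + w0) * sc G t = m0 * sc G t + w0 * sc G t := by ring
  rw [e1, e2]
  rcases h2 with h2 | h2 | h2
  · exact Or.inl h2
  · exact Or.inr (Or.inl h2)
  · exact Or.inr (Or.inr h2.1)

theorem nbL_red3 (G : BGraph) (t : ℕ) (S : Finset (Fin (red3 f0 m0 w0 G t).b))
    (hS : S.Nonempty) :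
    ((f0 + (m0 + w0)) * sc G t ≤ (nbL (red3 f0 m0 w0 G t) S).card) ∨
    (S.card ≤ f0 * sc G t ∧ (m0 + w0) * sc G t + S.card ≤ (nbL (red3 f0 m0 w0 G t) S).card) ∨
    (f0 * sc G t + S.card ≤ (nbL (red3 f0 m0 w0 G t) S).card + w0 * sc G t) := by
  revert hS S
  show ∀ S : Finset (Fin (f0 * sc G t + (m0 * sc G t + w0 * sc G t))), S.Nonempty →
    ((f0 + (m0 + w0)) * sc G t ≤ (nbL (red3 f0 m0 w0 G t) S).card) ∨
    (S.card ≤ f0 * sc G t ∧ (m0 + w0) * sc G t + S.card ≤ (nbL (red3 f0 m0 w0 G t) S).card) ∨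
    (f0 * sc G t + S.card ≤ (nbL (red3 f0 m0 w0 G t) S).card + w0 * sc G t)
  intro S hS
  have h1 : (nbL (red3 f0 m0 w0 G t) S).card = _ :=
    card_nbL (eq3 (f0 * sc G t) (m0 * sc G t) (w0 * sc G t))
      (eq3 (f0 * sc G t) (m0 * sc G t) (w0 * sc G t)) (fun x y => F3_iff G.F x y) S
  have h2 := rel3_expand (φ := Fin (f0 * sc G t)) (μ := Fin (m0 * sc G t))
    (fun (j i : Fin (w0 * sc G t)) => G.F i j = true)
    (eq3 (f0 * sc G t) (m0 * sc G t) (w0 * sc G t) ⁻¹' (S : Set (Fin _))) (by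
      obtain ⟨x, hx⟩ := hS
      exact ⟨(eq3 (f0 * sc G t) (m0 * sc G t) (w0 * sc G t)).symm x, by simpa using hx⟩)
  simp only [rel3_swap (fun (i j : Fin (w0 * sc G t)) => G.F i j = true)] at h1
  rw [← h1] at h2
  rw [ncard_preimage_equiv, Nat.card_fin, Nat.card_fin, Nat.card_fin] at h2
  have e1 : (f0 + (m0 + w0)) * sc G t = f0 * sc G t + m0 * sc G t + w0 * sc G t := by ring
  have e2 : (m0 + w0) * sc G t = m0 * sc G t + w0 * sc G t := by ring
  rw [e1, e2]
  rcases h2 with h2 | h2 | h2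
  · exact Or.inl h2
  · exact Or.inr (Or.inl h2)
  · exact Or.inr (Or.inr h2.1)

theorem ncard_row_le {w : ℕ} (G : BGraph) (x : Fin w) :
    {y : Fin w | G.F x y = true}.ncard ≤ G.b := by
  have h : (fun y : Fin w => (y : ℕ)) '' {y : Fin w | G.F x y = true} ⊆ Set.Iio G.b := by
    rintro _ ⟨y, hy, rfl⟩
    by_contra h
    simp only [Set.mem_Iio, not_lt] at h
    simp only [Set.mem_ofPred_eq] at hy
    unfold BGraph.F at hy
    rw [dif_neg (fun h2 => by omega)] at hy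
    simp at hy
  have h2 := Set.ncard_le_ncard h (Set.finite_Iio _)
  rw [Set.ncard_image_of_injective _ Fin.val_injective] at h2
  simpa [Set.ncard_eq_toFinset_card'] using h2

theorem ncard_col_le {w : ℕ} (G : BGraph) (y : Fin w) :
    {x : Fin w | G.F x y = true}.ncard ≤ G.a := by
  have h : (fun x : Fin w => (x : ℕ)) '' {x : Fin w | G.F x y = true} ⊆ Set.Iio G.a := by
    rintro _ ⟨x, hx, rfl⟩
    by_contra h
    simp only [Set.mem_Iio, not_lt] at h
    simp only [Set.mem_ofPred_eq] at hx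
    unfold BGraph.F at hx
    rw [dif_neg (fun h2 => by omega)] at hx
    simp at hx
  have h2 := Set.ncard_le_ncard h (Set.finite_Iio _)
  rw [Set.ncard_image_of_injective _ Fin.val_injective] at h2
  simpa [Set.ncard_eq_toFinset_card'] using h2

/-- The degrees. -/
def DegOk (f s m0w0 : ℕ) (d : ℕ) : Prop :=
  d = m0w0 * s + 1 ∨ (f ≤ d ∧ d ≤ f + s)

theorem rowDeg_red3 (G : BGraph) (t : ℕ) (i : Fin (red3 f0 m0 w0 G t).a) :
    DegOk (f0 * sc G t) (sc G t) (m0 + w0) ((red3 f0 m0 w0 G t).rowDeg i) := by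
  revert i
  show ∀ i : Fin (f0 * sc G t + (m0 * sc G t + w0 * sc G t)),
    DegOk (f0 * sc G t) (sc G t) (m0 + w0) ((red3 f0 m0 w0 G t).rowDeg i)
  intro i
  obtain ⟨x, rfl⟩ := (eq3 (f0 * sc G t) (m0 * sc G t) (w0 * sc G t)).surjective i
  have h1 : (red3 f0 m0 w0 G t).rowDeg (eq3 (f0 * sc G t) (m0 * sc G t) (w0 * sc G t) x) = _ :=
    rowDeg_mkGraph (eq3 (f0 * sc G t) (m0 * sc G t) (w0 * sc G t))
      (eq3 (f0 * sc G t) (m0 * sc G t) (w0 * sc G t)) (fun x y => F3_iff G.F x y) x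
  have h2 := rel3_degree (φ := Fin (f0 * sc G t)) (μ := Fin (m0 * sc G t))
    (fun (i j : Fin (w0 * sc G t)) => G.F i j = true) G.b (fun x => ncard_row_le G x) x
  rw [← h1, Nat.card_fin, Nat.card_fin, Nat.card_fin] at h2
  have e2 : (m0 + w0) * sc G t = m0 * sc G t + w0 * sc G t := by ring
  unfold DegOk
  rw [e2]
  have h3 : G.b + 6 ≤ sc G t := by unfold sc; omega
  rcases h2 with h2 | h2 | h2
  · exact Or.inl h2
  · right; omega
  · right; omega

theorem colDeg_red3 (G : BGraph) (t : ℕ) (j : Fin (red3 f0 m0 w0 G t).b) :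
    DegOk (f0 * sc G t) (sc G t) (m0 + w0) ((red3 f0 m0 w0 G t).colDeg j) := by
  revert j
  show ∀ j : Fin (f0 * sc G t + (m0 * sc G t + w0 * sc G t)),
    DegOk (f0 * sc G t) (sc G t) (m0 + w0) ((red3 f0 m0 w0 G t).colDeg j)
  intro j
  obtain ⟨y, rfl⟩ := (eq3 (f0 * sc G t) (m0 * sc G t) (w0 * sc G t)).surjective j
  have h1 : (red3 f0 m0 w0 G t).colDeg (eq3 (f0 * sc G t) (m0 * sc G t) (w0 * sc G t) y) = _ :=
    colDeg_mkGraph (eq3 (f0 * sc G t) (m0 * sc G t) (w0 * sc G t))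
      (eq3 (f0 * sc G t) (m0 * sc G t) (w0 * sc G t)) (fun x y => F3_iff G.F x y) y
  simp only [rel3_swap (fun (i j : Fin (w0 * sc G t)) => G.F i j = true)] at h1
  have h2 := rel3_degree (φ := Fin (f0 * sc G t)) (μ := Fin (m0 * sc G t))
    (fun (j i : Fin (w0 * sc G t)) => G.F i j = true) G.a (fun x => ncard_col_le G x) y
  rw [← h1, Nat.card_fin, Nat.card_fin, Nat.card_fin] at h2
  have e2 : (m0 + w0) * sc G t = m0 * sc G t + w0 * sc G t := by ring
  unfold DegOk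
  rw [e2]
  have h3 : G.a + 6 ≤ sc G t := by unfold sc; omega
  rcases h2 with h2 | h2 | h2
  · exact Or.inl h2
  · right; omega
  · right; omega

/-- What is needed of the parameters. -/
structure Par (α γ : ℝ) (f0 m0 w0 : ℕ) : Prop where
  w1 : 1 ≤ w0
  p1 : α * (f0 + (m0 + w0) : ℕ) + 2 * w0 ≤ 2 * f0
  p2 : (m0 + w0 + 1 : ℝ) ≤ (1 + γ) * f0
  p2' : 1 ≤ γ * f0
  p3 : 2 ^ (f0 + (m0 + w0) + 1) ≤ 3 ^ m0 * 4 ^ w0
  p4 : f0 + (m0 + w0) ≤ 3 * f0
  p5 : f0 ≤ m0 + w0

variable {f0 m0 w0}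

theorem red3_class {α γ : ℝ} (hα0 : 0 < α) (hα1 : α ≤ 1) (hp : Par α γ f0 m0 w0) (G : BGraph)
    (t : ℕ) : AlmostRegularExpander α γ (fun N => (N : ℝ) / 3) (red3 f0 m0 w0 G t) := by
  obtain ⟨w1, p1, p2, p2', p3, p4, p5⟩ := hp
  have ea := red3_a f0 m0 w0 G t
  have eb := red3_b f0 m0 w0 G t
  have hs1 : 1 ≤ sc G t := by unfold sc; omega
  have hs : (1 : ℝ) ≤ sc G t := by exact_mod_cast hs1
  set s := sc G t with hsdef
  have key : ∀ c m : ℕ, 2 * c ≤ (f0 + (m0 + w0)) * s →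
      (((f0 + (m0 + w0)) * s ≤ m) ∨ (c ≤ f0 * s ∧ (m0 + w0) * s + c ≤ m) ∨
      (f0 * s + c ≤ m + w0 * s)) → (1 + α) * c ≤ m := by
    intro c m hc h
    have hc' : (2 : ℝ) * c ≤ (f0 + (m0 + w0)) * s := by exact_mod_cast hc
    have hc0 : (0 : ℝ) ≤ c := Nat.cast_nonneg _
    rcases h with h | ⟨h, h'⟩ | h
    · have h2 : ((f0 + (m0 + w0)) * s : ℝ) ≤ m := by exact_mod_cast h
      nlinarith
    · have h2 : (c : ℝ) ≤ f0 * s := by exact_mod_cast h
      have h3 : ((m0 + w0) * s + c : ℝ) ≤ m := by exact_mod_cast h'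
      have h4 : (f0 : ℝ) ≤ m0 + w0 := by exact_mod_cast p5
      have h5 : (f0 : ℝ) * s ≤ (m0 + w0) * s := mul_le_mul_of_nonneg_right h4 (by linarith)
      nlinarith
    · have h2 : (f0 * s + c : ℝ) ≤ m + w0 * s := by exact_mod_cast h
      push_cast at p1
      have h3 := mul_le_mul_of_nonneg_right p1 (by linarith : (0 : ℝ) ≤ s)
      have h4 : α * (2 * c) ≤ α * ((f0 + (m0 + w0)) * s) := mul_le_mul_of_nonneg_left hc' hα0.le
      nlinarith
  have deg : ∀ d : ℕ, DegOk (f0 * s) s (m0 + w0) d →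
      f0 * s ≤ d ∧ (d : ℝ) ≤ (1 + γ) * (f0 * s : ℕ) := by
    intro d h
    rcases h with h | ⟨h, h'⟩
    · constructor
      · have := Nat.mul_le_mul_right s p5
        omega
      · rw [h]
        push_cast
        have h2 := mul_le_mul_of_nonneg_right p2 (by linarith : (0 : ℝ) ≤ s)
        nlinarith
    · refine ⟨h, ?_⟩
      have h2 : (d : ℝ) ≤ f0 * s + s := by exact_mod_cast h'
      have h3 := mul_le_mul_of_nonneg_right p2' (by linarith : (0 : ℝ) ≤ s)
      push_cast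
      nlinarith
  refine ⟨by rw [ea, eb], ⟨?_, ?_⟩, f0 * s, ?_, ?_, ?_⟩
  · intro S hS
    rcases S.eq_empty_or_nonempty with h | h
    · subst h; simp
    · refine key _ _ (by rw [← ea]; exact hS) (nbR_red3 f0 m0 w0 G t S h)
  · intro S hS
    rcases S.eq_empty_or_nonempty with h | h
    · subst h; simp
    · refine key _ _ (by rw [← eb]; exact hS) (nbL_red3 f0 m0 w0 G t S h)
  · rw [ea]
    have : (f0 + (m0 + w0) : ℝ) ≤ 3 * f0 := by exact_mod_cast p4
    have h2 := mul_le_mul_of_nonneg_right this (by linarith : (0 : ℝ) ≤ s)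
    push_cast
    linarith
  · intro i
    exact deg _ (rowDeg_red3 f0 m0 w0 G t i)
  · intro j
    exact deg _ (colDeg_red3 f0 m0 w0 G t j)

/-! ### Computability -/

theorem poly_sc (D : BGraph × ℕ → Prop) :
    PolyN D [fun x => inCode x.1 x.2] (fun x => sc x.1 x.2) := by
  have hw : PolyC D [fun x => inCode x.1 x.2] (fun x => inCode x.1 x.2) := PolyC.var (by simp)
  have ha := poly_a hw
  have hb := poly_b hw
  have ht := poly_s hw
  exact ((ha.add hb).add ((PolyN.const 2).mul ht)).add (PolyN.const 6)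

theorem poly_r3 (D : BGraph × ℕ → Prop) :
    PolyN D [fun x => inCode x.1 x.2] (fun x => r3 m0 x.1 x.2) := by
  have hw : PolyC D [fun x => inCode x.1 x.2] (fun x => inCode x.1 x.2) := PolyC.var (by simp)
  exact (((PolyN.const m0).mul (poly_sc D)).add ((PolyN.const 2).mul (poly_s hw))).add
    (PolyN.const 4)

theorem poly_u3 (D : BGraph × ℕ → Prop) :
    PolyBin D [fun x => inCode x.1 x.2] (fun x => u3 m0 x.1 x.2) := by
  refine PolyBin.powN (PolyBin.third (poly_r3 D)) ((PolyN.const m0).mul (poly_sc D))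
    (((PolyN.const 2).mul (poly_r3 (m0 := m0) D)).succ) ?_
  intro x _
  have := third_eq (r3 m0 x.1 x.2)
  have h2 : (2 : ℕ) ^ (2 * r3 m0 x.1 x.2 + 1) = 2 * 4 ^ r3 m0 x.1 x.2 := by
    rw [pow_succ, pow_mul]; norm_num; ring
  rw [h2]
  omega

theorem poly_l3 (D : BGraph × ℕ → Prop) :
    PolyN D [fun x => inCode x.1 x.2] (fun x => l3 m0 x.1 x.2) :=
  (((PolyN.const 2).mul (poly_r3 D)).mul ((PolyN.const m0).mul (poly_sc D))).add (PolyN.const 1)

theorem poly_K3 (D : BGraph × ℕ → Prop) :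
    PolyN D [fun x => inCode x.1 x.2] (fun x => K3 m0 w0 x.1 x.2) := by
  have hw : PolyC D [fun x => inCode x.1 x.2] (fun x => inCode x.1 x.2) := PolyC.var (by simp)
  have ha := poly_a hw
  have hb := poly_b hw
  exact (((PolyN.const 2).mul (poly_r3 D)).mul ((PolyN.const m0).mul (poly_sc D))).add
    ((PolyN.sub ((PolyN.const w0).mul (poly_sc D)) ha).add
      (PolyN.sub ((PolyN.const w0).mul (poly_sc D)) hb))

theorem poly_red3 (D : BGraph × ℕ → Prop) :
    PolyC D [fun x => inCode x.1 x.2] (fun x => inCode (red3 f0 m0 w0 x.1 x.2) (2 * x.2)) := by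
  have hw : PolyC D [fun x => inCode x.1 x.2] (fun x => inCode x.1 x.2) := PolyC.var (by simp)
  have ht := poly_s hw
  have h2t := (PolyN.const 2).mul ht
  have hs := poly_sc D
  let s : BGraph × ℕ → ℕ := fun x =>
    f0 * sc x.1 x.2 + (m0 * sc x.1 x.2 + w0 * sc x.1 x.2)
  have hsz : PolyN D [fun x => inCode x.1 x.2] s :=
    ((PolyN.const f0).mul hs).add (((PolyN.const m0).mul hs).add ((PolyN.const w0).mul hs))
  refine poly_inCode (a := s) (b := s) hsz hsz h2t ?_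
  have S1 := upN (n := s) hs
  have W1 := up (n := s) hw
  have I1 := last (D := D) (ctx := [fun x => inCode x.1 x.2]) (n := s)
  let n2 : (BGraph × ℕ) × ℕ → ℕ := fun p => s p.1
  have S2 := upN (n := n2) S1
  have W2 := up (n := n2) W1
  have I2 := upN (n := n2) I1
  have J2 := last (D := fun p : (BGraph × ℕ) × ℕ => D p.1 ∧ p.2 < s p.1)
    (ctx := PolyTime.lift [fun x : BGraph × ℕ => inCode x.1 x.2] ++
      [fun p : (BGraph × ℕ) × ℕ => un p.2]) (n := n2)
  have f2 := (PolyN.const f0).mul S2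
  have fm2 := f2.add ((PolyN.const m0).mul S2)
  exact ((PolyB.lt I2 f2).and (PolyB.le f2 J2)).or (((PolyB.le f2 I2).and (PolyB.lt J2 f2)).or
    (((PolyB.natEq I2 J2).and (PolyB.lt I2 fm2)).or
      (((PolyB.le fm2 I2).and (PolyB.le fm2 J2)).and
        (poly_F W2 (PolyN.sub I2 fm2) (PolyN.sub J2 fm2)))))

theorem hard_of_par {α γ : ℝ} (hα0 : 0 < α) (hα1 : α ≤ 1) (hp : Par α γ f0 m0 w0)
    (h : HasFPRAS (AlmostRegularExpander α γ (fun N => (N : ℝ) / 3))) :
    HasFPRAS (fun _ => True) :=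
  HasFPRAS.transfer3 (red3 f0 m0 w0) (K3 m0 w0) (u3 m0) (l3 m0) (poly_red3 _) (poly_K3 _)
    (poly_l3 _) (poly_u3 _) (fun G t _ _ => u3_lt m0 G t)
    (fun G t _ _ => red3_class hα0 hα1 hp G t)
    (fun G t _ _ => red3_close f0 m0 w0 hp.w1 hp.p5 hp.p3 G t) h

end Pool.Agent.Lib.Pa7c826y
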