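import Pool.Agent.Lib.Pa7c826y.Alg
import Pool.Agent.Lib.Pa7c826.Transfer

/-!
The algorithm runs in polynomial time.
-/

namespace Pool.Agent.Lib.Pa7c826y

open Pool.Agent.Lib.Pa7c826
open Pool.Agent.Lib.PolyTime

/-- adjacency functions computable in every context -/
def FPoly (F : List Bool → ℕ → ℕ → Bool) : Prop :=
  ∀ {β : Type} {D' : β → Prop} {ctx' : List (β → List Bool)} {w' : β → List Bool} {u v : β → ℕ},
    PolyC D' ctx' w' → PolyN D' ctx' u → PolyN D' ctx' v →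
      PolyB D' ctx' (fun b => F (w' b) (u b) (v b))

theorem FPoly.rev {F : List Bool → ℕ → ℕ → Bool} (hF : FPoly F) : FPoly (fun w i j => F w j i) :=
  fun hw hu hv => hF hw hv hu

section

variable {α : Type} {D : α → Prop} {ctx : List (α → List Bool)} {w : α → List Bool}
  {n m k ψ J I v τ p : α → ℕ} {S T : α → Finset ℕ} {F : List Bool → ℕ → ℕ → Bool}

theorem poly_rk' (hn : PolyN D ctx n) (hS : PolyS D ctx n S) (hv : PolyN D ctx v) :
    PolyN D ctx (fun a => rk (S a) (v a)) := by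
  have V := upN (n := n) hv
  have L := last (D := D) (ctx := ctx) (n := n)
  refine (PolyS.card hn (PolyS.filter (φ := fun p : α × ℕ => decide (p.2 < v p.1))
    hn hS (PolyB.lt L V))).congr (fun a _ => ?_)
  unfold rk
  congr 1
  ext i
  simp

theorem poly_sel' (hn : PolyN D ctx n) (hS : PolyS D ctx n S) (hτ : PolyN D ctx τ) :
    PolyS D ctx n (fun a => sel (S a) (τ a)) := by
  have N := upN (n := n) hn
  have T := upN (n := n) hτ
  have SS := hS.up (m := n)
  have L := last (D := D) (ctx := ctx) (n := n)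
  refine (PolyS.filter (φ := fun p : α × ℕ => decide (τ p.1 / 2 ^ rk (S p.1) p.2 % 2 = 1))
    hn hS (PolyB.odd (PolyN.divPow T (poly_rk' N SS L)))).congr (fun a _ => ?_)
  unfold sel
  ext i
  simp

theorem poly_divPow {f g k : α → ℕ} (hf : PolyN D ctx f) (hg : PolyN D ctx g)
    (hk : PolyN D ctx k) (hpos : ∀ a, D a → 0 < g a) :
    PolyN D ctx (fun a => f a / g a ^ k a) := by
  obtain ⟨pf, hpf⟩ := PolyC.length_le hf
  refine PolyC.natRec (fun a k => un (f a / g a ^ k)) hk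
    (PolyC.congr hf (fun a _ => by simp)) ?_ ⟨pf, fun a ha j hj => ?_⟩
  · have h1 : PolyN (fun p : α × ℕ => D p.1 ∧ p.2 < k p.1)
        (PolyTime.lift ctx ++ [fun p => un p.2, fun p => un (f p.1 / g p.1 ^ p.2)])
        (fun p => f p.1 / g p.1 ^ p.2) := PolyC.var (by simp)
    have h2 : PolyN (fun p : α × ℕ => D p.1 ∧ p.2 < k p.1)
        (PolyTime.lift ctx ++ [fun p => un p.2, fun p => un (f p.1 / g p.1 ^ p.2)])
        (fun p => g p.1) := up2 hg
    refine (PolyN.div h1 h2 (fun p hp => hpos p.1 hp.1)).congr ?_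
    rintro ⟨a, k⟩ _
    simp only
    rw [pow_succ, Nat.div_div_eq_div_mul]
  · have h1 := hpf a ha
    rw [un_length] at h1 ⊢
    exact (Nat.div_le_self _ _).trans h1

theorem poly_tup (hn : PolyN D ctx n) (hk : PolyN D ctx k) (hi : PolyN D ctx v) :
    PolyS D ctx n (fun a => tup (n a) (k a) (v a)) := by
  have N1 := upN (n := n) hn
  have K1 := upN (n := n) hk
  have I1 := upN (n := n) hi
  have L1 := last (D := D) (ctx := ctx) (n := n)
  have N2 := upN (n := fun p : α × ℕ => k p.1) N1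
  have I2 := upN (n := fun p : α × ℕ => k p.1) I1
  have V2 := upN (n := fun p : α × ℕ => k p.1) L1
  have L2 := last (D := fun p : α × ℕ => D p.1 ∧ p.2 < n p.1)
    (ctx := PolyTime.lift ctx ++ [fun p : α × ℕ => un p.2])
    (n := fun p : α × ℕ => k p.1)
  refine PolyS.filter (φ := fun p : α × ℕ =>
    decide (∃ l < k p.1, decide (v p.1 / (n p.1 + 1) ^ l % (n p.1 + 1) = p.2) = true))
    hn (PolyS.range hn) ?_
  refine PolyB.exists_lt (φ := fun q : (α × ℕ) × ℕ =>
    decide (v q.1.1 / (n q.1.1 + 1) ^ q.2 % (n q.1.1 + 1) = q.1.2)) K1 ?_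
  exact PolyB.natEq (PolyN.mod (poly_divPow I2 N2.succ L2 (fun _ _ => Nat.succ_pos _)) N2.succ
    (fun _ _ => Nat.succ_pos _)) V2

theorem poly_freeN (hF : FPoly F) (hw : PolyC D ctx w) (hn : PolyN D ctx n)
    (hm : PolyN D ctx m) (hT : PolyS D ctx n T) :
    PolyS D ctx m (fun a => freeN (n a) (m a) (F (w a)) (T a)) := by
  have W1 := up (n := m) hw
  have N1 := upN (n := m) hn
  have T1 := hT.up (m := m)
  have L1 := last (D := D) (ctx := ctx) (n := m)
  have W2 := up (n := fun p : α × ℕ => n p.1) W1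
  have T2 := T1.up (m := fun p : α × ℕ => n p.1)
  have J2 := upN (n := fun p : α × ℕ => n p.1) L1
  have I2 := last (D := fun p : α × ℕ => D p.1 ∧ p.2 < m p.1)
    (ctx := PolyTime.lift ctx ++ [fun p : α × ℕ => un p.2])
    (n := fun p : α × ℕ => n p.1)
  refine PolyS.filter (φ := fun p : α × ℕ =>
    !decide (∃ i < n p.1, (decide (i ∈ T p.1) && F (w p.1) i p.2) = true))
    hm (PolyS.range hm) (PolyB.not ?_)
  exact PolyB.exists_lt (φ := fun q : (α × ℕ) × ℕ =>
    (decide (q.2 ∈ T q.1.1) && F (w q.1.1) q.2 q.1.2)) N1 ((T2.mem I2).and (hF W2 I2 J2))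

theorem poly_XXN (hF : FPoly F) (hw : PolyC D ctx w) (hn : PolyN D ctx n)
    (hm : PolyN D ctx m) (hψ : PolyN D ctx ψ) (hT : PolyS D ctx n T) :
    PolyS D ctx n (fun a => XXN (n a) (m a) (F (w a)) (ψ a) (T a)) := by
  have W1 := up (n := n) hw
  have N1 := upN (n := n) hn
  have M1 := upN (n := n) hm
  have P1 := upN (n := n) hψ
  have T1 := hT.up (m := n)
  have L1 := last (D := D) (ctx := ctx) (n := n)
  have R1 := poly_freeN hF W1 N1 M1 T1
  have W2 := up (n := fun p : α × ℕ => m p.1) W1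
  have U2 := upN (n := fun p : α × ℕ => m p.1) L1
  have J2 := last (D := fun p : α × ℕ => D p.1 ∧ p.2 < n p.1)
    (ctx := PolyTime.lift ctx ++ [fun p : α × ℕ => un p.2])
    (n := fun p : α × ℕ => m p.1)
  have C1 := PolyS.card M1 (PolyS.filter (φ := fun q : (α × ℕ) × ℕ => F (w q.1.1) q.1.2 q.2)
    M1 R1 (hF W2 U2 J2))
  exact PolyS.filter (φ := fun p : α × ℕ =>
    decide (((freeN (n p.1) (m p.1) (F (w p.1)) (T p.1)).filter
      fun j => F (w p.1) p.2 j = true).card ≤ ψ p.1)) hn (PolyS.range hn) (PolyB.le C1 P1)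

theorem poly_SS (hF : FPoly F) (hw : PolyC D ctx w) (hn : PolyN D ctx n)
    (hm : PolyN D ctx m) (hψ : PolyN D ctx ψ) (hk : PolyN D ctx k) (hJ : PolyN D ctx J)
    (hJ0 : ∀ a, D a → 0 < J a) (hp : PolyN D ctx p) :
    PolyS D ctx n (fun a => SS (n a) (m a) (F (w a)) (ψ a) (k a) (J a) (p a)) :=
  poly_sel' hn (poly_XXN hF hw hn hm hψ (poly_tup hn hk (PolyN.div hp hJ hJ0)))
    (PolyN.mod hp hJ hJ0)

theorem poly_eqB (hn : PolyN D ctx n) (hS : PolyS D ctx n S) (hT : PolyS D ctx n T) :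
    PolyB D ctx (fun a => eqB (n a) (S a) (T a)) := by
  have S1 := hS.up (m := n)
  have T1 := hT.up (m := n)
  have L1 := last (D := D) (ctx := ctx) (n := n)
  exact (PolyB.exists_lt (φ := fun p : α × ℕ => decide (p.2 ∈ S p.1) ^^ decide (p.2 ∈ T p.1)) hn
    (PolyB.xor (S1.mem L1) (T1.mem L1))).not

theorem poly_algA (hF : FPoly F) (hw : PolyC D ctx w) (hn : PolyN D ctx n)
    (hm : PolyN D ctx m) (hψ : PolyN D ctx ψ) (hk : PolyN D ctx k) (hI : PolyN D ctx I)
    (hJ : PolyN D ctx J) (hJ0 : ∀ a, D a → 0 < J a) :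
    PolyBin D ctx (fun a => algA (n a) (m a) (F (w a)) (ψ a) (k a) (I a) (J a)) := by
  let M : α → ℕ := fun a => I a * J a
  have hM : PolyN D ctx M := hI.mul hJ
  have W1 := up (n := M) hw
  have N1 := upN (n := M) hn
  have M1 := upN (n := M) hm
  have P1 := upN (n := M) hψ
  have K1 := upN (n := M) hk
  have J1 := upN (n := M) hJ
  have L1 := last (D := D) (ctx := ctx) (n := M)
  have S1 := poly_SS hF W1 N1 M1 P1 K1 J1 (fun a ha => hJ0 a.1 ha.1) L1
  have W2 := up (n := fun q : α × ℕ => q.2) W1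
  have N2 := upN (n := fun q : α × ℕ => q.2) N1
  have M2 := upN (n := fun q : α × ℕ => q.2) M1
  have P2 := upN (n := fun q : α × ℕ => q.2) P1
  have K2 := upN (n := fun q : α × ℕ => q.2) K1
  have J2 := upN (n := fun q : α × ℕ => q.2) J1
  have L2 := last (D := fun q : α × ℕ => D q.1 ∧ q.2 < M q.1)
    (ctx := PolyTime.lift ctx ++ [fun q : α × ℕ => un q.2]) (n := fun q : α × ℕ => q.2)
  have S2 := poly_SS hF W2 N2 M2 P2 K2 J2 (fun a ha => hJ0 a.1.1 ha.1.1) L2
  have S2' := S1.up (m := fun q : α × ℕ => q.2)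
  have E2 := poly_eqB N2 S2 S2'
  have E1 := PolyB.exists_lt (φ := fun q : (α × ℕ) × ℕ =>
    eqB (n q.1.1) (SS (n q.1.1) (m q.1.1) (F (w q.1.1)) (ψ q.1.1) (k q.1.1) (J q.1.1) q.2)
      (SS (n q.1.1) (m q.1.1) (F (w q.1.1)) (ψ q.1.1) (k q.1.1) (J q.1.1) q.1.2)) L1 E2
  have C1 := PolyBin.pow2 (PolyS.card M1 (poly_freeN hF W1 N1 M1 S1))
  refine PolyBin.sum_range (f := fun q : α × ℕ =>
    if decide (∃ p' < q.2, eqB (n q.1)
      (SS (n q.1) (m q.1) (F (w q.1)) (ψ q.1) (k q.1) (J q.1) p')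
      (SS (n q.1) (m q.1) (F (w q.1)) (ψ q.1) (k q.1) (J q.1) q.2) = true) = true then 0
    else 2 ^ (freeN (n q.1) (m q.1) (F (w q.1))
      (SS (n q.1) (m q.1) (F (w q.1)) (ψ q.1) (k q.1) (J q.1) q.2)).card) hM ?_
  exact PolyBin.ite E1 PolyBin.zero (C1.mono fun _ h => h.1)

end

end Pool.Agent.Lib.Pa7c826y
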