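import Pool.Agent.Lib.Pa7c826y.Match

/-!
Greedy covers and the number of independent pairs without a small cover.
-/

namespace Pool.Agent.Lib.Pa7c826y

section

variable {α β : Type*} [Fintype α] [Fintype β] [DecidableEq α] [DecidableEq β]

/-- The neighbours of a vertex. -/
def row (E : α → β → Bool) (u : α) : Finset β := Finset.univ.filter fun j => E u j = true

theorem mem_row {E : α → β → Bool} {u : α} {j : β} : j ∈ row E u ↔ E u j = true := by
  simp [row]

/-- The vertices almost all of whose neighbours are covered by `T`. -/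
def XX (E : α → β → Bool) (ψ : ℕ) (T : Finset α) : Finset α :=
  Finset.univ.filter fun u => (row E u \ nb E T).card ≤ ψ

theorem mem_XX {E : α → β → Bool} {ψ : ℕ} {T : Finset α} {u : α} :
    u ∈ XX E ψ T ↔ (row E u \ nb E T).card ≤ ψ := by simp [XX]

/-- The sets with a small cover. -/
def Fam (E : α → β → Bool) (ψ k : ℕ) : Finset (Finset α) :=
  Finset.univ.filter fun S => ∃ T : Finset α, T.card ≤ k ∧ S ⊆ XX E ψ T

theorem mem_Fam {E : α → β → Bool} {ψ k : ℕ} {S : Finset α} :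
    S ∈ Fam E ψ k ↔ ∃ T : Finset α, T.card ≤ k ∧ S ⊆ XX E ψ T := by simp [Fam]

theorem exists_greedy (E : α → β → Bool) (ψ : ℕ) (S : Finset α) :
    ∃ T ⊆ S, (ψ + 1) * T.card ≤ (nb E T).card ∧ S ⊆ XX E ψ T := by
  obtain ⟨T, hT, hmax⟩ := Finset.exists_max_image
    (S.powerset.filter fun T => (ψ + 1) * T.card ≤ (nb E T).card) Finset.card
    ⟨∅, by simp⟩
  rw [Finset.mem_filter, Finset.mem_powerset] at hT
  refine ⟨T, hT.1, hT.2, ?_⟩
  intro u hu
  rw [mem_XX]
  by_contra hc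
  push Not at hc
  have huT : u ∉ T := by
    intro h
    have : row E u \ nb E T = ∅ := by
      rw [Finset.sdiff_eq_empty_iff_subset]
      intro j hj
      rw [mem_row] at hj
      exact mem_nb.2 ⟨u, h, hj⟩
    rw [this] at hc
    simp at hc
  have h1 : (ψ + 1) * (insert u T).card ≤ (nb E (insert u T)).card := by
    rw [Finset.card_insert_of_notMem huT]
    have h2 : nb E T ∪ (row E u \ nb E T) ⊆ nb E (insert u T) := by
      refine Finset.union_subset (nb_mono (Finset.subset_insert _ _)) ?_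
      intro j hj
      rw [Finset.mem_sdiff, mem_row] at hj
      exact mem_nb.2 ⟨u, Finset.mem_insert_self _ _, hj.1⟩
    have h3 := Finset.card_le_card h2
    rw [Finset.card_union_of_disjoint Finset.disjoint_sdiff] at h3
    have := hT.2
    calc (ψ + 1) * (T.card + 1) = (ψ + 1) * T.card + (ψ + 1) := by ring
      _ ≤ _ := by omega
  have h4 := hmax (insert u T) (by
    rw [Finset.mem_filter, Finset.mem_powerset]
    exact ⟨Finset.insert_subset hu hT.1, h1⟩)
  rw [Finset.card_insert_of_notMem huT] at h4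
  omega

theorem card_XX_le {E : α → β → Bool} {δ ψ : ℕ} {Δ : ℝ} (hrow : ∀ u, δ ≤ (row E u).card)
    (hcol : ∀ v, ((row (rev E) v).card : ℝ) ≤ Δ) (T : Finset α) :
    ((δ : ℝ) - ψ) * (XX E ψ T).card ≤ Δ * (nb E T).card := by
  have h1 := Finset.sum_card_bipartiteAbove_eq_sum_card_bipartiteBelow
    (s := XX E ψ T) (t := nb E T) (fun u v => E u v = true)
  have h2 : ∀ u ∈ XX E ψ T, (δ : ℝ) - ψ ≤
      ((nb E T).bipartiteAbove (fun u v => E u v = true) u).card := by
    intro u hu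
    rw [mem_XX] at hu
    have h3 := hrow u
    have h4 : row E u ⊆ (row E u \ nb E T) ∪
        ((nb E T).bipartiteAbove (fun u v => E u v = true) u) := by
      intro j hj
      rw [Finset.mem_union, Finset.mem_sdiff, Finset.mem_bipartiteAbove]
      by_cases h : j ∈ nb E T
      · exact Or.inr ⟨h, mem_row.1 hj⟩
      · exact Or.inl ⟨hj, h⟩
    have h5 := (Finset.card_le_card h4).trans (Finset.card_union_le _ _)
    have h6 : δ ≤ ψ + ((nb E T).bipartiteAbove (fun u v => E u v = true) u).card := by omega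
    have h7 : (δ : ℝ) ≤ ψ + ((nb E T).bipartiteAbove (fun u v => E u v = true) u).card := by
      exact_mod_cast h6
    linarith
  have h3 : ∀ v ∈ nb E T, (((XX E ψ T).bipartiteBelow (fun u v => E u v = true) v).card : ℝ) ≤
      Δ := by
    intro v _
    refine le_trans ?_ (hcol v)
    have : (XX E ψ T).bipartiteBelow (fun u v => E u v = true) v ⊆ row (rev E) v := by
      intro u hu
      rw [Finset.mem_bipartiteBelow] at hu
      exact mem_row.2 hu.2
    exact_mod_cast Finset.card_le_card this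
  have h1' : (∑ u ∈ XX E ψ T, (((nb E T).bipartiteAbove (fun u v => E u v = true) u).card : ℝ)) =
      ∑ v ∈ nb E T, (((XX E ψ T).bipartiteBelow (fun u v => E u v = true) v).card : ℝ) := by
    exact_mod_cast h1
  have h4 := Finset.sum_le_sum h2
  have h5 := Finset.sum_le_sum h3
  rw [Finset.sum_const, nsmul_eq_mul] at h4 h5
  rw [h1'] at h4
  linarith

theorem card_nb_le {E : α → β → Bool} {Δ : ℝ} (hrow : ∀ u, ((row E u).card : ℝ) ≤ Δ)
    (T : Finset α) : ((nb E T).card : ℝ) ≤ Δ * T.card := by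
  have h1 : nb E T ⊆ T.biUnion (row E) := by
    intro j hj
    rw [mem_nb] at hj
    obtain ⟨i, hi, hij⟩ := hj
    exact Finset.mem_biUnion.2 ⟨i, hi, mem_row.2 hij⟩
  have h2 : (nb E T).card ≤ ∑ u ∈ T, (row E u).card :=
    (Finset.card_le_card h1).trans Finset.card_biUnion_le
  have h3 : ((nb E T).card : ℝ) ≤ ∑ u ∈ T, ((row E u).card : ℝ) := by exact_mod_cast h2
  refine h3.trans ?_
  refine (Finset.sum_le_sum fun u _ => hrow u).trans ?_
  rw [Finset.sum_const, nsmul_eq_mul, mul_comm]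

/-! ### Sums over sets -/

theorem sum_inv_pow_card {N : ℕ} (hα : Fintype.card α = N) (hN : 1 ≤ N) :
    ∑ T : Finset α, ((1 : ℝ) / N) ^ T.card ≤ 3 := by
  have hN' : (0 : ℝ) < N := by exact_mod_cast hN
  have h1 := Finset.sum_pow_mul_eq_add_pow ((1 : ℝ) / N) 1 (Finset.univ : Finset α)
  simp only [one_pow, mul_one, Finset.powerset_univ, Finset.card_univ, hα] at h1
  rw [h1]
  have h2 : (1 : ℝ) / N + 1 ≤ Real.exp (1 / N) := Real.add_one_le_exp _
  calc ((1 : ℝ) / N + 1) ^ N ≤ (Real.exp (1 / N)) ^ N := pow_le_pow_left₀ (by positivity) h2 N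
    _ = Real.exp 1 := by
        rw [← Real.exp_nat_mul]
        congr 1
        field_simp
    _ ≤ 3 := by linarith [Real.exp_one_lt_d9]

theorem sum_tail {N k : ℕ} (hα : Fintype.card α = N) (hN : 1 ≤ N) {z : ℝ} (hz : 0 ≤ z)
    (hy : N * z ≤ 1) (𝒯 : Finset (Finset α)) (h : ∀ T ∈ 𝒯, k < T.card) :
    ∑ T ∈ 𝒯, z ^ T.card ≤ 3 * (N * z) ^ (k + 1) := by
  have hN' : (0 : ℝ) < N := by exact_mod_cast hN
  have h1 : ∀ T ∈ 𝒯, z ^ T.card ≤ (N * z) ^ (k + 1) * ((1 : ℝ) / N) ^ T.card := by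
    intro T hT
    have h2 : z ^ T.card = (N * z) ^ T.card * ((1 : ℝ) / N) ^ T.card := by
      rw [← mul_pow]
      congr 1
      field_simp
    rw [h2]
    refine mul_le_mul_of_nonneg_right ?_ (by positivity)
    exact pow_le_pow_of_le_one (by positivity) hy (h T hT)
  refine (Finset.sum_le_sum h1).trans ?_
  rw [← Finset.mul_sum, mul_comm]
  refine mul_le_mul_of_nonneg_right ?_ (by positivity)
  refine le_trans ?_ (sum_inv_pow_card hα hN)
  exact Finset.sum_le_sum_of_subset_of_nonneg (Finset.subset_univ _)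
    (fun _ _ _ => by positivity)

theorem card_small {N ψ : ℕ} (hα : Fintype.card α = N) (hN : 1 ≤ N)
    (𝒯 : Finset (Finset α)) (h : ∀ T ∈ 𝒯, (ψ + 1) * T.card ≤ N) :
    (𝒯.card : ℝ) ≤ 3 * Real.exp (N * Real.log N / (ψ + 1)) := by
  have hN' : (0 : ℝ) < N := by exact_mod_cast hN
  have hlog : 0 ≤ Real.log N := Real.log_natCast_nonneg N
  have h1 : ∀ T ∈ 𝒯, (1 : ℝ) ≤ Real.exp (N * Real.log N / (ψ + 1)) * ((1 : ℝ) / N) ^ T.card := by
    intro T hT
    have h2 : ((1 : ℝ) / N) ^ T.card = Real.exp (-(T.card * Real.log N)) := by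
      rw [Real.exp_neg, Real.exp_nat_mul, Real.exp_log hN', one_div, inv_pow]
    rw [h2, ← Real.exp_add]
    refine Real.one_le_exp ?_
    have h3 : (T.card : ℝ) ≤ N / (ψ + 1) := by
      rw [le_div_iff₀ (by positivity)]
      have := h T hT
      have : ((ψ : ℝ) + 1) * T.card ≤ N := by exact_mod_cast this
      linarith
    have h4 := mul_le_mul_of_nonneg_right h3 hlog
    have e : (N : ℝ) / (ψ + 1) * Real.log N = N * Real.log N / (ψ + 1) := by ring
    rw [e] at h4
    linarith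
  have h2 := Finset.sum_le_sum h1
  rw [Finset.sum_const, nsmul_eq_mul, mul_one, ← Finset.mul_sum] at h2
  refine h2.trans ?_
  rw [mul_comm]
  refine mul_le_mul_of_nonneg_right ?_ (Real.exp_nonneg _)
  refine le_trans ?_ (sum_inv_pow_card hα hN)
  exact Finset.sum_le_sum_of_subset_of_nonneg (Finset.subset_univ _)
    (fun _ _ _ => by positivity)

/-! ### Symmetry -/

theorem card_IndIn_swap {E : α → β → Bool} (X : Finset α) (Y : Finset β) :
    (IndIn E X Y).card = (IndIn (rev E) Y X).card := by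
  refine Finset.card_bij (fun P _ => (P.2, P.1)) ?_ ?_ ?_
  · intro P hP
    rw [mem_IndIn, mem_Ind] at *
    exact ⟨fun i hi j hj => hP.1 j hj i hi, hP.2.2, hP.2.1⟩
  · rintro ⟨P1, P2⟩ _ ⟨Q1, Q2⟩ _ h
    simp only [Prod.mk.injEq] at h ⊢
    exact ⟨h.2, h.1⟩
  · rintro ⟨Q1, Q2⟩ hQ
    refine ⟨(Q2, Q1), ?_, rfl⟩
    rw [mem_IndIn, mem_Ind] at *
    exact ⟨fun i hi j hj => hQ.1 j hj i hi, hQ.2.2, hQ.2.1⟩

theorem IndIn_mono {E : α → β → Bool} {X X' : Finset α} {Y Y' : Finset β} (h : X ⊆ X')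
    (h' : Y ⊆ Y') : IndIn E X Y ⊆ IndIn E X' Y' := by
  intro P hP
  rw [mem_IndIn] at *
  exact ⟨hP.1, hP.2.1.trans h, hP.2.2.trans h'⟩

/-! ### The main estimate -/

/-- An upper bound for the number of independent pairs in `X × Fᶜ`. -/
def CountBound (κ c : ℝ) (N : ℕ) (E : α → β → Bool) : Prop :=
  ∀ (X : Finset α) (F : Finset β), X.card + F.card ≤ N → (X.card : ℝ) ≤ κ * F.card →
    ((IndIn E X Fᶜ).card : ℝ) ≤ 2 * 2 ^ N * Real.exp (-(c * F.card))

/-- The independent pairs without small covers. -/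
def Bad (E : α → β → Bool) (ψ k : ℕ) : Finset (Finset α × Finset β) :=
  (Ind E).filter fun P => P.1 ∉ Fam E ψ k ∧ P.2 ∉ Fam (rev E) ψ k

theorem sum_caseA {κ c : ℝ} {E : α → β → Bool} {N ψ k : ℕ} (hα : Fintype.card α = N)
    (hN1 : 1 ≤ N) (h1 : CountBound κ c N E) (hX : ∀ T, ((XX E ψ T).card : ℝ) ≤ κ * (nb E T).card)
    (hc : 0 ≤ c) (hz : N * Real.exp (-(c * (ψ + 1))) ≤ 1)
    (𝒯 : Finset (Finset α)) (h : ∀ T ∈ 𝒯, k < T.card ∧ (ψ + 1) * T.card ≤ (nb E T).card ∧
      (XX E ψ T).card + (nb E T).card ≤ N) :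
    (((𝒯.biUnion fun T => IndIn E (XX E ψ T) (nb E T)ᶜ).card : ℕ) : ℝ) ≤
      2 * 2 ^ N * (3 * (N * Real.exp (-(c * (ψ + 1)))) ^ (k + 1)) := by
  have h3 : ∀ T ∈ 𝒯, ((IndIn E (XX E ψ T) (nb E T)ᶜ).card : ℝ) ≤
      2 * 2 ^ N * (Real.exp (-(c * (ψ + 1)))) ^ T.card := by
    intro T hT
    obtain ⟨i1, i2, i3⟩ := h T hT
    refine (h1 (XX E ψ T) (nb E T) i3 (hX T)).trans ?_
    refine mul_le_mul_of_nonneg_left ?_ (by positivity)
    rw [← Real.exp_nat_mul]
    refine Real.exp_le_exp.2 ?_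
    have : ((ψ : ℝ) + 1) * T.card ≤ (nb E T).card := by exact_mod_cast i2
    have := mul_le_mul_of_nonneg_left this hc
    nlinarith
  have h4 : (((𝒯.biUnion fun T => IndIn E (XX E ψ T) (nb E T)ᶜ).card : ℕ) : ℝ) ≤
      ∑ T ∈ 𝒯, ((IndIn E (XX E ψ T) (nb E T)ᶜ).card : ℝ) := by
    exact_mod_cast Finset.card_biUnion_le
  refine h4.trans ((Finset.sum_le_sum h3).trans ?_)
  rw [← Finset.mul_sum]
  refine mul_le_mul_of_nonneg_left ?_ (by positivity)
  exact sum_tail hα hN1 (Real.exp_nonneg _) hz 𝒯 (fun T hT => (h T hT).1)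

theorem caseB {κ c : ℝ} {E : α → β → Bool} {N ψ : ℕ} (hα : Fintype.card α = N)
    (hβ : Fintype.card β = N) (h1 : CountBound κ c N E)
    (h2 : CountBound κ c N (rev E)) (hκ : 0 ≤ κ) (hX : ∀ T, ((XX E ψ T).card : ℝ) ≤ κ * (nb E T).card)
    (hX' : ∀ T, ((XX (rev E) ψ T).card : ℝ) ≤ κ * (nb (rev E) T).card) (hc : 0 ≤ c)
    (T : Finset α) (U : Finset β) (hT : N < (XX E ψ T).card + (nb E T).card)
    (hU : N < (XX (rev E) ψ U).card + (nb (rev E) U).card) :
    ((IndIn E (XX E ψ T \ nb (rev E) U) (XX (rev E) ψ U \ nb E T)).card : ℝ) ≤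
      2 * 2 ^ N * Real.exp (-(c * (N / (1 + κ)))) := by
  have hf : (N : ℝ) / (1 + κ) ≤ (nb E T).card := by
    rw [div_le_iff₀ (by linarith)]
    have := hX T
    have h3 : (N : ℝ) ≤ (XX E ψ T).card + (nb E T).card := by exact_mod_cast hT.le
    nlinarith
  have hf' : (N : ℝ) / (1 + κ) ≤ (nb (rev E) U).card := by
    rw [div_le_iff₀ (by linarith)]
    have := hX' U
    have h3 : (N : ℝ) ≤ (XX (rev E) ψ U).card + (nb (rev E) U).card := by exact_mod_cast hU.le
    nlinarith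
  have hfin : ∀ f : ℝ, (N : ℝ) / (1 + κ) ≤ f → 2 * 2 ^ N * Real.exp (-(c * f)) ≤
      2 * 2 ^ N * Real.exp (-(c * (N / (1 + κ)))) := by
    intro f hf
    refine mul_le_mul_of_nonneg_left (Real.exp_le_exp.2 ?_) (by positivity)
    have := mul_le_mul_of_nonneg_left hf hc
    linarith
  by_cases hcase : (XX E ψ T \ nb (rev E) U).card + (nb E T).card ≤ N
  · have h3 : IndIn E (XX E ψ T \ nb (rev E) U) (XX (rev E) ψ U \ nb E T) ⊆
        IndIn E (XX E ψ T \ nb (rev E) U) (nb E T)ᶜ := by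
      refine IndIn_mono le_rfl ?_
      intro j hj
      rw [Finset.mem_sdiff] at hj
      exact Finset.mem_compl.2 hj.2
    have h4 : ((IndIn E (XX E ψ T \ nb (rev E) U) (XX (rev E) ψ U \ nb E T)).card : ℝ) ≤
        (IndIn E (XX E ψ T \ nb (rev E) U) (nb E T)ᶜ).card := by
      exact_mod_cast Finset.card_le_card h3
    refine h4.trans ((h1 _ _ hcase ?_).trans (hfin _ hf))
    refine le_trans ?_ (hX T)
    exact_mod_cast Finset.card_le_card Finset.sdiff_subset
  · push Not at hcase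
    have i1 : (XX E ψ T \ nb (rev E) U).card + (nb (rev E) U).card ≤ N := by
      rw [← Finset.card_union_of_disjoint Finset.sdiff_disjoint, ← hα]
      exact Finset.card_le_univ _
    have i2 : (XX (rev E) ψ U \ nb E T).card + (nb E T).card ≤ N := by
      rw [← Finset.card_union_of_disjoint Finset.sdiff_disjoint, ← hβ]
      exact Finset.card_le_univ _
    have hcase' : (XX (rev E) ψ U \ nb E T).card + (nb (rev E) U).card ≤ N := by omega
    rw [card_IndIn_swap]
    have h3 : IndIn (rev E) (XX (rev E) ψ U \ nb E T) (XX E ψ T \ nb (rev E) U) ⊆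
        IndIn (rev E) (XX (rev E) ψ U \ nb E T) (nb (rev E) U)ᶜ := by
      refine IndIn_mono le_rfl ?_
      intro j hj
      rw [Finset.mem_sdiff] at hj
      exact Finset.mem_compl.2 hj.2
    have h4 : ((IndIn (rev E) (XX (rev E) ψ U \ nb E T) (XX E ψ T \ nb (rev E) U)).card : ℝ) ≤
        (IndIn (rev E) (XX (rev E) ψ U \ nb E T) (nb (rev E) U)ᶜ).card := by
      exact_mod_cast Finset.card_le_card h3
    refine h4.trans ((h2 _ _ hcase' ?_).trans (hfin _ hf'))
    refine le_trans ?_ (hX' U)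
    exact_mod_cast Finset.card_le_card Finset.sdiff_subset

theorem card_Bad_le {κ c : ℝ} {E : α → β → Bool} {N ψ k : ℕ} (hα : Fintype.card α = N)
    (hβ : Fintype.card β = N) (hN1 : 1 ≤ N) (h1 : CountBound κ c N E)
    (h2 : CountBound κ c N (rev E)) (hκ : 0 ≤ κ) (hX : ∀ T, ((XX E ψ T).card : ℝ) ≤ κ * (nb E T).card)
    (hX' : ∀ T, ((XX (rev E) ψ T).card : ℝ) ≤ κ * (nb (rev E) T).card) (hc : 0 ≤ c)
    (hz : N * Real.exp (-(c * (ψ + 1))) ≤ 1) :
    ((Bad E ψ k).card : ℝ) ≤ 2 * 2 ^ N * (6 * (N * Real.exp (-(c * (ψ + 1)))) ^ (k + 1) +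
      9 * Real.exp (2 * (N * Real.log N / (ψ + 1)) - c * (N / (1 + κ)))) := by
  classical
  let 𝒜 : Finset (Finset α) := Finset.univ.filter fun T => k < T.card ∧
    (ψ + 1) * T.card ≤ (nb E T).card ∧ (XX E ψ T).card + (nb E T).card ≤ N
  let 𝒜' : Finset (Finset β) := Finset.univ.filter fun T => k < T.card ∧
    (ψ + 1) * T.card ≤ (nb (rev E) T).card ∧ (XX (rev E) ψ T).card + (nb (rev E) T).card ≤ N
  let ℬ : Finset (Finset α) := Finset.univ.filter fun T =>
    (ψ + 1) * T.card ≤ (nb E T).card ∧ N < (XX E ψ T).card + (nb E T).card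
  let ℬ' : Finset (Finset β) := Finset.univ.filter fun T =>
    (ψ + 1) * T.card ≤ (nb (rev E) T).card ∧ N < (XX (rev E) ψ T).card + (nb (rev E) T).card
  let P1 := 𝒜.biUnion fun T => IndIn E (XX E ψ T) (nb E T)ᶜ
  let P2 := (𝒜'.biUnion fun T => IndIn (rev E) (XX (rev E) ψ T) (nb (rev E) T)ᶜ).image Prod.swap
  let P3 := (ℬ ×ˢ ℬ').biUnion fun TU =>
    IndIn E (XX E ψ TU.1 \ nb (rev E) TU.2) (XX (rev E) ψ TU.2 \ nb E TU.1)
  have hsub : Bad E ψ k ⊆ P1 ∪ P2 ∪ P3 := by
    rintro ⟨S, R⟩ hP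
    simp only [Bad, Finset.mem_filter, mem_Fam, not_exists, not_and] at hP
    obtain ⟨hI, hS, hR⟩ := hP
    have hI' := mem_Ind.1 hI
    simp only at hI'
    obtain ⟨T, hTS, hT1, hT2⟩ := exists_greedy E ψ S
    obtain ⟨U, hUR, hU1, hU2⟩ := exists_greedy (rev E) ψ R
    have hTk : k < T.card := by
      by_contra hc
      exact hS T (not_lt.1 hc) hT2
    have hUk : k < U.card := by
      by_contra hc
      exact hR U (not_lt.1 hc) hU2
    have hST : ∀ i ∈ S, i ∉ nb (rev E) U := by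
      intro i hi hc
      rw [mem_nb] at hc
      obtain ⟨j, hj, hij⟩ := hc
      have := hI' i hi j (hUR hj)
      simp only [rev] at hij
      rw [this] at hij
      simp at hij
    have hRT : ∀ j ∈ R, j ∉ nb E T := by
      intro j hj hc
      rw [mem_nb] at hc
      obtain ⟨i, hi, hij⟩ := hc
      have := hI' i (hTS hi) j hj
      rw [this] at hij
      simp at hij
    rw [Finset.mem_union, Finset.mem_union]
    by_cases c1 : (XX E ψ T).card + (nb E T).card ≤ N
    · left; left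
      refine Finset.mem_biUnion.2 ⟨T, ?_, ?_⟩
      · simp only [𝒜, Finset.mem_filter, Finset.mem_univ, true_and]
        exact ⟨hTk, hT1, c1⟩
      · rw [mem_IndIn]
        exact ⟨hI, hT2, fun j hj => Finset.mem_compl.2 (hRT j hj)⟩
    by_cases c2 : (XX (rev E) ψ U).card + (nb (rev E) U).card ≤ N
    · left; right
      refine Finset.mem_image.2 ⟨(R, S), ?_, rfl⟩
      refine Finset.mem_biUnion.2 ⟨U, ?_, ?_⟩
      · simp only [𝒜', Finset.mem_filter, Finset.mem_univ, true_and]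
        exact ⟨hUk, hU1, c2⟩
      · rw [mem_IndIn, mem_Ind]
        exact ⟨fun j hj i hi => hI' i hi j hj, hU2, fun i hi => Finset.mem_compl.2 (hST i hi)⟩
    · right
      refine Finset.mem_biUnion.2 ⟨(T, U), ?_, ?_⟩
      · simp only [ℬ, ℬ', Finset.mem_product, Finset.mem_filter, Finset.mem_univ, true_and]
        exact ⟨⟨hT1, not_le.1 c1⟩, hU1, not_le.1 c2⟩
      · rw [mem_IndIn]
        exact ⟨hI, fun i hi => Finset.mem_sdiff.2 ⟨hT2 hi, hST i hi⟩,
          fun j hj => Finset.mem_sdiff.2 ⟨hU2 hj, hRT j hj⟩⟩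
  have b1 : (P1.card : ℝ) ≤ 2 * 2 ^ N * (3 * (N * Real.exp (-(c * (ψ + 1)))) ^ (k + 1)) := by
    refine sum_caseA hα hN1 h1 hX hc hz 𝒜 fun T hT => ?_
    simpa only [𝒜, Finset.mem_filter, Finset.mem_univ, true_and] using hT
  have b2 : (P2.card : ℝ) ≤ 2 * 2 ^ N * (3 * (N * Real.exp (-(c * (ψ + 1)))) ^ (k + 1)) := by
    have h3 : (P2.card : ℝ) ≤ ((𝒜'.biUnion fun T =>
        IndIn (rev E) (XX (rev E) ψ T) (nb (rev E) T)ᶜ).card : ℕ) := by
      exact_mod_cast Finset.card_image_le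
    refine h3.trans ?_
    refine sum_caseA hβ hN1 h2 hX' hc hz 𝒜' fun T hT => ?_
    simpa only [𝒜', Finset.mem_filter, Finset.mem_univ, true_and] using hT
  have n1 : (ℬ.card : ℝ) ≤ 3 * Real.exp (N * Real.log N / (ψ + 1)) := by
    refine card_small hα hN1 ℬ fun T hT => ?_
    simp only [ℬ, Finset.mem_filter, Finset.mem_univ, true_and] at hT
    refine hT.1.trans ?_
    rw [← hβ]
    exact Finset.card_le_univ _
  have n2 : (ℬ'.card : ℝ) ≤ 3 * Real.exp (N * Real.log N / (ψ + 1)) := by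
    refine card_small hβ hN1 ℬ' fun T hT => ?_
    simp only [ℬ', Finset.mem_filter, Finset.mem_univ, true_and] at hT
    refine hT.1.trans ?_
    rw [← hα]
    exact Finset.card_le_univ _
  have b3 : (P3.card : ℝ) ≤ 2 * 2 ^ N *
      (9 * Real.exp (2 * (N * Real.log N / (ψ + 1)) - c * (N / (1 + κ)))) := by
    have h3 : (P3.card : ℝ) ≤ ∑ TU ∈ ℬ ×ˢ ℬ', ((IndIn E (XX E ψ TU.1 \ nb (rev E) TU.2)
        (XX (rev E) ψ TU.2 \ nb E TU.1)).card : ℝ) := by
      exact_mod_cast Finset.card_biUnion_le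
    have h4 : ∀ TU ∈ ℬ ×ˢ ℬ', ((IndIn E (XX E ψ TU.1 \ nb (rev E) TU.2)
        (XX (rev E) ψ TU.2 \ nb E TU.1)).card : ℝ) ≤
          2 * 2 ^ N * Real.exp (-(c * (N / (1 + κ)))) := by
      rintro ⟨T, U⟩ hTU
      simp only [ℬ, ℬ', Finset.mem_product, Finset.mem_filter, Finset.mem_univ, true_and] at hTU
      exact caseB hα hβ h1 h2 hκ hX hX' hc T U hTU.1.2 hTU.2.2
    refine h3.trans ((Finset.sum_le_sum h4).trans ?_)
    rw [Finset.sum_const, nsmul_eq_mul, Finset.card_product]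
    push_cast
    have h5 : (ℬ.card : ℝ) * ℬ'.card ≤ (3 * Real.exp (N * Real.log N / (ψ + 1))) *
        (3 * Real.exp (N * Real.log N / (ψ + 1))) :=
      mul_le_mul n1 n2 (Nat.cast_nonneg _) (by positivity)
    have h6 := mul_le_mul_of_nonneg_right h5
      (by positivity : (0 : ℝ) ≤ 2 * 2 ^ N * Real.exp (-(c * (N / (1 + κ)))))
    refine h6.trans (le_of_eq ?_)
    have e2 : Real.exp (2 * (N * Real.log N / (ψ + 1))) =
        Real.exp (N * Real.log N / (ψ + 1)) * Real.exp (N * Real.log N / (ψ + 1)) := by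
      rw [← Real.exp_add]
      congr 1
      ring
    rw [sub_eq_add_neg, Real.exp_add, e2]
    ring
  have h3 : ((Bad E ψ k).card : ℝ) ≤ P1.card + P2.card + P3.card := by
    have := (Finset.card_le_card hsub).trans (Finset.card_union_le _ _)
    have h4 := this.trans (Nat.add_le_add_right (Finset.card_union_le _ _) _)
    exact_mod_cast h4
  linarith

end

end Pool.Agent.Lib.Pa7c826y
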