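import Pool.Agent.Lib.Pa7c826y.Sharp2
import Pool.Agent.Lib.Pa7c826y.Greedy

/-!
The sharp bound for the number of independent pairs, assembled.
-/

namespace Pool.Agent.Lib.Pa7c826y

section

variable {α β : Type*} [Fintype α] [Fintype β] [DecidableEq α] [DecidableEq β]

theorem IndIn_pos (E : α → β → Bool) (X : Finset α) (Y : Finset β) : 0 < (IndIn E X Y).card := by
  refine Finset.card_pos.2 ⟨(∅, ∅), ?_⟩
  rw [mem_IndIn, mem_Ind]
  simp

theorem card_sharp {a : ℝ} {E : α → β → Bool} {N : ℕ} (hα : Fintype.card α = N)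
    (hβ : Fintype.card β = N) (ha : 0 < a) (ha25 : 25 * a ≤ 1) (hN : 2 ≤ N) (h1 : Exp a E)
    (h2 : Exp a (rev E)) (X : Finset α) (F : Finset β) (hXF : X.card + F.card ≤ N) :
    ((IndIn E X Fᶜ).card : ℝ) ≤ Real.exp ((N - F.card) * Real.log 2 +
      X.card * Real.log (3 / 2) + F.card * Real.log (4 / 3) -
      a * (min (X.card - 25 * a * max (X.card - F.card + a * X.card) 0) (N / 2) - 1) *
        Real.log (4 / 3)) := by
  classical
  have hαn : Nonempty α := Fintype.card_pos_iff.1 (by omega)
  have hβn : Nonempty β := Fintype.card_pos_iff.1 (by omega)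
  obtain ⟨W, μ, ν, hW, hμ, hμE, hμY, hν, hνE, hνW⟩ := exists_structure E X Fᶜ
  set n := nbY E Fᶜ W with hn
  have hnF : n ⊆ Fᶜ := Finset.filter_subset _ _
  have hFc : (Fᶜ).card = N - F.card := by rw [Finset.card_compl, hβ]
  have hFN : F.card ≤ N := by omega
  have hFc' : ((Fᶜ).card : ℝ) = N - F.card := by rw [hFc, Nat.cast_sub hFN]
  have hWX : W.card ≤ X.card := Finset.card_le_card hW
  have hXW : (X \ W).card = X.card - W.card := Finset.card_sdiff_of_subset hW
  have hnFc : n.card ≤ N - F.card := by rw [← hFc]; exact Finset.card_le_card hnF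
  have hnbW : (nb E W).card ≤ F.card + n.card := by
    have h3 : nb E W ⊆ F ∪ n := by
      intro v hv
      obtain ⟨u, hu, huv⟩ := mem_nb.1 hv
      rw [Finset.mem_union]
      by_cases hvF : v ∈ F
      · exact Or.inl hvF
      · exact Or.inr (mem_nbY.2 ⟨Finset.mem_compl.2 hvF, u, hu, huv⟩)
    exact (Finset.card_le_card h3).trans (Finset.card_union_le _ _)
  have hpos : (0 : ℝ) < (IndIn E X Fᶜ).card := by exact_mod_cast IndIn_pos E X Fᶜ
  obtain ⟨l2, l3, lA, lB⟩ := logs
  suffices h : Real.log (IndIn E X Fᶜ).card - ((N - F.card) * Real.log 2 +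
      X.card * Real.log (3 / 2) + F.card * Real.log (4 / 3)) ≤
      -(a * (min (X.card - 25 * a * max (X.card - F.card + a * X.card) 0) (N / 2) - 1) *
        Real.log (4 / 3)) by
    rw [← Real.log_le_iff_le_exp hpos]
    linarith
  set ζ : ℝ := F.card - (W.card - n.card) with hζ
  by_cases hs : 2 * W.card ≤ N
  · -- the deficient set is small
    refine side_choice (x := X.card) (f := F.card) (ζ := ζ) (σ := W.card) (m := (X \ W).card)
      (N := N) ha ha25 hs ?_ ?_ ?_ ?_ ?_
    · rw [hXW, Nat.cast_sub hWX]; linarith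
    · rw [hXW, Nat.cast_sub hWX, hζ]
      have : (0 : ℝ) ≤ n.card := Nat.cast_nonneg _
      linarith
    · left
      rw [hXW, Nat.cast_sub hWX]; linarith
    · have h3 := h1 W (by rw [hα]; exact hs)
      have h4 : ((nb E W).card : ℝ) ≤ F.card + n.card := by exact_mod_cast hnbW
      rw [hζ]
      linarith
    · intro m1 hm1 hm25
      have h3 := card_structure (E := E) (X := X) (Y := Fᶜ) (W := W) hW μ hμ hμE hμY ν hν hνE hνW
        (θ := a * (W.card + m1) - ζ) (m1 := m1) hm25 (by
        intro M hM hMc
        have hdis : Disjoint W M := by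
          rw [Finset.disjoint_left]
          intro u hu hu'
          exact (Finset.mem_sdiff.1 (hM hu')).2 hu
        have hc : (W ∪ M).card = W.card + m1 := by
          rw [Finset.card_union_of_disjoint hdis, hMc]
        have h4 := h1 (W ∪ M) (by rw [hα, hc]; exact hm1)
        rw [hc] at h4
        have h5 : nb E (W ∪ M) ⊆ (F ∪ n) ∪ ((Fᶜ \ nbY E Fᶜ W).filter
            fun v => ∃ u ∈ M, E u v = true) := by
          intro v hv
          obtain ⟨u, hu, huv⟩ := mem_nb.1 hv
          rw [Finset.mem_union, Finset.mem_union, Finset.mem_filter, Finset.mem_sdiff,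
            Finset.mem_compl]
          by_cases hvF : v ∈ F
          · exact Or.inl (Or.inl hvF)
          by_cases hvn : v ∈ n
          · exact Or.inl (Or.inr hvn)
          · right
            refine ⟨⟨hvF, hvn⟩, ?_⟩
            rcases Finset.mem_union.1 hu with hu | hu
            · exact absurd (mem_nbY.2 ⟨Finset.mem_compl.2 hvF, u, hu, huv⟩) hvn
            · exact ⟨u, hu, huv⟩
        have h6 := (Finset.card_le_card h5).trans (Finset.card_union_le _ _)
        have h7 := Finset.card_union_le F n
        have h8 : ((nb E (W ∪ M)).card : ℝ) ≤ F.card + n.card + ((Fᶜ \ nbY E Fᶜ W).filter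
            fun v => ∃ u ∈ M, E u v = true).card := by
          exact_mod_cast h6.trans (Nat.add_le_add_right h7 _)
        push_cast at h4
        rw [hζ]
        linarith)
      rw [← Real.log_le_iff_le_exp hpos] at h3
      rw [hFc', ← hn] at h3
      have e : ((W.card : ℝ) - n.card) * Real.log (4 / 3) -
          (a * (W.card + m1) - ζ) * Real.log (4 / 3) =
          F.card * Real.log (4 / 3) - a * (W.card + m1) * Real.log (4 / 3) := by
        rw [hζ]; ring
      linarith
  · -- the deficient set on the other side is small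
    push Not at hs
    set T := Fᶜ \ n with hT
    have hTc : T.card = N - F.card - n.card := by
      rw [hT, Finset.card_sdiff_of_subset hnF, hFc]
    have hTc' : (T.card : ℝ) = N - F.card - n.card := by
      rw [hTc, Nat.cast_sub hnFc, Nat.cast_sub hFN]
    have hnbT : nbY (rev E) X T = X \ W := by
      ext u
      rw [mem_nbY, Finset.mem_sdiff]
      constructor
      · rintro ⟨huX, v, hv, hvu⟩
        refine ⟨huX, fun huW => ?_⟩
        rw [hT, Finset.mem_sdiff] at hv
        exact hv.2 (mem_nbY.2 ⟨hv.1, u, huW, hvu⟩)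
      · rintro ⟨huX, huW⟩
        have hu : u ∈ X \ W := Finset.mem_sdiff.2 ⟨huX, huW⟩
        refine ⟨huX, μ u, ?_, hμE u hu⟩
        rw [hT, Finset.mem_sdiff]
        exact hμY u hu
    have hYT : Fᶜ \ T = n := by
      rw [hT]
      exact Finset.sdiff_sdiff_eq_self hnF
    have hhall := hall_of_exp hα hβ ha hN h1 h2 W
    have hWN : W.card ≤ N := by omega
    -- independence of T
    have hnbTc : (nb (rev E) T).card ≤ N - W.card := by
      rw [← hα, ← Finset.card_compl]
      refine Finset.card_le_card ?_
      intro u hu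
      obtain ⟨v, hv, hvu⟩ := mem_nb.1 hu
      rw [Finset.mem_compl]
      intro huW
      rw [hT, Finset.mem_sdiff] at hv
      exact hv.2 (mem_nbY.2 ⟨hv.1, u, huW, hvu⟩)
    have hTs : 2 * T.card ≤ N := by omega
    refine side_choice (x := X.card) (f := F.card) (ζ := ζ) (σ := T.card) (m := n.card)
      (N := N) ha ha25 hTs ?_ ?_ ?_ ?_ ?_
    · rw [hTc']
      have : (X.card : ℝ) + F.card ≤ N := by exact_mod_cast hXF
      linarith
    · rw [hζ]
      have : (W.card : ℝ) ≤ X.card := by exact_mod_cast hWX
      linarith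
    · right
      have h3 : (N : ℝ) < 2 * W.card := by exact_mod_cast hs
      have : (W.card : ℝ) ≤ X.card := by exact_mod_cast hWX
      linarith
    · have h3 := h2 T (by rw [hβ]; exact hTs)
      have h4 : ((nb (rev E) T).card : ℝ) ≤ N - W.card := by
        rw [← Nat.cast_sub hWN]
        exact_mod_cast hnbTc
      rw [hζ]
      linarith
    · intro m1 hm1 hm25
      have h3 := card_structure (E := rev E) (X := Fᶜ) (Y := X) (W := T)
        Finset.sdiff_subset ν (by rw [hYT]; exact hν) (by rw [hYT]; exact hνE) (by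
          rw [hYT, hnbT]
          intro v hv
          exact ⟨hW (hνW v hv), fun h => (Finset.mem_sdiff.1 h).2 (hνW v hv)⟩) μ
        (by rw [hnbT]; exact hμ) (by rw [hnbT]; exact hμE) (by
          rw [hnbT]
          intro u hu
          rw [hT, Finset.mem_sdiff]
          exact hμY u hu)
        (θ := a * (T.card + m1) - ζ) (m1 := m1) (by rw [hYT]; exact hm25) (by
        rw [hYT, hnbT]
        intro M hM hMc
        have hdis : Disjoint T M := by
          rw [Finset.disjoint_left]
          intro v hv hv'
          rw [hT, Finset.mem_sdiff] at hv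
          exact hv.2 (hM hv')
        have hc : (T ∪ M).card = T.card + m1 := by
          rw [Finset.card_union_of_disjoint hdis, hMc]
        have h4 := h2 (T ∪ M) (by rw [hβ, hc]; exact hm1)
        rw [hc] at h4
        have hXXW : X \ (X \ W) = W := Finset.sdiff_sdiff_eq_self hW
        rw [hXXW]
        have h5 : nb (rev E) (T ∪ M) ⊆ Wᶜ ∪ (W.filter fun u => ∃ v ∈ M, rev E v u = true) := by
          intro u hu
          obtain ⟨v, hv, hvu⟩ := mem_nb.1 hu
          rw [Finset.mem_union, Finset.mem_compl, Finset.mem_filter]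
          by_cases huW : u ∈ W
          · right
            refine ⟨huW, ?_⟩
            rcases Finset.mem_union.1 hv with hv | hv
            · exfalso
              rw [hT, Finset.mem_sdiff] at hv
              exact hv.2 (mem_nbY.2 ⟨hv.1, u, huW, hvu⟩)
            · exact ⟨v, hv, hvu⟩
          · exact Or.inl huW
        have h6 := (Finset.card_le_card h5).trans (Finset.card_union_le _ _)
        rw [Finset.card_compl, hα] at h6
        have h8 : ((nb (rev E) (T ∪ M)).card : ℝ) ≤ N - W.card +
            (W.filter fun u => ∃ v ∈ M, rev E v u = true).card := by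
          rw [← Nat.cast_sub hWN]
          exact_mod_cast h6
        push_cast at h4
        rw [hζ]
        linarith)
      rw [← card_IndIn_swap, ← Real.log_le_iff_le_exp hpos, hnbT, hXW, Nat.cast_sub hWX, hFc'] at h3
      have e : (X.card : ℝ) * Real.log 2 + (N - F.card) * Real.log (3 / 2) +
          (T.card - (X.card - W.card)) * Real.log (4 / 3) -
          (a * (T.card + m1) - ζ) * Real.log (4 / 3) =
          (N - F.card) * Real.log 2 + X.card * Real.log (3 / 2) + F.card * Real.log (4 / 3) -
          a * (T.card + m1) * Real.log (4 / 3) := by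
        rw [hζ, hTc', l2]; ring
      linarith

end

/-! ### The rate -/

/-- The exponent is negative below the threshold. -/
theorem exists_rate {a κ : ℝ} (ha0 : 0 < a) (ha : a ≤ 1 / 150) (hκ1 : 1 ≤ κ)
    (hκ : (κ - 1) * (Real.log (3 / 2) - a * Real.log (4 / 3) / 2) < a * Real.log (4 / 3)) :
    ∃ c : ℝ, 0 < c ∧ ∀ x f N : ℝ, 0 ≤ x → 0 ≤ f → x + f ≤ N → x ≤ κ * f →
      (x - f) * Real.log (3 / 2) -
        a * min (x - 25 * a * max (x - f + a * x) 0) (N / 2) * Real.log (4 / 3) ≤ -(c * f) := by
  obtain ⟨l2, l3, lA, lB⟩ := logs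
  set A := Real.log (4 / 3) with hA
  set B := Real.log (3 / 2) with hB
  -- `A > 3 / 5 B`
  have hAB : 3 * B ≤ 5 * A := by
    have h3 : Real.log ((3 / 2 : ℝ) ^ 3) ≤ Real.log ((4 / 3 : ℝ) ^ 5) :=
      Real.log_le_log (by norm_num) (by norm_num)
    rw [Real.log_pow, Real.log_pow] at h3
    exact_mod_cast h3
  have hAB' : A < B := Real.log_lt_log (by norm_num) (by norm_num)
  set g := κ - 1 with hg
  have hg0 : 0 ≤ g := by linarith
  have haA : a * A ≤ 1 / 150 * A := mul_le_mul_of_nonneg_right ha lA.le
  -- the three rates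
  have c1pos : 0 < a * A / 2 - g / (κ + 1) * B := by
    have hκp : 0 < κ + 1 := by linarith
    have : g / (κ + 1) * B < a * A / 2 := by
      rw [div_mul_eq_mul_div, div_lt_div_iff₀ hκp (by norm_num)]
      have e : κ + 1 = g + 2 := by rw [hg]; ring
      rw [e]
      nlinarith
    linarith
  have hg1 : g * B < a * A * (1 + g / 2) := by nlinarith
  have haA0 : 0 < a * A := mul_pos ha0 lA
  have c2pos : 0 < a * A * κ - g * B - 25 * a ^ 2 * A * (κ * (1 + a) - 1) := by
    have e : κ = 1 + g := by rw [hg]; ring
    rw [e]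
    have e2 : 25 * a ^ 2 * A * ((1 + g) * (1 + a) - 1) = a * A * (25 * a * (g + a * (1 + g))) := by
      ring
    rw [e2]
    by_cases hgs : a * (1 + g) ≤ 2 * g
    · have h1 : 25 * a * (g + a * (1 + g)) ≤ g / 2 := by
        have h2 : 25 * a * (g + a * (1 + g)) ≤ 25 * a * (3 * g) :=
          mul_le_mul_of_nonneg_left (by linarith) (by linarith)
        have h3 : 25 * a * (3 * g) ≤ g / 2 := by nlinarith
        linarith
      have h2 := mul_le_mul_of_nonneg_left h1 haA0.le
      nlinarith
    · push Not at hgs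
      have h1 : g * B ≤ (5 / 6) * (a * A * (1 + g)) := by
        have h3 : g * B ≤ (a * (1 + g) / 2) * B := mul_le_mul_of_nonneg_right (by linarith) lB.le
        have h4 : (a * (1 + g) / 2) * B ≤ (a * (1 + g) / 2) * (5 / 3 * A) :=
          mul_le_mul_of_nonneg_left (by linarith) (by positivity)
        nlinarith
      have h2 : 25 * a * (g + a * (1 + g)) ≤ (1 / 12) * (1 + g) := by
        have h3 : g + a * (1 + g) ≤ (3 / 2) * (a * (1 + g)) := by linarith
        have h4 : 25 * a * (g + a * (1 + g)) ≤ 25 * a * ((3 / 2) * (a * (1 + g))) :=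
          mul_le_mul_of_nonneg_left h3 (by linarith)
        have h5 : 25 * a * ((3 / 2) * (a * (1 + g))) = (75 / 2 * a * a) * (1 + g) := by ring
        have h6 : 75 / 2 * a * a ≤ 1 / 12 := by nlinarith
        rw [h5] at h4
        exact h4.trans (mul_le_mul_of_nonneg_right h6 (by linarith))
      have h3 := mul_le_mul_of_nonneg_left h2 haA0.le
      have h4 : 0 < a * A * (1 + g) := by positivity
      nlinarith
  have c3pos : 0 < a / (1 + a) * B := by positivity
  refine ⟨min (a * A / 2 - g / (κ + 1) * B) (min (a * A * κ - g * B - 25 * a ^ 2 * A *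
    (κ * (1 + a) - 1)) (a / (1 + a) * B)), lt_min c1pos (lt_min c2pos c3pos), ?_⟩
  intro x f N hx hf hxN hxκ
  have hfN : f ≤ N := by linarith
  rcases min_choice (x - 25 * a * max (x - f + a * x) 0) (N / 2) with h | h
  · rw [h]
    rcases le_total (x - f + a * x) 0 with h0 | h0
    · rw [max_eq_right h0]
      refine le_trans ?_ (neg_le_neg (mul_le_mul_of_nonneg_right
        ((min_le_right _ _).trans (min_le_right _ _)) hf))
      have h1 : x - f ≤ -(a / (1 + a) * f) := by
        have h2 : (1 + a) * (x - f) ≤ (1 + a) * (-(a / (1 + a) * f)) := by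
          have e : (1 + a) * (-(a / (1 + a) * f)) = -(a * f) := by field_simp
          rw [e]
          linarith
        exact le_of_mul_le_mul_left h2 (by linarith)
      have h2 := mul_le_mul_of_nonneg_right h1 lB.le
      have h3 : 0 ≤ a * (x - 25 * a * 0) * A := by
        have : x - 25 * a * 0 = x := by ring
        rw [this]
        positivity
      nlinarith
    · rw [max_eq_left h0]
      refine le_trans ?_ (neg_le_neg (mul_le_mul_of_nonneg_right
        ((min_le_right _ _).trans (min_le_left _ _)) hf))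
      have hco : 0 ≤ B - a * A + 25 * a ^ 2 * A * (1 + a) := by
        have : 0 ≤ 25 * a ^ 2 * A * (1 + a) := by positivity
        nlinarith
      have h1 := mul_le_mul_of_nonneg_left hxκ hco
      have e : g = κ - 1 := hg
      rw [e]
      nlinarith
  · rw [h]
    refine le_trans ?_ (neg_le_neg (mul_le_mul_of_nonneg_right (min_le_left _ _) hf))
    have hκp : 0 < κ + 1 := by linarith
    have h1 : x - f ≤ g / (κ + 1) * N := by
      rw [div_mul_eq_mul_div, le_div_iff₀ hκp]
      have : (x - f) * (κ + 1) ≤ g * (x + f) := by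
        rw [hg]; nlinarith
      have h2 : g * (x + f) ≤ g * N := mul_le_mul_of_nonneg_left hxN hg0
      linarith
    have h2 := mul_le_mul_of_nonneg_right h1 lB.le
    have h3 := mul_le_mul_of_nonneg_left hfN c1pos.le
    nlinarith

/-- The sharp count bound. -/
theorem countBound_sharp {a κ : ℝ} (ha0 : 0 < a) (ha : a ≤ 1 / 150) (hκ1 : 1 ≤ κ)
    (hκ : (κ - 1) * (Real.log (3 / 2) - a * Real.log (4 / 3) / 2) < a * Real.log (4 / 3)) :
    ∃ c : ℝ, 0 < c ∧ ∀ (n m N : ℕ) (E : Fin n → Fin m → Bool), n = N → m = N →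
      1 ≤ a * ((N : ℝ) - 1) → Exp a E → Exp a (rev E) → CountBound κ c N E := by
  obtain ⟨c, hc, hrate⟩ := exists_rate ha0 ha hκ1 hκ
  refine ⟨c, hc, ?_⟩
  intro n m N E hn hm haN h1 h2 X F hXF hκF
  have hN : 2 ≤ N := by
    by_contra h
    push Not at h
    have h3 : (N : ℝ) ≤ 1 := by
      have : N ≤ 1 := by omega
      exact_mod_cast this
    nlinarith
  have h3 := card_sharp (by rw [Fintype.card_fin]; exact hn) (by rw [Fintype.card_fin]; exact hm)
    ha0 (by linarith) hN h1 h2 X F hXF
  refine h3.trans ?_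
  have h4 := hrate X.card F.card N (Nat.cast_nonneg _) (Nat.cast_nonneg _)
    (by exact_mod_cast hXF) hκF
  obtain ⟨l2, l3, lA, lB⟩ := logs
  have e2 : (2 : ℝ) * 2 ^ N * Real.exp (-(c * F.card)) =
      Real.exp (Real.log 2 + N * Real.log 2 + -(c * F.card)) := by
    rw [Real.exp_add, Real.exp_add, Real.exp_log (by norm_num), pow_eq_exp (by norm_num)]
  rw [e2]
  refine Real.exp_le_exp.2 ?_
  have h5 : a * Real.log (4 / 3) ≤ Real.log 2 := by
    have : Real.log (4 / 3) ≤ Real.log 2 := Real.log_le_log (by norm_num) (by norm_num)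
    nlinarith
  set mn := min ((X.card : ℝ) - 25 * a * max (X.card - F.card + a * X.card) 0) ((N : ℝ) / 2)
  have e3 : a * (mn - 1) * Real.log (4 / 3) =
      a * mn * Real.log (4 / 3) - a * Real.log (4 / 3) := by ring
  rw [e3]
  have e4 : (N - (F.card : ℝ)) * Real.log 2 + X.card * Real.log (3 / 2) +
      F.card * Real.log (4 / 3) = N * Real.log 2 + (X.card - F.card) * Real.log (3 / 2) := by
    rw [l2]; ring
  linarith

end Pool.Agent.Lib.Pa7c826y
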