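import Pool.Agent.Lib.Pa7c826y.Main2
import Pool.Agent.Lib.Pa7c826y.Sharp3

/-!
The threshold.
-/

namespace Pool.Agent.Lib.Pa7c826y

open Pool.Agent.Lib.Pa7c826

/-- Almost regular expanders are easy below the exact threshold. -/
theorem easy_sharp {a γ : ℝ} (ha0 : 0 < a) (ha : a ≤ 1 / 150) (hγ0 : 0 ≤ γ)
    (h : γ * (Real.log (3 / 2) - a * Real.log (4 / 3) / 2) < a * Real.log (4 / 3)) :
    ∃ C : ℝ, HasFPTAS (AlmostRegularExpander a γ (fun N => C * Real.log N)) := by
  obtain ⟨l2, l3, lA, lB⟩ := logs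
  have hAB : Real.log (4 / 3) < Real.log (3 / 2) := Real.log_lt_log (by norm_num) (by norm_num)
  have hden : 0 < Real.log (3 / 2) - a * Real.log (4 / 3) / 2 := by nlinarith
  have hγ1 : γ < 1 := by
    by_contra hc
    push Not at hc
    have h1 := mul_le_mul_of_nonneg_right hc hden.le
    nlinarith
  have hs : 0 < (a * Real.log (4 / 3) - γ * (Real.log (3 / 2) - a * Real.log (4 / 3) / 2)) /
      (Real.log (3 / 2) - a * Real.log (4 / 3) / 2) := div_pos (by linarith) hden
  obtain ⟨ε, hε0, hε⟩ := exists_between (lt_min hs (by linarith : (0 : ℝ) < 1 - γ))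
  have hε1 := hε.trans_le (min_le_left _ _)
  have hε2 := hε.trans_le (min_le_right _ _)
  rw [lt_div_iff₀ hden] at hε1
  obtain ⟨c, hc, hcnt⟩ := countBound_sharp (a := a) (κ := 1 + γ + ε) ha0 ha (by linarith) (by
    have e : 1 + γ + ε - 1 = γ + ε := by ring
    rw [e]
    linarith)
  exact easy_of_count ha0 hγ0 hγ1.le (by linarith) (by linarith) hc hcnt

/-- The threshold `κ α / (1 - κ α / 2)`, `κ = log (4 / 3) / log (3 / 2)`. -/
noncomputable def thrG (α : ℝ) : ℝ :=
  Real.log (4 / 3) / Real.log (3 / 2) * α / (1 - Real.log (4 / 3) / Real.log (3 / 2) * α / 2)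

theorem thrG_facts {α : ℝ} (h0 : 0 < α) (h1 : α ≤ 2 / 3) (γ : ℝ) :
    (γ < thrG α ↔ γ * (Real.log (3 / 2) - α * Real.log (4 / 3) / 2) < α * Real.log (4 / 3)) ∧
    (thrG α < γ ↔ α * Real.log (4 / 3) < γ * (Real.log (3 / 2) - α * Real.log (4 / 3) / 2)) := by
  obtain ⟨l2, l3, lA, lB⟩ := logs
  have hAB : Real.log (4 / 3) < Real.log (3 / 2) := Real.log_lt_log (by norm_num) (by norm_num)
  have hden : 0 < Real.log (3 / 2) - α * Real.log (4 / 3) / 2 := by nlinarith
  have e : thrG α = α * Real.log (4 / 3) / (Real.log (3 / 2) - α * Real.log (4 / 3) / 2) := by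
    unfold thrG
    have h2 : 1 - Real.log (4 / 3) / Real.log (3 / 2) * α / 2 ≠ 0 := by
      have : 0 < 1 - Real.log (4 / 3) / Real.log (3 / 2) * α / 2 := by
        have h3 : (Real.log (3 / 2) - α * Real.log (4 / 3) / 2) / Real.log (3 / 2) =
            1 - Real.log (4 / 3) / Real.log (3 / 2) * α / 2 := by
          field_simp
        rw [← h3]
        exact div_pos hden lB
      exact this.ne'
    rw [div_eq_div_iff h2 hden.ne']
    field_simp
  rw [e, lt_div_iff₀ hden, div_lt_iff₀ hden]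
  exact ⟨Iff.rfl, Iff.rfl⟩

/-- **The exact threshold.** -/
theorem threshold {α γ : ℝ} (h0 : 0 < α) (h1 : α ≤ 1 / 150) (hγ0 : 0 ≤ γ) :
    (γ < thrG α → ∃ C : ℝ, HasFPTAS (AlmostRegularExpander α γ (fun N => C * Real.log N))) ∧
    (thrG α < γ → (HasFPRAS (AlmostRegularExpander α γ (fun N => (N : ℝ) / 3)) ↔
      HasFPRAS (fun _ => True))) := by
  have h := thrG_facts h0 (by linarith) γ
  exact ⟨fun h2 => easy_sharp h0 h1 hγ0 (h.1.1 h2), fun h2 => hard_main h0 (by linarith) (h.2.1 h2)⟩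

end Pool.Agent.Lib.Pa7c826y
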