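import Pool.Agent.Lib.Pa7c826y.HardRed

/-!
Existence of the parameters of the hard instances.
-/

namespace Pool.Agent.Lib.Pa7c826y

open Pool.Agent.Lib.Pa7c826

theorem exists_large {c : ℝ} (hc : 0 < c) (B : ℝ) : ∃ k : ℕ, ∀ n : ℕ, k ≤ n → B ≤ c * n := by
  obtain ⟨k, hk⟩ := exists_nat_ge (B / c)
  refine ⟨k, fun n hn => ?_⟩
  rw [div_le_iff₀ hc] at hk
  have : (k : ℝ) ≤ n := by exact_mod_cast hn
  nlinarith

theorem log_facts : 0 < Real.log (4 / 3) ∧ Real.log (4 / 3) < Real.log (3 / 2) ∧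
    Real.log 2 = Real.log (3 / 2) + Real.log (4 / 3) ∧
    Real.log 3 = 2 * Real.log (3 / 2) + Real.log (4 / 3) := by
  have h1 : Real.log 2 = Real.log (3 / 2) + Real.log (4 / 3) := by
    rw [← Real.log_mul (by norm_num) (by norm_num)]; norm_num
  have h2 : Real.log 3 = Real.log 2 + Real.log (3 / 2) := by
    rw [← Real.log_mul (by norm_num) (by norm_num)]; norm_num
  refine ⟨Real.log_pos (by norm_num), Real.log_lt_log (by norm_num) (by norm_num), h1, ?_⟩
  rw [h2, h1]; ring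

theorem exists_par {α γ : ℝ} (hα0 : 0 < α) (hα : α ≤ 2 / 3)
    (h : α * Real.log (4 / 3) < γ * (Real.log (3 / 2) - α * Real.log (4 / 3) / 2)) :
    ∃ f0 m0 w0, Par α γ f0 m0 w0 := by
  obtain ⟨ha0, hab, hl2, hl3⟩ := log_facts
  set a := Real.log (4 / 3) with hadef
  set b := Real.log (3 / 2) with hbdef
  have hb0 : 0 < b := ha0.trans hab
  have hden : 0 < b - α * a / 2 := by nlinarith
  have hγ : 0 < γ := by
    by_contra hγ
    push Not at hγ
    have h1 : 0 < α * a := mul_pos hα0 ha0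
    nlinarith
  -- the first parameter
  have hη1 : a * α / (4 * b) < 1 / 6 := by
    rw [div_lt_div_iff₀ (by positivity) (by norm_num)]
    nlinarith
  have hη2 : a * α / (4 * b) < γ / (2 * (2 + γ)) := by
    rw [div_lt_div_iff₀ (by positivity) (by positivity)]
    nlinarith
  obtain ⟨η, hη, hη'⟩ := exists_between (lt_min hη1 hη2)
  have h1 : η < 1 / 6 := hη'.trans_le (min_le_left _ _)
  have h2 : η < γ / (2 * (2 + γ)) := hη'.trans_le (min_le_right _ _)
  rw [div_lt_iff₀ (by positivity)] at hη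
  rw [lt_div_iff₀ (by positivity)] at h2
  have hη0 : 0 < η := by
    have : 0 < a * α := mul_pos ha0 hα0
    by_contra hc
    push Not at hc
    nlinarith
  -- the second parameter
  have e1 : 0 < (2 * η * b - a * α / 2) / a := by
    refine div_pos ?_ ha0
    linarith
  have e2 : 0 < 1 / 2 - η - α / 2 := by linarith
  obtain ⟨ε, hε0, hε⟩ := exists_between (lt_min e1 e2)
  have h3 : ε < (2 * η * b - a * α / 2) / a := hε.trans_le (min_le_left _ _)
  have h4 : ε < 1 / 2 - η - α / 2 := hε.trans_le (min_le_right _ _)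
  rw [lt_div_iff₀ ha0] at h3
  set x := 1 / 2 - η with hx
  set y := x - α / 2 - ε with hy
  have hy0 : 0 < y := by linarith
  have hx0 : 0 < x := by linarith
  -- the size
  obtain ⟨k1, hk1⟩ := exists_large hε0 1
  obtain ⟨k2, hk2⟩ := exists_large (c := (1 + γ) * x - (1 - x)) (by rw [hx]; nlinarith) (3 + γ)
  obtain ⟨k3, hk3⟩ := exists_large (c := b * (1 - 2 * x) + a * (y - x))
    (by rw [hy, hx]; nlinarith) (2 * a + b)
  obtain ⟨k4, hk4⟩ := exists_large (c := 3 * x - 1) (by rw [hx]; linarith) 3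
  obtain ⟨k5, hk5⟩ := exists_large hy0 2
  obtain ⟨k6, hk6⟩ := exists_large (mul_pos hγ hx0) (1 + γ)
  obtain ⟨n, hn⟩ : ∃ n : ℕ, n = k1 + k2 + k3 + k4 + k5 + k6 := ⟨_, rfl⟩
  have i1 := hk1 n (by omega)
  have i2 := hk2 n (by omega)
  have i3 := hk3 n (by omega)
  have i4 := hk4 n (by omega)
  have i5 := hk5 n (by omega)
  have i6 := hk6 n (by omega)
  have hn0 : (0 : ℝ) ≤ n := Nat.cast_nonneg n
  set f0 := ⌊x * n⌋₊ with hf0
  set w0 := ⌊y * n⌋₊ with hw0
  have f1 : (f0 : ℝ) ≤ x * n := Nat.floor_le (by positivity)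
  have f2 : x * n - 1 < f0 := Nat.sub_one_lt_floor _
  have w1 : (w0 : ℝ) ≤ y * n := Nat.floor_le (by positivity)
  have w2 : y * n - 1 < w0 := Nat.sub_one_lt_floor _
  have hfw : f0 + w0 ≤ n := by
    have : (f0 + w0 : ℝ) ≤ n := by
      have : x + y ≤ 1 := by rw [hy, hx]; linarith
      nlinarith
    exact_mod_cast this
  obtain ⟨m0, hm0⟩ : ∃ m0, n = f0 + (m0 + w0) := ⟨n - f0 - w0, by omega⟩
  have hm0' : (n : ℝ) = f0 + (m0 + w0) := by exact_mod_cast hm0
  refine ⟨f0, m0, w0, ?_, ?_, ?_, ?_, ?_, ?_, ?_⟩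
  · have : (0 : ℝ) < w0 := by linarith
    exact_mod_cast this
  · rw [← hm0]
    have e : 2 * (x * n - 1) - 2 * (y * n) = α * n + (2 * (ε * n) - 2) := by rw [hy]; ring
    nlinarith
  · have e : (m0 + w0 + 1 : ℝ) = n - f0 + 1 := by linarith
    rw [e]
    nlinarith
  · nlinarith
  · have hlog : ((f0 + (m0 + w0) + 1 : ℕ) : ℝ) * Real.log 2 ≤
        m0 * Real.log 3 + w0 * Real.log 4 := by
      have h4' : Real.log 4 = 2 * Real.log 2 := by
        rw [show (4 : ℝ) = 2 ^ 2 by norm_num, Real.log_pow]; norm_num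
      rw [h4', hl2, hl3, ← hm0]
      push_cast
      have e : (m0 : ℝ) = n - f0 - w0 := by linarith
      rw [e]
      have key : 0 ≤ b * (n - 2 * f0) + a * (w0 - f0) - (a + b) := by
        nlinarith
      nlinarith
    have h6 : Real.log ((2 : ℝ) ^ (f0 + (m0 + w0) + 1)) ≤ Real.log ((3 : ℝ) ^ m0 * 4 ^ w0) := by
      rw [Real.log_pow, Real.log_mul (by positivity) (by positivity), Real.log_pow, Real.log_pow]
      exact hlog
    have h7 : (2 : ℝ) ^ (f0 + (m0 + w0) + 1) ≤ (3 : ℝ) ^ m0 * 4 ^ w0 :=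
      (Real.log_le_log_iff (by positivity) (by positivity)).1 h6
    exact_mod_cast h7
  · have : (n : ℝ) ≤ 3 * f0 := by nlinarith
    rw [← hm0]
    exact_mod_cast this
  · have : (f0 : ℝ) ≤ m0 + w0 := by
      have e : (m0 : ℝ) + w0 = n - f0 := by linarith
      rw [e]
      have : x ≤ 1 / 2 := by rw [hx]; linarith
      nlinarith
    exact_mod_cast this

/-- Irregular expanders are as hard as all bipartite graphs. -/
theorem hard_main {α γ : ℝ} (hα0 : 0 < α) (hα : α ≤ 2 / 3)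
    (h : α * Real.log (4 / 3) < γ * (Real.log (3 / 2) - α * Real.log (4 / 3) / 2)) :
    HasFPRAS (AlmostRegularExpander α γ (fun N => (N : ℝ) / 3)) ↔ HasFPRAS (fun _ => True) := by
  obtain ⟨f0, m0, w0, hp⟩ := exists_par hα0 hα h
  exact ⟨hard_of_par hα0 (by linarith) hp, HasFPRAS.mono (fun _ _ => trivial)⟩

end Pool.Agent.Lib.Pa7c826y
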