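import Pool.Agent.Lib.Pa7c826y.AlgPoly
import Pool.Agent.Lib.Pa7c826y.Param

/-!
The deterministic approximation scheme for almost regular expanders.
-/

namespace Pool.Agent.Lib.Pa7c826y

open Pool.Agent.Lib.Pa7c826
open Pool.Agent.Lib.Pa7c826x
open Pool.Agent.Lib.PolyTime

/-! ### Binary length -/

/-- number of binary digits -/
def lg (s : ℕ) : ℕ := ((Finset.range s).filter (fun i => decide (1 ≤ s / 2 ^ i) = true)).card

theorem lg_eq {s : ℕ} (hs : 1 ≤ s) : lg s = Nat.log 2 s + 1 := by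
  have h : (Finset.range s).filter (fun i => decide (1 ≤ s / 2 ^ i) = true) =
      Finset.range (Nat.log 2 s + 1) := by
    ext i
    rw [Finset.mem_filter, Finset.mem_range, Finset.mem_range, decide_eq_true_eq,
      Nat.one_le_div_iff (by positivity)]
    have h1 : 2 ^ i ≤ s ↔ i ≤ Nat.log 2 s := by
      constructor
      · intro h
        exact Nat.le_log_of_pow_le (by norm_num) h
      · intro h
        exact (Nat.pow_le_pow_right (by norm_num) h).trans (Nat.pow_log_le_self 2 (by omega))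
    rw [h1]
    constructor
    · rintro ⟨_, h2⟩; omega
    · intro h2
      refine ⟨?_, by omega⟩
      have h3 : Nat.log 2 s < s := Nat.log_lt_self 2 (by omega)
      omega
  unfold lg
  rw [h, Finset.card_range]

theorem lg_lower {s : ℕ} (hs : 1 ≤ s) : s < 2 ^ lg s := by
  rw [lg_eq hs]
  exact Nat.lt_pow_succ_log_self (by norm_num) s

theorem lg_upper {s : ℕ} (hs : 1 ≤ s) : 2 ^ lg s ≤ 2 * s := by
  rw [lg_eq hs, pow_succ, mul_comm]
  exact Nat.mul_le_mul_left _ (Nat.pow_log_le_self 2 (by omega))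

/-! ### The parameters -/

/-- size of the enumeration -/
def KK (e t : ℕ) : ℕ := (16 * t + 1) ^ e

/-- number of subsets tried -/
def JJ (e t : ℕ) : ℕ := KK e t ^ 11

/-- its logarithm -/
def LL (e t : ℕ) : ℕ := e * lg (8 * t)

theorem LL_upper (e : ℕ) {t : ℕ} (ht : 1 ≤ t) : 2 ^ LL e t ≤ KK e t := by
  unfold LL KK
  rw [mul_comm, pow_mul]
  refine Nat.pow_le_pow_left ?_ e
  have := lg_upper (s := 8 * t) (by omega)
  omega

theorem LL_lower (e : ℕ) {t : ℕ} (ht : 1 ≤ t) :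
    (e : ℝ) * Real.log (8 * t) ≤ LL e t * Real.log 2 := by
  have h := lg_lower (s := 8 * t) (by omega)
  have h2 : ((8 * t : ℕ) : ℝ) ≤ (2 : ℝ) ^ lg (8 * t) := by exact_mod_cast h.le
  have ht' : (0 : ℝ) < t := by exact_mod_cast ht
  have h3 := Real.log_le_log (by push_cast; positivity) h2
  rw [Real.log_pow] at h3
  unfold LL
  push_cast at h3 ⊢
  have := mul_le_mul_of_nonneg_left h3 (Nat.cast_nonneg e : (0 : ℝ) ≤ e)
  calc (e : ℝ) * Real.log (8 * t) ≤ e * (lg (8 * t) * Real.log 2) := this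
    _ = _ := by ring

section

variable {α β : Type*} [Fintype α] [Fintype β] [DecidableEq α] [DecidableEq β]
  {a γ κ C : ℝ} {q e N t δ d0 : ℕ} {E : α → β → Bool}

theorem XX_ratio (hκ0 : 0 < κ) (hγ0 : 0 ≤ γ) (hq : 1 ≤ q)
    (hκq : κ * (1 + γ) ≤ (κ - (1 + γ)) * q)
    (hd2 : (d0 : ℝ) ≤ (1 + γ) * δ) (hδ0 : 0 < δ)
    (hrow : ∀ u, δ ≤ (row E u).card) (hcol : ∀ v, ((row (rev E) v).card : ℝ) ≤ (1 + γ) * δ)
    (T : Finset α) : ((XX E (d0 / q) T).card : ℝ) ≤ κ * (nb E T).card := by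
  have hq' : (0 : ℝ) < q := by exact_mod_cast hq
  have hδ' : (0 : ℝ) < δ := by exact_mod_cast hδ0
  have h1 := card_XX_le (ψ := d0 / q) hrow hcol T
  have h2 : ((d0 / q : ℕ) : ℝ) * q ≤ d0 := by
    have := Nat.div_mul_le_self d0 q
    exact_mod_cast this
  -- `κ ψ ≤ (κ - (1 + γ)) δ`
  have h3 : κ * ((d0 / q : ℕ) : ℝ) ≤ (κ - (1 + γ)) * δ := by
    have h4 : κ * ((d0 / q : ℕ) : ℝ) * q ≤ (κ - (1 + γ)) * δ * q := by
      calc κ * ((d0 / q : ℕ) : ℝ) * q = κ * (((d0 / q : ℕ) : ℝ) * q) := by ring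
        _ ≤ κ * ((1 + γ) * δ) := mul_le_mul_of_nonneg_left (h2.trans hd2) hκ0.le
        _ = κ * (1 + γ) * δ := by ring
        _ ≤ (κ - (1 + γ)) * q * δ := mul_le_mul_of_nonneg_right hκq hδ'.le
        _ = _ := by ring
    exact le_of_mul_le_mul_right h4 hq'
  have h5 : (1 + γ) * δ ≤ κ * ((δ : ℝ) - (d0 / q : ℕ)) := by linarith
  have h6 : 0 < (δ : ℝ) - (d0 / q : ℕ) := by
    have : 0 < κ * ((δ : ℝ) - (d0 / q : ℕ)) := lt_of_lt_of_le (by positivity) h5
    exact (pos_iff_pos_of_mul_pos this).1 hκ0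
  have h7 : (0 : ℝ) ≤ (nb E T).card := Nat.cast_nonneg _
  have h8 : ((δ : ℝ) - (d0 / q : ℕ)) * (XX E (d0 / q) T).card ≤
      ((δ : ℝ) - (d0 / q : ℕ)) * (κ * (nb E T).card) := by
    calc ((δ : ℝ) - (d0 / q : ℕ)) * (XX E (d0 / q) T).card ≤ (1 + γ) * δ * (nb E T).card := h1
      _ ≤ κ * ((δ : ℝ) - (d0 / q : ℕ)) * (nb E T).card := mul_le_mul_of_nonneg_right h5 h7
      _ = _ := by ring
  exact le_of_mul_le_mul_left h8 h6

theorem XX_small (hκ2 : κ ≤ 2) (hγ0 : 0 ≤ γ) (hγ1 : γ ≤ 1) {L : ℕ}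
    (hd1 : δ ≤ d0)
    (hrow' : ∀ u, ((row E u).card : ℝ) ≤ (1 + γ) * δ)
    (hX : ∀ T, ((XX E (d0 / q) T).card : ℝ) ≤ κ * (nb E T).card)
    (T : Finset α) (hT : T.card ≤ L / (d0 + 1)) : (XX E (d0 / q) T).card ≤ 4 * L := by
  have h1 := hX T
  have h2 := card_nb_le hrow' T
  have h3 : (T.card : ℝ) * δ ≤ L := by
    have h4 : T.card * (d0 + 1) ≤ L := (Nat.mul_le_mul_right _ hT).trans (Nat.div_mul_le_self _ _)
    have h5 : T.card * δ ≤ T.card * (d0 + 1) := Nat.mul_le_mul_left _ (by omega)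
    exact_mod_cast h5.trans h4
  have h6 : ((nb E T).card : ℝ) ≤ 2 * L := by
    have : (1 + γ) * δ * T.card = (1 + γ) * (T.card * δ) := by ring
    rw [this] at h2
    have h7 : (0 : ℝ) ≤ T.card * δ := by positivity
    nlinarith
  have h7 : (0 : ℝ) ≤ (nb E T).card := Nat.cast_nonneg _
  have h8 : ((XX E (d0 / q) T).card : ℝ) ≤ 4 * L := by nlinarith
  exact_mod_cast h8

theorem tuples_small {L : ℕ} (hN : 2 ≤ N) (hC : 3 ≤ C) (hδ : C * Real.log N ≤ δ) (hd1 : δ ≤ d0) :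
    (N + 1) ^ (L / (d0 + 1)) ≤ 2 ^ L := by
  have hl2 : (0.6931471803 : ℝ) < Real.log 2 := Real.log_two_gt_d9
  have hN' : (2 : ℝ) ≤ N := by exact_mod_cast hN
  have hlogN : 0 ≤ Real.log N := Real.log_nonneg (by linarith)
  have h1 : Real.log (N + 1) ≤ 2 * Real.log N := by
    have : Real.log ((N : ℝ) ^ 2) = 2 * Real.log N := by rw [Real.log_pow]; norm_num
    rw [← this]
    exact Real.log_le_log (by linarith) (by nlinarith)
  have h2 : Real.log (N + 1) ≤ (d0 + 1) * Real.log 2 := by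
    have h3 : (δ : ℝ) ≤ d0 := by exact_mod_cast hd1
    nlinarith
  have h3 : ((L / (d0 + 1) : ℕ) : ℝ) * (d0 + 1) ≤ L := by
    have := Nat.div_mul_le_self L (d0 + 1)
    exact_mod_cast this
  have h4 : Real.log ((N + 1 : ℝ) ^ (L / (d0 + 1))) ≤ Real.log ((2 : ℝ) ^ L) := by
    rw [Real.log_pow, Real.log_pow]
    have h5 : (0 : ℝ) ≤ ((L / (d0 + 1) : ℕ) : ℝ) := Nat.cast_nonneg _
    calc ((L / (d0 + 1) : ℕ) : ℝ) * Real.log (N + 1)
        ≤ ((L / (d0 + 1) : ℕ) : ℝ) * ((d0 + 1) * Real.log 2) :=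
          mul_le_mul_of_nonneg_left h2 h5
      _ = ((L / (d0 + 1) : ℕ) : ℝ) * (d0 + 1) * Real.log 2 := by ring
      _ ≤ L * Real.log 2 := mul_le_mul_of_nonneg_right h3 (by linarith)
  have h5 := (Real.log_le_log_iff (by positivity) (by positivity)).1 h4
  exact_mod_cast h5

theorem bad_small {c : ℝ} (hα : Fintype.card α = N) (hβ : Fintype.card β = N)
    (hN2 : 2 ≤ N) (h1 : CountBound κ c N E) (h2 : CountBound κ c N (rev E)) (hκ0 : 0 < κ)
    (hκ2 : κ ≤ 2) (hq : 1 ≤ q)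
    (hX : ∀ T, ((XX E (d0 / q) T).card : ℝ) ≤ κ * (nb E T).card)
    (hX' : ∀ T, ((XX (rev E) (d0 / q) T).card : ℝ) ≤ κ * (nb (rev E) T).card)
    (hc : 0 < c) (hC : 12 * q ≤ c * C) (he : 4 * q * Real.log 2 ≤ c * e)
    (hδ : C * Real.log N ≤ δ) (hd1 : δ ≤ d0) (ht : 1 ≤ t) (hJ : JJ e t < 2 ^ N) :
    ((Bad E (d0 / q) (LL e t / (d0 + 1))).card : ℝ) ≤ 2 ^ N / t := by
  have hN1 : 1 ≤ N := by omega
  have hNr : (2 : ℝ) ≤ N := by exact_mod_cast hN2
  have hlogN : 0 ≤ Real.log N := Real.log_nonneg (by linarith)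
  have hl2 : 0 < Real.log 2 := Real.log_pos (by norm_num)
  have hq' : (1 : ℝ) ≤ q := by exact_mod_cast hq
  have ht' : (1 : ℝ) ≤ t := by exact_mod_cast ht
  have hδd : (δ : ℝ) ≤ d0 := by exact_mod_cast hd1
  have hψ : (d0 + 1 : ℝ) ≤ q * (((d0 / q : ℕ) : ℝ) + 1) := by
    have := Nat.lt_mul_div_succ d0 (by omega : 0 < q)
    have h3 : d0 + 1 ≤ q * (d0 / q + 1) := this
    exact_mod_cast h3
  set ψ : ℝ := ((d0 / q : ℕ) : ℝ) with hψdef
  have hψ0 : 0 ≤ ψ := Nat.cast_nonneg _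
  -- `12 log N ≤ c (ψ + 1)`
  have h3 : 12 * Real.log N ≤ c * (ψ + 1) := by
    have h4 : 12 * q * Real.log N ≤ c * C * Real.log N := mul_le_mul_of_nonneg_right hC hlogN
    have h5 : c * (C * Real.log N) ≤ c * (q * (ψ + 1)) :=
      mul_le_mul_of_nonneg_left (by linarith) hc.le
    have h6 : q * (12 * Real.log N) ≤ q * (c * (ψ + 1)) := by nlinarith
    exact le_of_mul_le_mul_left h6 (by linarith)
  have hNexp : (N : ℝ) = Real.exp (Real.log N) := (Real.exp_log (by linarith)).symm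
  -- `N z ≤ exp (- c (ψ + 1) / 2)`
  have h4 : N * Real.exp (-(c * (ψ + 1))) ≤ Real.exp (-(c * (ψ + 1) / 2)) := by
    conv_lhs => rw [hNexp]
    rw [← Real.exp_add]
    refine Real.exp_le_exp.2 ?_
    linarith
  have h5 : N * Real.exp (-(c * (ψ + 1))) ≤ 1 := by
    refine h4.trans (Real.exp_le_one_iff.2 ?_)
    have : 0 ≤ c * (ψ + 1) := by positivity
    linarith
  have hmain := card_Bad_le (k := LL e t / (d0 + 1)) hα hβ hN1 h1 h2 hκ0.le hX hX' hc.le h5
  refine hmain.trans ?_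
  rw [div_eq_mul_inv ((2 : ℝ) ^ N) (t : ℝ), mul_comm (2 : ℝ) (2 ^ N), mul_assoc]
  refine mul_le_mul_of_nonneg_left ?_ (by positivity)
  -- the first summand
  have hfirst : 6 * (N * Real.exp (-(c * (ψ + 1)))) ^ (LL e t / (d0 + 1) + 1) ≤ 1 / (4 * t) := by
    set k1 := LL e t / (d0 + 1) + 1 with hk1
    have h6 : (N * Real.exp (-(c * (ψ + 1)))) ^ k1 ≤ (Real.exp (-(c * (ψ + 1) / 2))) ^ k1 :=
      pow_le_pow_left₀ (by positivity) h4 _
    rw [← Real.exp_nat_mul] at h6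
    have h7 : (LL e t : ℝ) ≤ k1 * (d0 + 1) := by
      have h8 : LL e t < (d0 + 1) * (LL e t / (d0 + 1) + 1) := Nat.lt_mul_div_succ _ (by omega)
      have h9 : LL e t ≤ k1 * (d0 + 1) := by rw [mul_comm]; exact h8.le
      exact_mod_cast h9
    have h8 := LL_lower e ht
    have hlog8 : 0 ≤ Real.log (8 * t) := Real.log_nonneg (by linarith)
    -- `2 log (8 t) ≤ k1 c (ψ + 1) / 2`
    have h9 : 2 * Real.log (8 * t) ≤ k1 * (c * (ψ + 1) / 2) := by
      have e1 : 4 * q * Real.log 2 * Real.log (8 * t) ≤ c * e * Real.log (8 * t) :=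
        mul_le_mul_of_nonneg_right he hlog8
      have e2 : c * (e * Real.log (8 * t)) ≤ c * (LL e t * Real.log 2) :=
        mul_le_mul_of_nonneg_left h8 hc.le
      have e3 : c * (LL e t * Real.log 2) ≤ c * (k1 * (d0 + 1) * Real.log 2) :=
        mul_le_mul_of_nonneg_left (mul_le_mul_of_nonneg_right h7 hl2.le) hc.le
      have hk0 : (0 : ℝ) ≤ k1 := Nat.cast_nonneg _
      have e4 : c * (k1 * (d0 + 1) * Real.log 2) ≤ c * (k1 * (q * (ψ + 1)) * Real.log 2) :=
        mul_le_mul_of_nonneg_left (mul_le_mul_of_nonneg_right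
          (mul_le_mul_of_nonneg_left hψ hk0) hl2.le) hc.le
      have e5 : (2 * q * Real.log 2) * (2 * Real.log (8 * t)) ≤
          (2 * q * Real.log 2) * (k1 * (c * (ψ + 1) / 2)) := by
        calc (2 * q * Real.log 2) * (2 * Real.log (8 * t)) =
            4 * q * Real.log 2 * Real.log (8 * t) := by ring
          _ ≤ c * e * Real.log (8 * t) := e1
          _ = c * (e * Real.log (8 * t)) := by ring
          _ ≤ _ := e2.trans (e3.trans e4)
          _ = _ := by ring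
      exact le_of_mul_le_mul_left e5 (by positivity)
    have h10 : Real.exp (k1 * -(c * (ψ + 1) / 2)) ≤ 1 / (8 * t) ^ 2 := by
      have e6 : (1 : ℝ) / (8 * t) ^ 2 = Real.exp (-(2 * Real.log (8 * t))) := by
        have e7 : 2 * Real.log (8 * t) = Real.log ((8 * t : ℝ) ^ 2) := by
          rw [Real.log_pow]; norm_num
        rw [Real.exp_neg, e7, Real.exp_log (by positivity), one_div]
      rw [e6]
      refine Real.exp_le_exp.2 ?_
      linarith
    have h11 : 6 * (1 / (8 * t : ℝ) ^ 2) ≤ 1 / (4 * t) := by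
      rw [mul_one_div, div_le_div_iff₀ (by positivity) (by positivity)]
      nlinarith
    calc 6 * (N * Real.exp (-(c * (ψ + 1)))) ^ k1 ≤ 6 * (1 / (8 * t : ℝ) ^ 2) :=
          mul_le_mul_of_nonneg_left (h6.trans h10) (by norm_num)
      _ ≤ _ := h11
  -- the second summand
  have hsecond : 9 * Real.exp (2 * (N * Real.log N / (ψ + 1)) - c * (N / (1 + κ))) ≤
      1 / (4 * t) := by
    have e1 : N * Real.log N / (ψ + 1) ≤ c * N / 12 := by
      rw [div_le_div_iff₀ (by positivity) (by norm_num)]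
      have := mul_le_mul_of_nonneg_left h3 (by linarith : (0 : ℝ) ≤ N)
      linarith
    have e2 : c * N / 3 ≤ c * (N / (1 + κ)) := by
      rw [mul_div_assoc]
      refine mul_le_mul_of_nonneg_left ?_ hc.le
      exact div_le_div_of_nonneg_left (by linarith) (by linarith) (by linarith)
    -- `N log 2 > 11 e log (16 t + 1)`
    have e3 : 11 * (e * Real.log (16 * t + 1)) ≤ N * Real.log 2 := by
      have h6 : ((KK e t ^ 11 : ℕ) : ℝ) ≤ (2 : ℝ) ^ N := by
        unfold JJ at hJ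
        exact_mod_cast hJ.le
      have h7 := Real.log_le_log (by
        unfold KK
        have : 0 < ((16 * t + 1) ^ e) ^ 11 := by positivity
        exact_mod_cast this) h6
      unfold KK at h7
      push_cast at h7
      rw [Real.log_pow, Real.log_pow, Real.log_pow] at h7
      exact_mod_cast h7
    have hlog16 : 0 ≤ Real.log (16 * t + 1) := Real.log_nonneg (by linarith)
    have e4 : 2 * Real.log (16 * t + 1) ≤ c * N / 6 := by
      have e5 : 4 * q * Real.log 2 * Real.log (16 * t + 1) ≤ c * e * Real.log (16 * t + 1) :=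
        mul_le_mul_of_nonneg_right he hlog16
      have e6 : c * (11 * (e * Real.log (16 * t + 1))) ≤ c * (N * Real.log 2) :=
        mul_le_mul_of_nonneg_left e3 hc.le
      have e7 : 4 * Real.log 2 * Real.log (16 * t + 1) ≤
          4 * q * Real.log 2 * Real.log (16 * t + 1) := by
        have : 0 ≤ Real.log 2 * Real.log (16 * t + 1) := mul_nonneg hl2.le hlog16
        nlinarith
      have e8 : Real.log 2 * (12 * Real.log (16 * t + 1)) ≤ Real.log 2 * (c * N) := by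
        have : 0 ≤ Real.log 2 * Real.log (16 * t + 1) := mul_nonneg hl2.le hlog16
        nlinarith
      have e9 := le_of_mul_le_mul_left e8 hl2
      linarith
    have e5 : Real.exp (2 * (N * Real.log N / (ψ + 1)) - c * (N / (1 + κ))) ≤
        1 / (16 * t + 1) ^ 2 := by
      have e6 : (1 : ℝ) / (16 * t + 1) ^ 2 = Real.exp (-(2 * Real.log (16 * t + 1))) := by
        have e7 : 2 * Real.log (16 * t + 1) = Real.log ((16 * t + 1 : ℝ) ^ 2) := by
          rw [Real.log_pow]; norm_num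
        rw [Real.exp_neg, e7, Real.exp_log (by positivity), one_div]
      rw [e6]
      refine Real.exp_le_exp.2 ?_
      linarith
    have e6 : 9 * (1 / (16 * t + 1 : ℝ) ^ 2) ≤ 1 / (4 * t) := by
      rw [mul_one_div, div_le_div_iff₀ (by positivity) (by positivity)]
      nlinarith
    exact (mul_le_mul_of_nonneg_left e5 (by norm_num)).trans e6
  have hsum : 2 * ((1 : ℝ) / (4 * t) + 1 / (4 * t)) = (t : ℝ)⁻¹ := by
    have ht0 : (t : ℝ) ≠ 0 := by linarith
    field_simp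
    norm_num
  rw [← hsum]
  exact mul_le_mul_of_nonneg_left (add_le_add hfirst hsecond) (by norm_num)

end

end Pool.Agent.Lib.Pa7c826y
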