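import Mathlib

/-!
Matchings with small deficiency in expanders, and the number of independent pairs.
-/

namespace Pool.Agent.Lib.Pa7c826y

section

variable {α β : Type*} [Fintype α] [Fintype β] [DecidableEq α] [DecidableEq β]

/-- The neighbourhood. -/
def nb (E : α → β → Bool) (S : Finset α) : Finset β :=
  Finset.univ.filter fun j => ∃ i ∈ S, E i j = true

/-- The reversed relation. -/
abbrev rev (E : α → β → Bool) : β → α → Bool := fun j i => E i j

theorem mem_nb {E : α → β → Bool} {S : Finset α} {j : β} :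
    j ∈ nb E S ↔ ∃ i ∈ S, E i j = true := by simp [nb]

theorem nb_mono {E : α → β → Bool} {S T : Finset α} (h : S ⊆ T) : nb E S ⊆ nb E T := by
  intro j hj
  rw [mem_nb] at *
  obtain ⟨i, hi, h2⟩ := hj
  exact ⟨i, h hi, h2⟩

/-- Expansion of small sets. -/
def Exp (a : ℝ) (E : α → β → Bool) : Prop :=
  ∀ S : Finset α, 2 * S.card ≤ Fintype.card α → (1 + a) * S.card ≤ (nb E S).card

theorem deficiency {a : ℝ} {E : α → β → Bool} {N : ℕ} (hα : Fintype.card α = N)
    (hβ : Fintype.card β = N) (ha : 0 < a) (hN : 1 ≤ a * (N - 1)) (h1 : Exp a E)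
    (h2 : Exp a (rev E)) (X : Finset α) (F : Finset β) (hXF : X.card + F.card ≤ N)
    (S : Finset α) (hS : S ⊆ X) :
    (1 + a) * ((S.card : ℝ) - (nb E S \ F).card) ≤ F.card := by
  have hn : ((nb E S).card : ℝ) ≤ (nb E S \ F).card + F.card := by
    have := Finset.card_le_card_sdiff_add_card (s := nb E S) (t := F)
    exact_mod_cast this
  have hn0 : (0 : ℝ) ≤ (nb E S \ F).card := Nat.cast_nonneg _
  by_cases hc : 2 * S.card ≤ N
  · have h3 := h1 S (by rw [hα]; exact hc)
    nlinarith
  · push Not at hc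
    -- a subset of half the size
    obtain ⟨S0, hS0, hS0c⟩ := Finset.exists_subset_card_eq (s := S) (n := N / 2) (by omega)
    have h3 := h1 S0 (by rw [hα, hS0c]; omega)
    have h4 : ((nb E S0).card : ℝ) ≤ (nb E S).card := by
      exact_mod_cast Finset.card_le_card (nb_mono hS0)
    set W : Finset β := (nb E S)ᶜ with hW
    have hWc : (W.card : ℝ) = N - (nb E S).card := by
      rw [hW, Finset.card_compl, hβ, Nat.cast_sub]
      rw [← hβ]; exact Finset.card_le_univ _
    have hhalf : (N : ℝ) - 1 ≤ 2 * (N / 2 : ℕ) := by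
      have : N ≤ 2 * (N / 2) + 1 := by omega
      have : (N : ℝ) ≤ 2 * (N / 2 : ℕ) + 1 := by exact_mod_cast this
      linarith
    have hW2 : 2 * W.card ≤ Fintype.card β := by
      rw [hβ]
      have : (2 : ℝ) * W.card ≤ N := by
        rw [hWc]
        rw [hS0c] at h3
        nlinarith
      exact_mod_cast this
    have h5 := h2 W hW2
    have h6 : nb (rev E) W ⊆ Sᶜ := by
      intro i hi
      rw [mem_nb] at hi
      obtain ⟨j, hj, hij⟩ := hi
      rw [Finset.mem_compl]
      intro hiS
      rw [hW, Finset.mem_compl, mem_nb] at hj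
      exact hj ⟨i, hiS, hij⟩
    have h7 := Finset.card_le_card h6
    rw [Finset.card_compl, hα] at h7
    have hSN : S.card ≤ N := by rw [← hα]; exact Finset.card_le_univ _
    have h8 : ((nb (rev E) W).card : ℝ) ≤ N - S.card := by
      rw [← Nat.cast_sub hSN]
      exact_mod_cast h7
    have h9 : (S.card : ℝ) + F.card ≤ N := by
      have := Finset.card_le_card hS
      exact_mod_cast (by omega : S.card + F.card ≤ N)
    rw [hWc] at h5
    nlinarith

theorem exists_matching {a : ℝ} {E : α → β → Bool} {N : ℕ} (hα : Fintype.card α = N)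
    (hβ : Fintype.card β = N) (ha : 0 < a) (hN : 1 ≤ a * (N - 1)) (h1 : Exp a E)
    (h2 : Exp a (rev E)) (X : Finset α) (F : Finset β) (hXF : X.card + F.card ≤ N) :
    ∃ M : Finset (α × β), (∀ e ∈ M, e.1 ∈ X ∧ e.2 ∉ F ∧ E e.1 e.2 = true) ∧
      Set.InjOn Prod.fst (M : Set (α × β)) ∧ Set.InjOn Prod.snd (M : Set (α × β)) ∧
      (1 + a) * ((X.card : ℝ) - M.card) ≤ F.card := by
  classical
  obtain ⟨D, hD⟩ : ∃ D : ℕ, D = ⌊(F.card : ℝ) / (1 + a)⌋₊ := ⟨_, rfl⟩
  have ha1 : 0 < 1 + a := by linarith
  have hD1 : (1 + a) * D ≤ F.card := by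
    have := Nat.floor_le (a := (F.card : ℝ) / (1 + a)) (by positivity)
    rw [← hD, le_div_iff₀ ha1] at this
    linarith
  have hD2 : ∀ S : Finset α, S ⊆ X → S.card ≤ (nb E S \ F).card + D := by
    intro S hS
    have h3 := deficiency hα hβ ha hN h1 h2 X F hXF S hS
    by_contra hc
    push Not at hc
    have h4 : D + 1 ≤ S.card - (nb E S \ F).card := by omega
    have h5 : (F.card : ℝ) / (1 + a) < D + 1 := by
      rw [hD]; exact Nat.lt_floor_add_one _
    rw [div_lt_iff₀ ha1] at h5
    have h6 : ((nb E S \ F).card : ℝ) + D + 1 ≤ S.card := by exact_mod_cast (by omega)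
    nlinarith
  let t : X → Finset (β ⊕ Fin D) := fun u => (nb E {u.1} \ F).disjSum Finset.univ
  have hall : ∀ s : Finset X, s.card ≤ (s.biUnion t).card := by
    intro s
    rcases s.eq_empty_or_nonempty with h | h
    · subst h; simp
    · have e : s.biUnion t = (nb E (s.image Subtype.val) \ F).disjSum Finset.univ := by
        ext x
        obtain ⟨u0, hu0⟩ := h
        rcases x with x | x
        · simp only [Finset.mem_biUnion, t, Finset.inl_mem_disjSum, Finset.mem_sdiff, mem_nb,
            Finset.mem_singleton, Finset.mem_image]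
          constructor
          · rintro ⟨u, hu, ⟨i, rfl, h3⟩, h4⟩
            exact ⟨⟨_, ⟨u, hu, rfl⟩, h3⟩, h4⟩
          · rintro ⟨⟨i, ⟨u, hu, rfl⟩, h3⟩, h4⟩
            exact ⟨u, hu, ⟨_, rfl, h3⟩, h4⟩
        · simp only [Finset.mem_biUnion, t, Finset.inr_mem_disjSum, Finset.mem_univ, and_true,
            iff_true]
          exact ⟨u0, hu0⟩
      rw [e, Finset.card_disjSum, Finset.card_univ, Fintype.card_fin]
      have h3 := hD2 (s.image Subtype.val) (by
        intro i hi
        rw [Finset.mem_image] at hi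
        obtain ⟨u, _, rfl⟩ := hi
        exact u.2)
      rwa [Finset.card_image_of_injective _ Subtype.val_injective] at h3
  obtain ⟨h, hinj, ht⟩ := (Finset.all_card_le_biUnion_card_iff_exists_injective t).1 hall
  let M : Finset (α × β) := Finset.univ.filter fun e => ∃ hx : e.1 ∈ X, h ⟨e.1, hx⟩ = Sum.inl e.2
  have hM : ∀ e, e ∈ M ↔ ∃ hx : e.1 ∈ X, h ⟨e.1, hx⟩ = Sum.inl e.2 := fun e => by simp [M]
  refine ⟨M, ?_, ?_, ?_, ?_⟩
  · intro e he
    obtain ⟨hx, h3⟩ := (hM e).1 he
    have h4 := ht ⟨e.1, hx⟩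
    rw [h3] at h4
    simp only [t, Finset.inl_mem_disjSum, Finset.mem_sdiff, mem_nb, Finset.mem_singleton] at h4
    obtain ⟨⟨i, rfl, h5⟩, h6⟩ := h4
    exact ⟨hx, h6, h5⟩
  · rintro ⟨x, y⟩ he ⟨x', y'⟩ he' hxx
    obtain ⟨hx, h3⟩ := (hM _).1 (Finset.mem_coe.1 he)
    obtain ⟨hx', h3'⟩ := (hM _).1 (Finset.mem_coe.1 he')
    simp only at hxx h3 h3'
    subst hxx
    rw [h3] at h3'
    rw [Sum.inl.inj h3']
  · rintro ⟨x, y⟩ he ⟨x', y'⟩ he' hyy
    obtain ⟨hx, h3⟩ := (hM _).1 (Finset.mem_coe.1 he)
    obtain ⟨hx', h3'⟩ := (hM _).1 (Finset.mem_coe.1 he')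
    simp only at hyy h3 h3'
    subst hyy
    have h4 := hinj (h3.trans h3'.symm)
    rw [Subtype.mk.injEq] at h4
    rw [h4]
  · have h3 : X.card ≤ M.card + D := by
      let φ : X → (α × β) ⊕ Fin D := fun u => match h u with
        | Sum.inl j => Sum.inl (u.1, j)
        | Sum.inr d => Sum.inr d
      have hφ : Function.Injective φ := by
        intro u u' huu
        simp only [φ] at huu
        rcases hu : h u with j | d <;> rcases hu' : h u' with j' | d' <;> rw [hu, hu'] at huu
        · simp only [Sum.inl.injEq, Prod.mk.injEq] at huu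
          exact Subtype.ext huu.1
        · simp at huu
        · simp at huu
        · simp only [Sum.inr.injEq] at huu
          subst huu
          exact hinj (hu.trans hu'.symm)
      have h4 : (Finset.univ.image φ).card ≤ (M.disjSum (Finset.univ : Finset (Fin D))).card := by
        refine Finset.card_le_card ?_
        intro z hz
        rw [Finset.mem_image] at hz
        obtain ⟨u, _, rfl⟩ := hz
        simp only [φ]
        rcases hu : h u with j | d
        · simp only [Finset.inl_mem_disjSum]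
          exact (hM _).2 ⟨u.2, hu⟩
        · simp
      rw [Finset.card_image_of_injective _ hφ, Finset.card_univ, Fintype.card_coe,
        Finset.card_disjSum, Finset.card_univ, Fintype.card_fin] at h4
      exact h4
    have h5 : (X.card : ℝ) ≤ M.card + D := by exact_mod_cast h3
    nlinarith

/-- The independent pairs. -/
def Ind (E : α → β → Bool) : Finset (Finset α × Finset β) :=
  Finset.univ.filter fun P => ∀ i ∈ P.1, ∀ j ∈ P.2, E i j = false

theorem mem_Ind {E : α → β → Bool} {P : Finset α × Finset β} :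
    P ∈ Ind E ↔ ∀ i ∈ P.1, ∀ j ∈ P.2, E i j = false := by simp [Ind]

/-- The independent pairs inside `X × Y`. -/
def IndIn (E : α → β → Bool) (X : Finset α) (Y : Finset β) : Finset (Finset α × Finset β) :=
  (Ind E).filter fun P => P.1 ⊆ X ∧ P.2 ⊆ Y

theorem mem_IndIn {E : α → β → Bool} {X : Finset α} {Y : Finset β} {P : Finset α × Finset β} :
    P ∈ IndIn E X Y ↔ P ∈ Ind E ∧ P.1 ⊆ X ∧ P.2 ⊆ Y := by simp [IndIn]

theorem card_IndIn_le {E : α → β → Bool} {X : Finset α} {Y : Finset β} (M : Finset (α × β))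
    (hM : ∀ e ∈ M, e.1 ∈ X ∧ e.2 ∈ Y ∧ E e.1 e.2 = true)
    (h1 : Set.InjOn Prod.fst (M : Set (α × β))) (h2 : Set.InjOn Prod.snd (M : Set (α × β))) :
    (IndIn E X Y).card ≤ 3 ^ M.card * (2 ^ (X.card - M.card) * 2 ^ (Y.card - M.card)) := by
  classical
  let φ : Finset α × Finset β → (M → Option Bool) × (Finset α × Finset β) := fun P =>
    (fun e => if e.1.1 ∈ P.1 then some true else if e.1.2 ∈ P.2 then some false else none,
      (P.1 \ M.image Prod.fst, P.2 \ M.image Prod.snd))
  have hmaps : ∀ P ∈ IndIn E X Y, φ P ∈ (Finset.univ : Finset (M → Option Bool)) ×ˢ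
      ((X \ M.image Prod.fst).powerset ×ˢ (Y \ M.image Prod.snd).powerset) := by
    intro P hP
    rw [mem_IndIn] at hP
    simp only [φ, Finset.mem_product, Finset.mem_univ, true_and, Finset.mem_powerset]
    exact ⟨Finset.sdiff_subset_sdiff hP.2.1 le_rfl, Finset.sdiff_subset_sdiff hP.2.2 le_rfl⟩
  have hinj : Set.InjOn φ (IndIn E X Y : Set (Finset α × Finset β)) := by
    rintro ⟨S, R⟩ hP ⟨S', R'⟩ hP' h
    have hP := (mem_IndIn.1 (Finset.mem_coe.1 hP)).1
    have hP' := (mem_IndIn.1 (Finset.mem_coe.1 hP')).1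
    rw [mem_Ind] at hP hP'
    simp only [φ, Prod.mk.injEq] at h
    obtain ⟨hf, hS, hR⟩ := h
    have key : ∀ e ∈ M, (e.1 ∈ S ↔ e.1 ∈ S') ∧ (e.2 ∈ R ↔ e.2 ∈ R') := by
      intro e he
      have h3 := congrFun hf ⟨e, he⟩
      have h4 := (hM e he).2.2
      have h5 : e.1 ∈ S → e.2 ∉ R := fun ha hb => by
        have := hP _ ha _ hb
        rw [h4] at this
        simp at this
      have h6 : e.1 ∈ S' → e.2 ∉ R' := fun ha hb => by
        have := hP' _ ha _ hb
        rw [h4] at this
        simp at this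
      simp only at h3
      by_cases a1 : e.1 ∈ S <;> by_cases a2 : e.1 ∈ S' <;> by_cases a3 : e.2 ∈ R <;>
        by_cases a4 : e.2 ∈ R' <;> simp [a1, a2, a3, a4] at h3 h5 h6 ⊢
    rw [Prod.mk.injEq]
    constructor
    · ext i
      by_cases hi : i ∈ M.image Prod.fst
      · rw [Finset.mem_image] at hi
        obtain ⟨e, he, rfl⟩ := hi
        exact (key e he).1
      · have := Finset.ext_iff.1 hS i
        simp only [Finset.mem_sdiff, hi, not_false_eq_true, and_true] at this
        exact this
    · ext i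
      by_cases hi : i ∈ M.image Prod.snd
      · rw [Finset.mem_image] at hi
        obtain ⟨e, he, rfl⟩ := hi
        exact (key e he).2
      · have := Finset.ext_iff.1 hR i
        simp only [Finset.mem_sdiff, hi, not_false_eq_true, and_true] at this
        exact this
  have h3 := Finset.card_le_card_of_injOn φ hmaps hinj
  refine h3.trans ?_
  rw [Finset.card_product, Finset.card_product, Finset.card_powerset, Finset.card_powerset,
    Finset.card_univ, Fintype.card_fun, Fintype.card_coe, Fintype.card_option, Fintype.card_bool]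
  have i1 : M.image Prod.fst ⊆ X := by
    intro i hi
    rw [Finset.mem_image] at hi
    obtain ⟨e, he, rfl⟩ := hi
    exact (hM e he).1
  have i2 : M.image Prod.snd ⊆ Y := by
    intro i hi
    rw [Finset.mem_image] at hi
    obtain ⟨e, he, rfl⟩ := hi
    exact (hM e he).2.1
  rw [Finset.card_sdiff_of_subset i1, Finset.card_sdiff_of_subset i2,
    Finset.card_image_of_injOn h1, Finset.card_image_of_injOn h2]

/-- the exponent -/
noncomputable def cc (a κ : ℝ) : ℝ :=
  Real.log 2 - Real.log (4 / 3) / (1 + a) - κ * Real.log (3 / 2)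

theorem card_IndIn_exp {a κ : ℝ} {E : α → β → Bool} {N : ℕ} (hα : Fintype.card α = N)
    (hβ : Fintype.card β = N) (ha : 0 < a) (hN : 1 ≤ a * (N - 1)) (h1 : Exp a E)
    (h2 : Exp a (rev E)) (X : Finset α) (F : Finset β) (hXF : X.card + F.card ≤ N)
    (hκ : (X.card : ℝ) ≤ κ * F.card) :
    ((IndIn E X Fᶜ).card : ℝ) ≤ 2 ^ N * Real.exp (-(cc a κ * F.card)) := by
  obtain ⟨M, hM, hM1, hM2, hM3⟩ := exists_matching hα hβ ha hN h1 h2 X F hXF
  have h3 := card_IndIn_le (E := E) (X := X) (Y := Fᶜ) M
    (fun e he => ⟨(hM e he).1, by simpa using (hM e he).2.1, (hM e he).2.2⟩) hM1 hM2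
  have hMX : M.card ≤ X.card := by
    rw [← Finset.card_image_of_injOn hM1]
    refine Finset.card_le_card ?_
    intro i hi
    rw [Finset.mem_image] at hi
    obtain ⟨e, he, rfl⟩ := hi
    exact (hM e he).1
  have hMY : M.card ≤ Fᶜ.card := by
    rw [← Finset.card_image_of_injOn hM2]
    refine Finset.card_le_card ?_
    intro i hi
    rw [Finset.mem_image] at hi
    obtain ⟨e, he, rfl⟩ := hi
    simpa using (hM e he).2.1
  have hF : F.card ≤ N := by rw [← hβ]; exact Finset.card_le_univ _
  rw [Finset.card_compl, hβ] at h3 hMY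
  have h4 : ((IndIn E X Fᶜ).card : ℝ) ≤
      3 ^ M.card * (2 ^ (X.card - M.card) * 2 ^ (N - F.card - M.card)) := by exact_mod_cast h3
  refine h4.trans ?_
  have l3 : Real.log 3 = 2 * Real.log 2 - Real.log (4 / 3) := by
    have : Real.log (4 / 3) = Real.log 4 - Real.log 3 :=
      Real.log_div (by norm_num) (by norm_num)
    have h4' : Real.log 4 = 2 * Real.log 2 := by
      rw [show (4 : ℝ) = 2 ^ 2 by norm_num, Real.log_pow]; norm_num
    linarith
  have l32 : Real.log 2 = Real.log (3 / 2) + Real.log (4 / 3) := by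
    rw [← Real.log_mul (by norm_num) (by norm_num)]; norm_num
  have hpos : (0 : ℝ) < 3 ^ M.card * (2 ^ (X.card - M.card) * 2 ^ (N - F.card - M.card)) := by
    positivity
  have hpos2 : (0 : ℝ) < 2 ^ N * Real.exp (-(cc a κ * F.card)) := by positivity
  rw [← Real.log_le_log_iff hpos hpos2, Real.log_mul (by positivity) (by positivity),
    Real.log_mul (by positivity) (by positivity), Real.log_mul (by positivity) (by positivity),
    Real.log_pow, Real.log_pow, Real.log_pow, Real.log_pow, Real.log_exp, Nat.cast_sub hMX,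
    Nat.cast_sub hMY, Nat.cast_sub hF, l3]
  have hA : 0 < Real.log (4 / 3) := Real.log_pos (by norm_num)
  have hB : 0 < Real.log (3 / 2) := Real.log_pos (by norm_num)
  have h5 : (X.card : ℝ) - F.card / (1 + a) ≤ M.card := by
    have ha1 : 0 < 1 + a := by linarith
    have : (X.card : ℝ) - M.card ≤ F.card / (1 + a) := by
      rw [le_div_iff₀ ha1]; linarith
    linarith
  have h6 := mul_le_mul_of_nonneg_left h5 hA.le
  have h7 := mul_le_mul_of_nonneg_left hκ hB.le
  have e : Real.log (4 / 3) * (X.card - F.card / (1 + a)) =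
      Real.log (4 / 3) * X.card - Real.log (4 / 3) / (1 + a) * F.card := by ring
  rw [e] at h6
  unfold cc
  have e2 : (M.card : ℝ) * (2 * Real.log 2 - Real.log (4 / 3)) +
      ((X.card - M.card) * Real.log 2 + (N - F.card - M.card) * Real.log 2) =
      N * Real.log 2 + X.card * Real.log 2 - F.card * Real.log 2 -
        Real.log (4 / 3) * M.card := by ring
  rw [e2]
  have e3 : (X.card : ℝ) * Real.log 2 =
      X.card * Real.log (3 / 2) + Real.log (4 / 3) * X.card := by rw [l32]; ring
  rw [e3]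
  linarith

end

end Pool.Agent.Lib.Pa7c826y
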