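import Pool.Agent.Lib.Pa7c826y.Match

/-!
The number of independent pairs of a bipartite graph with a saturating matching in which all
large sets expand a little: stars with private leaves.
-/

namespace Pool.Agent.Lib.Pa7c826y

section

variable {α β : Type*} [Fintype α] [Fintype β] [DecidableEq α] [DecidableEq β]

theorem card_IndIn_union (E : α → β → Bool) {X X1 X2 : Finset α} {Y Y1 Y2 : Finset β}
    (hX : X ⊆ X1 ∪ X2) (hY : Y ⊆ Y1 ∪ Y2) :
    (IndIn E X Y).card ≤ (IndIn E X1 Y1).card * (IndIn E X2 Y2).card := by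
  rw [← Finset.card_product]
  refine Finset.card_le_card_of_injOn
    (fun P => ((P.1 ∩ X1, P.2 ∩ Y1), (P.1 ∩ X2, P.2 ∩ Y2))) ?_ ?_
  · intro P hP
    have hP := mem_IndIn.1 (Finset.mem_coe.1 hP)
    have h1 := mem_Ind.1 hP.1
    rw [Finset.mem_coe, Finset.mem_product, mem_IndIn, mem_IndIn, mem_Ind, mem_Ind]
    refine ⟨⟨?_, Finset.inter_subset_right, Finset.inter_subset_right⟩,
      ⟨?_, Finset.inter_subset_right, Finset.inter_subset_right⟩⟩
    · intro i hi j hj
      exact h1 i (Finset.mem_inter.1 hi).1 j (Finset.mem_inter.1 hj).1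
    · intro i hi j hj
      exact h1 i (Finset.mem_inter.1 hi).1 j (Finset.mem_inter.1 hj).1
  · rintro ⟨S, R⟩ hP ⟨S', R'⟩ hP' h
    have hP := mem_IndIn.1 (Finset.mem_coe.1 hP)
    have hP' := mem_IndIn.1 (Finset.mem_coe.1 hP')
    simp only [Prod.mk.injEq] at h
    obtain ⟨⟨h1, h2⟩, h3, h4⟩ := h
    have e1 : ∀ T : Finset α, T ⊆ X → T = (T ∩ X1) ∪ (T ∩ X2) := by
      intro T hT
      rw [← Finset.inter_union_distrib_left, Finset.inter_eq_left.2 (hT.trans hX)]
    have e2 : ∀ T : Finset β, T ⊆ Y → T = (T ∩ Y1) ∪ (T ∩ Y2) := by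
      intro T hT
      rw [← Finset.inter_union_distrib_left, Finset.inter_eq_left.2 (hT.trans hY)]
    rw [Prod.mk.injEq]
    constructor
    · rw [e1 S hP.2.1, e1 S' hP'.2.1, h1, h3]
    · rw [e2 R hP.2.2, e2 R' hP'.2.2, h2, h4]

/-! ### Blocks -/

variable (E : α → β → Bool) (X : Finset α) (μ : α → β)

/-- the vertices of `X` matched into `Nd` -/
def XN (Nd : Finset β) : Finset α := X.filter fun u => μ u ∈ Nd

/-- baseline weight of a node -/
def wt (v : β) : ℝ := if v ∈ X.image μ then 3 else 2

/-- baseline of a block -/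
noncomputable def bs (Nd : Finset β) : ℝ := ∏ v ∈ Nd, wt X μ v

/-- number of independent pairs of a block -/
noncomputable def II (Nd : Finset β) : ℝ := ((IndIn E (XN X μ Nd) Nd).card : ℝ)

variable {E X μ}

theorem mem_XN {Nd : Finset β} {u : α} : u ∈ XN X μ Nd ↔ u ∈ X ∧ μ u ∈ Nd := by simp [XN]

theorem image_XN (Nd : Finset β) : (XN X μ Nd).image μ = Nd.filter fun v => v ∈ X.image μ := by
  ext v
  simp only [Finset.mem_image, mem_XN, Finset.mem_filter]
  constructor
  · rintro ⟨u, ⟨hu, h⟩, rfl⟩
    exact ⟨h, u, hu, rfl⟩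
  · rintro ⟨hv, u, hu, rfl⟩
    exact ⟨u, ⟨hu, hv⟩, rfl⟩

theorem card_XN (hμ : Set.InjOn μ (X : Set α)) (Nd : Finset β) :
    (XN X μ Nd).card = (Nd.filter fun v => v ∈ X.image μ).card := by
  rw [← image_XN, Finset.card_image_of_injOn]
  intro u hu u' hu' h
  exact hμ (mem_XN.1 (Finset.mem_coe.1 hu)).1 (mem_XN.1 (Finset.mem_coe.1 hu')).1 h

theorem bs_eq (hμ : Set.InjOn μ (X : Set α)) (Nd : Finset β) :
    bs X μ Nd = 3 ^ (XN X μ Nd).card * 2 ^ (Nd.card - (XN X μ Nd).card) := by
  have h1 : Nd.card - (XN X μ Nd).card = (Nd.filter fun v => ¬ v ∈ X.image μ).card := by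
    rw [card_XN hμ]
    have := Finset.card_filter_add_card_filter_not (s := Nd) (fun v => v ∈ X.image μ)
    omega
  rw [h1, card_XN hμ]
  unfold bs wt
  rw [Finset.prod_ite, Finset.prod_const, Finset.prod_const]

theorem wt_pos (v : β) : 0 < wt X μ v := by
  unfold wt
  split_ifs <;> norm_num

theorem bs_pos (Nd : Finset β) : 0 < bs X μ Nd := Finset.prod_pos fun v _ => wt_pos v

theorem bs_union {N1 N2 : Finset β} (h : Disjoint N1 N2) :
    bs X μ (N1 ∪ N2) = bs X μ N1 * bs X μ N2 := Finset.prod_union h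

theorem II_union_le {N1 N2 : Finset β} :
    II E X μ (N1 ∪ N2) ≤ II E X μ N1 * II E X μ N2 := by
  unfold II
  have h := card_IndIn_union E (X := XN X μ (N1 ∪ N2)) (X1 := XN X μ N1) (X2 := XN X μ N2)
    (Y := N1 ∪ N2) (Y1 := N1) (Y2 := N2) (by
      intro u hu
      rw [mem_XN, Finset.mem_union] at hu
      rw [Finset.mem_union, mem_XN, mem_XN]
      rcases hu with ⟨h1, h2 | h2⟩
      · exact Or.inl ⟨h1, h2⟩
      · exact Or.inr ⟨h1, h2⟩) subset_rfl
  exact_mod_cast h

/-- the matching edges of a set -/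
theorem card_IndIn_matched (hμ : Set.InjOn μ (X : Set α)) (hE : ∀ u ∈ X, E u (μ u) = true)
    {U X' : Finset α} {Y' : Finset β} (hU : U ⊆ X) (hUX : U ⊆ X') (hUY : U.image μ ⊆ Y') :
    (IndIn E X' Y').card ≤ 3 ^ U.card * (2 ^ (X'.card - U.card) * 2 ^ (Y'.card - U.card)) := by
  have hc : (U.image fun u => (u, μ u)).card = U.card := by
    refine Finset.card_image_of_injective _ ?_
    intro u u' h
    exact (Prod.mk.injEq _ _ _ _ ▸ h).1
  have h := card_IndIn_le (E := E) (X := X') (Y := Y') (U.image fun u => (u, μ u)) ?_ ?_ ?_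
  · rw [hc] at h
    exact h
  · intro e he
    obtain ⟨u, hu, rfl⟩ := Finset.mem_image.1 he
    exact ⟨hUX hu, hUY (Finset.mem_image_of_mem _ hu), hE u (hU hu)⟩
  · intro e he e' he' h
    obtain ⟨u, hu, rfl⟩ := Finset.mem_image.1 (Finset.mem_coe.1 he)
    obtain ⟨u', hu', rfl⟩ := Finset.mem_image.1 (Finset.mem_coe.1 he')
    simp only at h
    rw [h]
  · intro e he e' he' h
    obtain ⟨u, hu, rfl⟩ := Finset.mem_image.1 (Finset.mem_coe.1 he)
    obtain ⟨u', hu', rfl⟩ := Finset.mem_image.1 (Finset.mem_coe.1 he')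
    simp only at h
    rw [hμ (hU hu) (hU hu') h]

theorem II_le_bs (hμ : Set.InjOn μ (X : Set α)) (hE : ∀ u ∈ X, E u (μ u) = true)
    (Nd : Finset β) : II E X μ Nd ≤ bs X μ Nd := by
  rw [bs_eq hμ]
  unfold II
  have h := card_IndIn_matched hμ hE (U := XN X μ Nd) (X' := XN X μ Nd) (Y' := Nd)
    (fun u hu => (mem_XN.1 hu).1) subset_rfl (by
      rw [image_XN]; exact Finset.filter_subset _ _)
  rw [Nat.sub_self, pow_zero, one_mul] at h
  exact_mod_cast h

/-- The star estimate. -/
theorem II_star (hμ : Set.InjOn μ (X : Set α)) (hE : ∀ u ∈ X, E u (μ u) = true) {b : β}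
    {U : Finset α} (hU : U ⊆ X) (hb : ∀ u ∈ U, μ u ≠ b) (hEb : ∀ u ∈ U, E u b = true) :
    II E X μ (insert b (U.image μ)) ≤ 2 ^ U.card + (wt X μ b - 1) * 3 ^ U.card ∧
      bs X μ (insert b (U.image μ)) = wt X μ b * 3 ^ U.card := by
  have hbn : b ∉ U.image μ := by
    intro h
    obtain ⟨u, hu, h2⟩ := Finset.mem_image.1 h
    exact hb u hu h2
  have hPc : (U.image μ).card = U.card := by
    refine Finset.card_image_of_injOn ?_
    intro u hu u' hu' h
    exact hμ (hU hu) (hU hu') h
  constructor
  · -- the vertices of the block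
    have hXN : XN X μ (insert b (U.image μ)) = U ∪ X.filter (fun u => μ u = b) := by
      ext u
      rw [mem_XN, Finset.mem_insert, Finset.mem_union, Finset.mem_filter]
      constructor
      · rintro ⟨h1, h2 | h2⟩
        · exact Or.inr ⟨h1, h2⟩
        · left
          obtain ⟨u', hu', h3⟩ := Finset.mem_image.1 h2
          rw [← hμ (hU hu') h1 h3]
          exact hu'
      · rintro (h | h)
        · exact ⟨hU h, Or.inr (Finset.mem_image_of_mem _ h)⟩
        · exact ⟨h.1, Or.inl h.2⟩
    have hXNc : ((XN X μ (insert b (U.image μ))).card : ℕ) ≤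
        U.card + (if b ∈ X.image μ then 1 else 0) := by
      rw [hXN]
      refine (Finset.card_union_le _ _).trans (Nat.add_le_add_left ?_ _)
      split_ifs with h
      · rw [Finset.card_le_one]
        intro u hu u' hu'
        rw [Finset.mem_filter] at hu hu'
        exact hμ hu.1 hu'.1 (hu.2.trans hu'.2.symm)
      · rw [Nat.le_zero, Finset.card_eq_zero, Finset.filter_eq_empty_iff]
        intro u hu h2
        exact h (h2 ▸ Finset.mem_image_of_mem _ hu)
    have hadj : ∀ u ∈ XN X μ (insert b (U.image μ)), E u b = true := by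
      intro u hu
      rw [hXN, Finset.mem_union, Finset.mem_filter] at hu
      rcases hu with h | h
      · exact hEb u h
      · have := hE u h.1
        rwa [h.2] at this
    have hsub : IndIn E (XN X μ (insert b (U.image μ))) (insert b (U.image μ)) ⊆
        ((U.image μ).powerset.image fun R => ((∅ : Finset α), insert b R)) ∪
        IndIn E (XN X μ (insert b (U.image μ))) (U.image μ) := by
      rintro ⟨S, R⟩ hP
      rw [mem_IndIn] at hP
      obtain ⟨h1, h2, h3⟩ := hP
      rw [mem_Ind] at h1
      simp only at h1 h2 h3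
      rw [Finset.mem_union]
      by_cases hbR : b ∈ R
      · left
        rw [Finset.mem_image]
        refine ⟨R.erase b, ?_, ?_⟩
        · rw [Finset.mem_powerset]
          intro v hv
          rw [Finset.mem_erase] at hv
          exact (Finset.mem_insert.1 (h3 hv.2)).resolve_left hv.1
        · rw [Finset.insert_erase hbR]
          have : S = ∅ := by
            rw [Finset.eq_empty_iff_forall_notMem]
            intro u hu
            have h4 := h1 u hu b hbR
            rw [hadj u (h2 hu)] at h4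
            simp at h4
          rw [this]
      · right
        rw [mem_IndIn]
        refine ⟨mem_Ind.2 h1, h2, ?_⟩
        intro v hv
        refine (Finset.mem_insert.1 (h3 hv)).resolve_left ?_
        rintro rfl
        exact hbR hv
    have h1 := (Finset.card_le_card hsub).trans (Finset.card_union_le _ _)
    have h2 : ((U.image μ).powerset.image fun R => ((∅ : Finset α), insert b R)).card ≤
        2 ^ U.card := by
      refine Finset.card_image_le.trans ?_
      rw [Finset.card_powerset, hPc]
    have h3 := card_IndIn_matched hμ hE (U := U) (X' := XN X μ (insert b (U.image μ)))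
      (Y' := U.image μ) hU (by
        intro u hu
        rw [hXN]
        exact Finset.mem_union_left _ hu) subset_rfl
    rw [hPc, Nat.sub_self, pow_zero, mul_one] at h3
    have h4 : 3 ^ U.card * 2 ^ ((XN X μ (insert b (U.image μ))).card - U.card) ≤
        3 ^ U.card * (if b ∈ X.image μ then 2 else 1) := by
      refine Nat.mul_le_mul_left _ ?_
      split_ifs with h
      · rw [if_pos h] at hXNc
        calc 2 ^ ((XN X μ (insert b (U.image μ))).card - U.card) ≤ 2 ^ 1 :=
              Nat.pow_le_pow_right (by norm_num) (by omega)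
          _ = 2 := by norm_num
      · rw [if_neg h] at hXNc
        have : (XN X μ (insert b (U.image μ))).card - U.card = 0 := by omega
        rw [this, pow_zero]
    have h5 : (IndIn E (XN X μ (insert b (U.image μ))) (insert b (U.image μ))).card ≤
        2 ^ U.card + 3 ^ U.card * (if b ∈ X.image μ then 2 else 1) := by omega
    unfold II wt
    split_ifs with h
    · rw [if_pos h] at h5
      have h6 : ((IndIn E (XN X μ (insert b (U.image μ))) (insert b (U.image μ))).card : ℝ) ≤
        2 ^ U.card + 3 ^ U.card * 2 := by exact_mod_cast h5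
      linarith
    · rw [if_neg h] at h5
      have h6 : ((IndIn E (XN X μ (insert b (U.image μ))) (insert b (U.image μ))).card : ℝ) ≤
        2 ^ U.card + 3 ^ U.card * 1 := by exact_mod_cast h5
      linarith
  · unfold bs
    rw [Finset.prod_insert hbn]
    congr 1
    have : ∀ v ∈ U.image μ, wt X μ v = 3 := by
      intro v hv
      unfold wt
      rw [if_pos (Finset.image_subset_image hU hv)]
    rw [Finset.prod_congr rfl this, Finset.prod_const, hPc]

/-- Many disjoint blocks. -/
theorem II_packing (hμ : Set.InjOn μ (X : Set α)) (hE : ∀ u ∈ X, E u (μ u) = true)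
    {ι : Type*} [DecidableEq ι] {r : ℝ} (hr : 0 ≤ r) (nd : ι → Finset β) (s : Finset ι) :
    ∀ Y : Finset β, (∀ i ∈ s, nd i ⊆ Y ∧ II E X μ (nd i) ≤ r * bs X μ (nd i)) →
      (∀ i ∈ s, ∀ j ∈ s, i ≠ j → Disjoint (nd i) (nd j)) →
      II E X μ Y ≤ r ^ s.card * bs X μ Y := by
  induction s using Finset.induction_on with
  | empty =>
    intro Y _ _
    simpa using II_le_bs hμ hE Y
  | insert i s hi ih =>
    intro Y h1 h2
    have hi1 := h1 i (Finset.mem_insert_self _ _)
    have h3 := ih (Y \ nd i) (fun j hj => by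
      have h4 := h1 j (Finset.mem_insert_of_mem hj)
      refine ⟨?_, h4.2⟩
      intro v hv
      rw [Finset.mem_sdiff]
      refine ⟨h4.1 hv, fun hv' => ?_⟩
      have h5 := h2 j (Finset.mem_insert_of_mem hj) i (Finset.mem_insert_self _ _)
        (by rintro rfl; exact hi hj)
      exact (Finset.disjoint_left.1 h5 hv hv').elim) (fun j hj j' hj' => h2 j
        (Finset.mem_insert_of_mem hj) j' (Finset.mem_insert_of_mem hj'))
    have hY : nd i ∪ (Y \ nd i) = Y := Finset.union_sdiff_of_subset hi1.1
    have h4 : bs X μ Y = bs X μ (nd i) * bs X μ (Y \ nd i) := by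
      rw [← bs_union Finset.disjoint_sdiff, hY]
    have h5 : II E X μ Y ≤ II E X μ (nd i) * II E X μ (Y \ nd i) := by
      conv_lhs => rw [← hY]
      exact II_union_le
    rw [Finset.card_insert_of_notMem hi, h4]
    have hp1 : 0 < bs X μ (nd i) := bs_pos _
    have hp2 : 0 ≤ II E X μ (Y \ nd i) := by unfold II; exact Nat.cast_nonneg _
    calc II E X μ Y ≤ II E X μ (nd i) * II E X μ (Y \ nd i) := h5
      _ ≤ (r * bs X μ (nd i)) * (r ^ s.card * bs X μ (Y \ nd i)) :=
          mul_le_mul hi1.2 h3 hp2 (mul_nonneg hr hp1.le)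
      _ = _ := by ring

/-! ### The cost of expansion -/

theorem star_ratio_one {w : ℝ} (hw : w = 2 ∨ w = 3) : 2 ^ 1 + (w - 1) * 3 ^ 1 ≤ 8 / 9 * (w * 3 ^ 1) := by
  rcases hw with rfl | rfl <;> norm_num

theorem star_ratio_four {w : ℝ} (hw : w = 2 ∨ w = 3) :
    2 ^ 4 + (w - 1) * 3 ^ 4 ≤ 3 / 4 * (w * 3 ^ 4) := by
  rcases hw with rfl | rfl <;> norm_num

theorem wt_cases (v : β) : wt X μ v = 2 ∨ wt X μ v = 3 := by
  unfold wt
  split_ifs
  · exact Or.inr rfl
  · exact Or.inl rfl

theorem pow_eq_exp {a : ℝ} (ha : 0 < a) (n : ℕ) : a ^ n = Real.exp (n * Real.log a) := by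
  rw [Real.exp_nat_mul, Real.exp_log ha]

/-- If all sets of size `m1` have at least `θ` further neighbours, the number of independent
pairs drops by the factor `(3 / 4) ^ θ`. -/
theorem II_cost (hμ : Set.InjOn μ (X : Set α)) (hE : ∀ u ∈ X, E u (μ u) = true)
    {Y : Finset β} (hY : X.image μ ⊆ Y) {θ : ℝ} {m1 : ℕ}
    (hm : m1 + 25 * θ ≤ X.card)
    (hexp : ∀ M ⊆ X, M.card = m1 → (m1 : ℝ) + θ ≤ (Y.filter fun v => ∃ u ∈ M, E u v = true).card) :
    II E X μ Y ≤ Real.exp (-(θ * Real.log (4 / 3))) * bs X μ Y := by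
  classical
  -- arcs
  let arcs : Finset (α × β) := (X ×ˢ Y).filter fun e => e.2 ≠ μ e.1 ∧ E e.1 e.2 = true
  let nd : α × β → Finset β := fun e => insert e.2 (({e.1} : Finset α).image μ)
  have hnd : ∀ e v, v ∈ nd e ↔ v = e.2 ∨ v = μ e.1 := by
    intro e v
    simp [nd]
  have harcs : ∀ e, e ∈ arcs ↔ (e.1 ∈ X ∧ e.2 ∈ Y) ∧ e.2 ≠ μ e.1 ∧ E e.1 e.2 = true := by
    intro e
    simp [arcs]
  let good : Finset (α × β) → Prop := fun A =>
    A ⊆ arcs ∧ ∀ e ∈ A, ∀ e' ∈ A, e ≠ e' → Disjoint (nd e) (nd e')
  obtain ⟨A, hA, hmax⟩ := Finset.exists_max_image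
    (arcs.powerset.filter fun A => ∀ e ∈ A, ∀ e' ∈ A, e ≠ e' → Disjoint (nd e) (nd e'))
    Finset.card ⟨∅, by simp⟩
  rw [Finset.mem_filter, Finset.mem_powerset] at hA
  obtain ⟨hA1, hA2⟩ := hA
  set V : Finset β := A.biUnion nd with hV
  have hVc : V.card ≤ 2 * A.card := by
    refine (Finset.card_biUnion_le_card_mul A nd 2 fun e _ => ?_).trans (by rw [mul_comm])
    exact (Finset.card_insert_le _ _).trans (by simp)
  have hVY : V ⊆ Y := by
    intro v hv
    obtain ⟨e, he, hv⟩ := Finset.mem_biUnion.1 hv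
    have h1 := (harcs e).1 (hA1 he)
    rcases (hnd e v).1 hv with rfl | rfl
    · exact h1.1.2
    · exact hY (Finset.mem_image_of_mem _ h1.1.1)
  have hmax' : ∀ u ∈ X, ∀ v ∈ Y, v ≠ μ u → E u v = true → μ u ∉ V → v ∈ V := by
    intro u hu v hv hvu huv huV
    by_contra hvV
    have he : (u, v) ∉ A := by
      intro h
      exact hvV (Finset.mem_biUnion.2 ⟨_, h, (hnd _ _).2 (Or.inl rfl)⟩)
    have hdis : ∀ e ∈ A, Disjoint (nd (u, v)) (nd e) := by
      intro e heA
      rw [Finset.disjoint_left]
      intro x hx hx'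
      have hxV : x ∈ V := Finset.mem_biUnion.2 ⟨e, heA, hx'⟩
      rcases (hnd _ _).1 hx with rfl | rfl
      · exact hvV hxV
      · exact huV hxV
    have h1 := hmax (insert (u, v) A) (by
      rw [Finset.mem_filter, Finset.mem_powerset]
      refine ⟨Finset.insert_subset ((harcs _).2 ⟨⟨hu, hv⟩, hvu, huv⟩) hA1, ?_⟩
      intro e he1 e' he2 hne
      rw [Finset.mem_insert] at he1 he2
      rcases he1 with rfl | he1 <;> rcases he2 with rfl | he2
      · exact absurd rfl hne
      · exact hdis e' he2
      · exact (hdis e he1).symm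
      · exact hA2 e he1 e' he2 hne)
    rw [Finset.card_insert_of_notMem he] at h1
    omega
  have hl : 0 < Real.log (4 / 3) := Real.log_pos (by norm_num)
  by_cases hq : 5 * θ ≤ 2 * A.card
  · -- many disjoint arcs
    have h1 := II_packing hμ hE (r := 8 / 9) (by norm_num) nd A Y (by
      intro e he
      have h2 := (harcs e).1 (hA1 he)
      refine ⟨?_, ?_⟩
      · intro v hv
        exact hVY (Finset.mem_biUnion.2 ⟨e, he, hv⟩)
      · obtain ⟨h3, h4⟩ := II_star hμ hE (b := e.2) (U := {e.1}) (by simpa using h2.1.1)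
          (by
            intro u hu
            rw [Finset.mem_singleton] at hu
            subst hu
            exact h2.2.1.symm) (by
            intro u hu
            rw [Finset.mem_singleton] at hu
            subst hu
            exact h2.2.2)
        show II E X μ (insert e.2 (({e.1} : Finset α).image μ)) ≤
          8 / 9 * bs X μ (insert e.2 (({e.1} : Finset α).image μ))
        rw [h4]
        rw [Finset.card_singleton] at h3 ⊢
        exact h3.trans (star_ratio_one (wt_cases _))) hA2
    refine h1.trans (mul_le_mul_of_nonneg_right ?_ (bs_pos _).le)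
    rw [pow_eq_exp (by norm_num)]
    refine Real.exp_le_exp.2 ?_
    have e1 : Real.log (8 / 9) = -Real.log (9 / 8) := by
      rw [← Real.log_inv]; norm_num
    have e2 : 2 * Real.log (4 / 3) ≤ 5 * Real.log (9 / 8) := by
      have h3 : Real.log ((4 / 3 : ℝ) ^ 2) ≤ Real.log ((9 / 8 : ℝ) ^ 5) :=
        Real.log_le_log (by norm_num) (by norm_num)
      rw [Real.log_pow, Real.log_pow] at h3
      exact_mod_cast h3
    rw [e1]
    have e3 := mul_le_mul_of_nonneg_right hq hl.le
    have e4 := mul_le_mul_of_nonneg_left e2 (Nat.cast_nonneg A.card : (0 : ℝ) ≤ A.card)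
    nlinarith
  · push Not at hq
    -- few arcs: leaves outside
    set M0 : Finset α := X.filter fun u => μ u ∉ V with hM0
    let Lf : β → Finset α := fun a => M0.filter fun u => E u a = true
    have hLf : ∀ a u, u ∈ Lf a ↔ (u ∈ X ∧ μ u ∉ V) ∧ E u a = true := by
      intro a u
      simp [Lf, hM0]
    obtain ⟨V1, hV1, hmaxV⟩ := Finset.exists_max_image
      (V.powerset.filter fun W => (W.biUnion Lf).card ≤ 4 * W.card) Finset.card ⟨∅, by simp⟩
    rw [Finset.mem_filter, Finset.mem_powerset] at hV1
    obtain ⟨hV1V, hV1c⟩ := hV1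
    -- Hall's condition
    let ι := (↥(V \ V1)) × Fin 4
    let t : ι → Finset α := fun p => Lf p.1.1 \ V1.biUnion Lf
    have hall : ∀ s : Finset ι, s.card ≤ (s.biUnion t).card := by
      intro s
      let W' : Finset β := s.image fun p => p.1.1
      have h1 : s.card ≤ 4 * W'.card := by
        have h2 : s ⊆ (s.image Prod.fst) ×ˢ (Finset.univ : Finset (Fin 4)) := by
          intro p hp
          rw [Finset.mem_product]
          exact ⟨Finset.mem_image_of_mem _ hp, Finset.mem_univ _⟩
        have h3 := Finset.card_le_card h2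
        rw [Finset.card_product, Finset.card_univ, Fintype.card_fin] at h3
        have h4 : (s.image Prod.fst).card = W'.card := by
          have : W' = (s.image Prod.fst).image Subtype.val := by
            rw [Finset.image_image]
            rfl
          rw [this, Finset.card_image_of_injective _ Subtype.val_injective]
        omega
      rcases s.eq_empty_or_nonempty with hs | hs
      · subst hs; simp
      have hW'n : W'.Nonempty := hs.image _
      have hW'V : W' ⊆ V \ V1 := by
        intro a ha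
        obtain ⟨p, _, rfl⟩ := Finset.mem_image.1 ha
        exact p.1.2
      have hdis : Disjoint V1 W' := by
        rw [Finset.disjoint_left]
        intro a ha ha'
        exact (Finset.mem_sdiff.1 (hW'V ha')).2 ha
      have h2 : 4 * (V1 ∪ W').card < ((V1 ∪ W').biUnion Lf).card := by
        by_contra hc
        push Not at hc
        have h3 := hmaxV (V1 ∪ W') (by
          rw [Finset.mem_filter, Finset.mem_powerset]
          refine ⟨Finset.union_subset hV1V ?_, hc⟩
          exact hW'V.trans Finset.sdiff_subset)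
        rw [Finset.card_union_of_disjoint hdis] at h3
        have := hW'n.card_pos
        omega
      have h3 : (V1 ∪ W').biUnion Lf ⊆ V1.biUnion Lf ∪ s.biUnion t := by
        intro u hu
        obtain ⟨a, ha, hu⟩ := Finset.mem_biUnion.1 hu
        rw [Finset.mem_union]
        by_cases hu1 : u ∈ V1.biUnion Lf
        · exact Or.inl hu1
        · right
          rcases Finset.mem_union.1 ha with ha | ha
          · exact absurd (Finset.mem_biUnion.2 ⟨a, ha, hu⟩) hu1
          · obtain ⟨p, hp, rfl⟩ := Finset.mem_image.1 ha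
            exact Finset.mem_biUnion.2 ⟨p, hp, Finset.mem_sdiff.2 ⟨hu, hu1⟩⟩
      have h4 := (Finset.card_le_card h3).trans (Finset.card_union_le _ _)
      rw [Finset.card_union_of_disjoint hdis] at h2
      omega
    obtain ⟨φ, hφ, hφt⟩ := (Finset.all_card_le_biUnion_card_iff_exists_injective t).1 hall
    have hφ1 : ∀ p : ι, (φ p ∈ X ∧ μ (φ p) ∉ V) ∧ E (φ p) p.1.1 = true := by
      intro p
      exact (hLf _ _).1 (Finset.mem_sdiff.1 (hφt p)).1
    -- a large set with few further neighbours
    set M1 : Finset α := M0 \ V1.biUnion Lf with hM1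
    have hM0c : X.card ≤ M0.card + V.card := by
      have h1 : X ⊆ M0 ∪ XN X μ V := by
        intro u hu
        rw [Finset.mem_union, mem_XN, hM0, Finset.mem_filter]
        by_cases h : μ u ∈ V
        · exact Or.inr ⟨hu, h⟩
        · exact Or.inl ⟨hu, h⟩
      have h2 := (Finset.card_le_card h1).trans (Finset.card_union_le _ _)
      have h3 : (XN X μ V).card ≤ V.card := by
        rw [card_XN hμ]
        exact Finset.card_filter_le _ _
      omega
    have hM1c : M0.card ≤ M1.card + (V1.biUnion Lf).card :=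
      Finset.card_le_card_sdiff_add_card
    have hV1c' : V1.card ≤ V.card := Finset.card_le_card hV1V
    have hbig : X.card ≤ M1.card + 10 * A.card := by omega
    have hm1 : m1 ≤ M1.card := by
      have h1 : (X.card : ℝ) ≤ M1.card + 10 * A.card := by exact_mod_cast hbig
      have h2 : (m1 : ℝ) ≤ M1.card := by linarith
      exact_mod_cast h2
    obtain ⟨M, hM, hMc⟩ := Finset.exists_subset_card_eq hm1
    have hMM0 : ∀ u ∈ M, (u ∈ X ∧ μ u ∉ V) ∧ u ∉ V1.biUnion Lf := by
      intro u hu
      have h1 := hM hu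
      rw [hM1, Finset.mem_sdiff, hM0, Finset.mem_filter] at h1
      exact h1
    have hθV : θ ≤ (V \ V1).card := by
      have h1 := hexp M (fun u hu => (hMM0 u hu).1.1) hMc
      have h2 : (Y.filter fun v => ∃ u ∈ M, E u v = true) ⊆ M.image μ ∪ (V \ V1) := by
        intro v hv
        rw [Finset.mem_filter] at hv
        obtain ⟨hvY, u, hu, huv⟩ := hv
        obtain ⟨⟨h3, h4⟩, h5⟩ := hMM0 u hu
        rw [Finset.mem_union]
        by_cases h6 : v = μ u
        · left
          rw [h6]
          exact Finset.mem_image_of_mem _ hu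
        · right
          rw [Finset.mem_sdiff]
          refine ⟨hmax' u h3 v hvY h6 huv h4, fun h7 => h5 ?_⟩
          exact Finset.mem_biUnion.2 ⟨v, h7, (hLf _ _).2 ⟨⟨h3, h4⟩, huv⟩⟩
      have h3 := (Finset.card_le_card h2).trans (Finset.card_union_le _ _)
      have h4 : (M.image μ).card ≤ m1 := by
        rw [← hMc]; exact Finset.card_image_le
      have h5 : ((Y.filter fun v => ∃ u ∈ M, E u v = true).card : ℝ) ≤ m1 + (V \ V1).card := by
        exact_mod_cast h3.trans (Nat.add_le_add_right h4 _)
      linarith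
    -- the stars
    let UU : ↥(V \ V1) → Finset α := fun a => Finset.univ.image fun j : Fin 4 => φ (a, j)
    have hUU : ∀ a u, u ∈ UU a ↔ ∃ j, φ (a, j) = u := by
      intro a u
      simp [UU]
    have hUUc : ∀ a, (UU a).card = 4 := by
      intro a
      have h1 : Function.Injective fun j : Fin 4 => φ (a, j) := by
        intro j j' h
        exact (Prod.mk.injEq _ _ _ _ ▸ hφ h).2
      show (Finset.univ.image fun j : Fin 4 => φ (a, j)).card = 4
      rw [Finset.card_image_of_injective _ h1, Finset.card_univ, Fintype.card_fin]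
    let nd' : ↥(V \ V1) → Finset β := fun a => insert a.1 ((UU a).image μ)
    have hnd' : ∀ a v, v ∈ nd' a ↔ v = a.1 ∨ ∃ j, μ (φ (a, j)) = v := by
      intro a v
      simp only [nd', Finset.mem_insert, Finset.mem_image, hUU]
      constructor
      · rintro (h | ⟨u, ⟨j, rfl⟩, h⟩)
        · exact Or.inl h
        · exact Or.inr ⟨j, h⟩
      · rintro (h | ⟨j, h⟩)
        · exact Or.inl h
        · exact Or.inr ⟨_, ⟨j, rfl⟩, h⟩
    have h1 := II_packing hμ hE (r := 3 / 4) (by norm_num) nd' Finset.univ Y (by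
      intro a _
      refine ⟨?_, ?_⟩
      · intro v hv
        rcases (hnd' a v).1 hv with rfl | ⟨j, rfl⟩
        · exact hVY (Finset.mem_sdiff.1 a.2).1
        · exact hY (Finset.mem_image_of_mem _ (hφ1 (a, j)).1.1)
      · obtain ⟨h3, h4⟩ := II_star hμ hE (b := a.1) (U := UU a)
          (by
            intro u hu
            obtain ⟨j, rfl⟩ := (hUU a u).1 hu
            exact (hφ1 (a, j)).1.1)
          (by
            intro u hu h
            obtain ⟨j, rfl⟩ := (hUU a u).1 hu
            exact (hφ1 (a, j)).1.2 (h ▸ (Finset.mem_sdiff.1 a.2).1))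
          (by
            intro u hu
            obtain ⟨j, rfl⟩ := (hUU a u).1 hu
            exact (hφ1 (a, j)).2)
        show II E X μ (insert a.1 ((UU a).image μ)) ≤
          3 / 4 * bs X μ (insert a.1 ((UU a).image μ))
        rw [h4]
        rw [hUUc] at h3 ⊢
        exact h3.trans (star_ratio_four (wt_cases _))) (by
      intro a _ b _ hab
      rw [Finset.disjoint_left]
      intro v hv hv'
      rcases (hnd' a v).1 hv with rfl | ⟨j, rfl⟩
      · rcases (hnd' b a.1).1 hv' with h | ⟨j, h⟩
        · exact hab (Subtype.ext h)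
        · exact (hφ1 (b, j)).1.2 (h ▸ (Finset.mem_sdiff.1 a.2).1)
      · rcases (hnd' b _).1 hv' with h | ⟨j', h⟩
        · exact (hφ1 (a, j)).1.2 (h ▸ (Finset.mem_sdiff.1 b.2).1)
        · have h2 := hμ (hφ1 (b, j')).1.1 (hφ1 (a, j)).1.1 h
          have h3 := hφ h2
          exact hab (Prod.mk.injEq _ _ _ _ ▸ h3).1.symm)
    rw [Finset.card_univ, Fintype.card_coe] at h1
    refine h1.trans (mul_le_mul_of_nonneg_right ?_ (bs_pos _).le)
    rw [pow_eq_exp (by norm_num)]
    refine Real.exp_le_exp.2 ?_
    have e1 : Real.log (3 / 4) = -Real.log (4 / 3) := by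
      rw [← Real.log_inv]; norm_num
    rw [e1]
    have e3 := mul_le_mul_of_nonneg_right hθV hl.le
    linarith

end

end Pool.Agent.Lib.Pa7c826y
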