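import Pool.Agent.Lib.Pa7c826y.Sharp

/-!
The sharp bound for the number of independent pairs `S ⊆ X`, `R ∩ F = ∅` in an expander.
-/

namespace Pool.Agent.Lib.Pa7c826y

section

variable {α β : Type*} [Fintype α] [Fintype β] [DecidableEq α] [DecidableEq β]

/-- neighbours in `Y` -/
def nbY (E : α → β → Bool) (Y : Finset β) (W : Finset α) : Finset β :=
  Y.filter fun v => ∃ u ∈ W, E u v = true

theorem mem_nbY {E : α → β → Bool} {Y : Finset β} {W : Finset α} {v : β} :
    v ∈ nbY E Y W ↔ v ∈ Y ∧ ∃ u ∈ W, E u v = true := by simp [nbY]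

theorem logs : Real.log 2 = Real.log (3 / 2) + Real.log (4 / 3) ∧
    Real.log 3 = 2 * Real.log (3 / 2) + Real.log (4 / 3) ∧ 0 < Real.log (4 / 3) ∧
    0 < Real.log (3 / 2) := by
  have h1 : Real.log 2 = Real.log (3 / 2) + Real.log (4 / 3) := by
    rw [← Real.log_mul (by norm_num) (by norm_num)]; norm_num
  have h2 : Real.log 3 = Real.log 2 + Real.log (3 / 2) := by
    rw [← Real.log_mul (by norm_num) (by norm_num)]; norm_num
  refine ⟨h1, ?_, Real.log_pos (by norm_num), Real.log_pos (by norm_num)⟩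
  rw [h2, h1]; ring

theorem card_structure {E : α → β → Bool} {X : Finset α} {Y : Finset β} {W : Finset α}
    (hW : W ⊆ X) (μ : α → β) (hμ : Set.InjOn μ (X \ W : Finset α))
    (hμE : ∀ u ∈ X \ W, E u (μ u) = true) (hμY : ∀ u ∈ X \ W, μ u ∈ Y ∧ μ u ∉ nbY E Y W)
    (ν : β → α) (hν : Set.InjOn ν (nbY E Y W : Finset β))
    (hνE : ∀ v ∈ nbY E Y W, E (ν v) v = true) (hνW : ∀ v ∈ nbY E Y W, ν v ∈ W)
    {θ : ℝ} {m1 : ℕ} (hm : m1 + 25 * θ ≤ (X \ W).card)
    (hexp : ∀ M ⊆ X \ W, M.card = m1 →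
      (m1 : ℝ) + θ ≤ ((Y \ nbY E Y W).filter fun v => ∃ u ∈ M, E u v = true).card) :
    ((IndIn E X Y).card : ℝ) ≤ Real.exp (Y.card * Real.log 2 + X.card * Real.log (3 / 2) +
      ((W.card : ℝ) - (nbY E Y W).card) * Real.log (4 / 3) - θ * Real.log (4 / 3)) := by
  set n := nbY E Y W with hn
  have hnY : n ⊆ Y := Finset.filter_subset _ _
  have h1 := card_IndIn_union E (X := X) (X1 := W) (X2 := X \ W) (Y := Y) (Y1 := n)
    (Y2 := Y \ n) (by rw [Finset.union_sdiff_of_subset hW]) (by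
      rw [Finset.union_sdiff_of_subset hnY])
  -- the deficient part
  have hnc : n.card ≤ W.card := by
    rw [← Finset.card_image_of_injOn hν]
    refine Finset.card_le_card ?_
    intro u hu
    obtain ⟨v, hv, rfl⟩ := Finset.mem_image.1 hu
    exact hνW v hv
  have hMc : (n.image fun v => (ν v, v)).card = n.card := by
    refine Finset.card_image_of_injective _ ?_
    intro u u' h
    exact (Prod.mk.injEq _ _ _ _ ▸ h).2
  have h2 := card_IndIn_le (E := E) (X := W) (Y := n) (n.image fun v => (ν v, v)) (by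
    intro e he
    obtain ⟨v, hv, rfl⟩ := Finset.mem_image.1 he
    exact ⟨hνW v hv, hv, hνE v hv⟩) (by
    intro e he e' he' h
    obtain ⟨v, hv, rfl⟩ := Finset.mem_image.1 (Finset.mem_coe.1 he)
    obtain ⟨v', hv', rfl⟩ := Finset.mem_image.1 (Finset.mem_coe.1 he')
    simp only at h
    rw [hν hv hv' h]) (by
    intro e he e' he' h
    obtain ⟨v, hv, rfl⟩ := Finset.mem_image.1 (Finset.mem_coe.1 he)
    obtain ⟨v', hv', rfl⟩ := Finset.mem_image.1 (Finset.mem_coe.1 he')
    simp only at h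
    rw [h])
  rw [hMc, Nat.sub_self, pow_zero, mul_one] at h2
  -- the saturated part
  have hXN : XN (X \ W) μ (Y \ n) = X \ W := by
    unfold XN
    rw [Finset.filter_eq_self]
    intro u hu
    rw [Finset.mem_sdiff]
    exact hμY u hu
  have h3 := II_cost (E := E) (X := X \ W) (μ := μ) hμ hμE (Y := Y \ n) (by
    intro v hv
    obtain ⟨u, hu, rfl⟩ := Finset.mem_image.1 hv
    rw [Finset.mem_sdiff]
    exact hμY u hu) hm hexp
  rw [bs_eq hμ] at h3
  unfold II at h3
  rw [hXN] at h3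
  have hmc : (X \ W).card ≤ (Y \ n).card := by
    rw [← Finset.card_image_of_injOn hμ]
    refine Finset.card_le_card ?_
    intro v hv
    obtain ⟨u, hu, rfl⟩ := Finset.mem_image.1 hv
    rw [Finset.mem_sdiff]
    exact hμY u hu
  have hY2 : (Y \ n).card = Y.card - n.card := Finset.card_sdiff_of_subset hnY
  have hX2 : (X \ W).card = X.card - W.card := Finset.card_sdiff_of_subset hW
  have hWX : W.card ≤ X.card := Finset.card_le_card hW
  have hnYc : n.card ≤ Y.card := Finset.card_le_card hnY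
  obtain ⟨l2, l3, lA, lB⟩ := logs
  -- in exponential form
  have h2' : ((IndIn E W n).card : ℝ) ≤
      Real.exp (n.card * Real.log 3 + (W.card - n.card) * Real.log 2) := by
    have h4 : ((IndIn E W n).card : ℝ) ≤ 3 ^ n.card * 2 ^ (W.card - n.card) := by
      exact_mod_cast h2
    refine h4.trans (le_of_eq ?_)
    rw [Real.exp_add, pow_eq_exp (by norm_num), pow_eq_exp (by norm_num : (0 : ℝ) < 2),
      Nat.cast_sub hnc]
  have h3' : ((IndIn E (X \ W) (Y \ n)).card : ℝ) ≤
      Real.exp ((X.card - W.card) * Real.log 3 + (Y.card - n.card - (X.card - W.card)) *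
        Real.log 2 - θ * Real.log (4 / 3)) := by
    refine h3.trans (le_of_eq ?_)
    rw [pow_eq_exp (by norm_num), pow_eq_exp (by norm_num : (0 : ℝ) < 2), ← Real.exp_add,
      ← Real.exp_add, Nat.cast_sub hmc, hY2, hX2, Nat.cast_sub hWX, Nat.cast_sub hnYc]
    congr 1
    ring
  have h5 : ((IndIn E X Y).card : ℝ) ≤ (IndIn E W n).card * (IndIn E (X \ W) (Y \ n)).card := by
    exact_mod_cast h1
  refine h5.trans ((mul_le_mul h2' h3' (Nat.cast_nonneg _) (Real.exp_nonneg _)).trans ?_)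
  rw [← Real.exp_add]
  refine Real.exp_le_exp.2 (le_of_eq ?_)
  rw [l3, l2]
  ring

theorem exists_structure [Nonempty α] [Nonempty β] (E : α → β → Bool) (X : Finset α)
    (Y : Finset β) : ∃ (W : Finset α) (μ : α → β) (ν : β → α), W ⊆ X ∧
      Set.InjOn μ (X \ W : Finset α) ∧ (∀ u ∈ X \ W, E u (μ u) = true) ∧
      (∀ u ∈ X \ W, μ u ∈ Y ∧ μ u ∉ nbY E Y W) ∧ Set.InjOn ν (nbY E Y W : Finset β) ∧
      (∀ v ∈ nbY E Y W, E (ν v) v = true) ∧ (∀ v ∈ nbY E Y W, ν v ∈ W) := by
  classical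
  obtain ⟨W, hW, hmax⟩ := Finset.exists_max_image X.powerset
    (fun W => (W.card : ℤ) - (nbY E Y W).card) ⟨∅, by simp⟩
  rw [Finset.mem_powerset] at hW
  -- the first matching
  let t : ↥(X \ W) → Finset β := fun u => (Y \ nbY E Y W).filter fun v => E u.1 v = true
  have ht : ∀ u v, v ∈ t u ↔ (v ∈ Y ∧ v ∉ nbY E Y W) ∧ E u.1 v = true := by
    intro u v
    simp [t]
  have hall : ∀ s : Finset ↥(X \ W), s.card ≤ (s.biUnion t).card := by
    intro s
    set M := s.image Subtype.val with hM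
    have hMc : M.card = s.card := Finset.card_image_of_injective _ Subtype.val_injective
    have hMX : M ⊆ X \ W := by
      intro u hu
      obtain ⟨p, _, rfl⟩ := Finset.mem_image.1 hu
      exact p.2
    have hdis : Disjoint W M := by
      rw [Finset.disjoint_left]
      intro u hu hu'
      exact (Finset.mem_sdiff.1 (hMX hu')).2 hu
    have h1 := hmax (W ∪ M) (Finset.mem_powerset.2
      (Finset.union_subset hW (hMX.trans Finset.sdiff_subset)))
    rw [Finset.card_union_of_disjoint hdis] at h1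
    have h2 : nbY E Y (W ∪ M) ⊆ nbY E Y W ∪ s.biUnion t := by
      intro v hv
      obtain ⟨hvY, u, hu, huv⟩ := mem_nbY.1 hv
      rw [Finset.mem_union]
      by_cases h3 : v ∈ nbY E Y W
      · exact Or.inl h3
      · right
        rcases Finset.mem_union.1 hu with hu | hu
        · exact absurd (mem_nbY.2 ⟨hvY, u, hu, huv⟩) h3
        · obtain ⟨p, hp, rfl⟩ := Finset.mem_image.1 hu
          exact Finset.mem_biUnion.2 ⟨p, hp, (ht _ _).2 ⟨⟨hvY, h3⟩, huv⟩⟩
    have h3 := (Finset.card_le_card h2).trans (Finset.card_union_le _ _)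
    push_cast at h1
    omega
  obtain ⟨f, hf, hft⟩ := (Finset.all_card_le_biUnion_card_iff_exists_injective t).1 hall
  -- the second matching
  let t' : ↥(nbY E Y W) → Finset α := fun v => W.filter fun u => E u v.1 = true
  have ht' : ∀ v u, u ∈ t' v ↔ u ∈ W ∧ E u v.1 = true := by
    intro u v
    simp [t']
  have hall' : ∀ s : Finset ↥(nbY E Y W), s.card ≤ (s.biUnion t').card := by
    intro s
    set M := s.image Subtype.val with hM
    have hMc : M.card = s.card := Finset.card_image_of_injective _ Subtype.val_injective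
    have hMX : M ⊆ nbY E Y W := by
      intro u hu
      obtain ⟨p, _, rfl⟩ := Finset.mem_image.1 hu
      exact p.2
    have hsub : s.biUnion t' ⊆ W := by
      intro u hu
      obtain ⟨v, _, hv⟩ := Finset.mem_biUnion.1 hu
      exact ((ht' _ _).1 hv).1
    have h1 := hmax (W \ s.biUnion t') (Finset.mem_powerset.2 (Finset.sdiff_subset.trans hW))
    rw [Finset.card_sdiff_of_subset hsub] at h1
    have h2 : nbY E Y (W \ s.biUnion t') ⊆ nbY E Y W \ M := by
      intro v hv
      obtain ⟨hvY, u, hu, huv⟩ := mem_nbY.1 hv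
      rw [Finset.mem_sdiff] at hu ⊢
      refine ⟨mem_nbY.2 ⟨hvY, u, hu.1, huv⟩, fun h3 => hu.2 ?_⟩
      obtain ⟨p, hp, hpv⟩ := Finset.mem_image.1 h3
      refine Finset.mem_biUnion.2 ⟨p, hp, (ht' _ _).2 ⟨hu.1, ?_⟩⟩
      rw [hpv]; exact huv
    have h3 := Finset.card_le_card h2
    rw [Finset.card_sdiff_of_subset hMX] at h3
    have h4 := Finset.card_le_card hsub
    have h5 := Finset.card_le_card hMX
    omega
  obtain ⟨f', hf', hft'⟩ := (Finset.all_card_le_biUnion_card_iff_exists_injective t').1 hall'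
  refine ⟨W, fun u => if h : u ∈ X \ W then f ⟨u, h⟩ else Classical.arbitrary β,
    fun v => if h : v ∈ nbY E Y W then f' ⟨v, h⟩ else Classical.arbitrary α, hW, ?_, ?_, ?_, ?_,
    ?_, ?_⟩
  · intro u hu u' hu' h
    have hu := Finset.mem_coe.1 hu
    have hu' := Finset.mem_coe.1 hu'
    simp only [dif_pos hu, dif_pos hu'] at h
    exact congrArg Subtype.val (hf h)
  · intro u hu
    simp only [dif_pos hu]
    exact ((ht _ _).1 (hft ⟨u, hu⟩)).2
  · intro u hu
    simp only [dif_pos hu]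
    exact ((ht _ _).1 (hft ⟨u, hu⟩)).1
  · intro u hu u' hu' h
    have hu := Finset.mem_coe.1 hu
    have hu' := Finset.mem_coe.1 hu'
    simp only [dif_pos hu, dif_pos hu'] at h
    exact congrArg Subtype.val (hf' h)
  · intro v hv
    simp only [dif_pos hv]
    exact ((ht' _ _).1 (hft' ⟨v, hv⟩)).2
  · intro v hv
    simp only [dif_pos hv]
    exact ((ht' _ _).1 (hft' ⟨v, hv⟩)).1

/-- Every set has at least as many neighbours as elements. -/
theorem hall_of_exp {a : ℝ} {E : α → β → Bool} {N : ℕ} (hα : Fintype.card α = N)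
    (hβ : Fintype.card β = N) (ha : 0 < a) (hN : 2 ≤ N) (h1 : Exp a E) (h2 : Exp a (rev E))
    (S : Finset α) : S.card ≤ (nb E S).card := by
  by_contra hc
  push Not at hc
  by_cases hS : 2 * S.card ≤ N
  · have h3 := h1 S (by rw [hα]; exact hS)
    have h4 : ((nb E S).card : ℝ) < S.card := by exact_mod_cast hc
    have h5 : (0 : ℝ) ≤ S.card := Nat.cast_nonneg _
    nlinarith
  · push Not at hS
    have hSN : S.card ≤ N := by rw [← hα]; exact Finset.card_le_univ _
    have hnN : (nb E S).card ≤ N := by rw [← hβ]; exact Finset.card_le_univ _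
    have hZc : ((nb E S)ᶜ).card = N - (nb E S).card := by rw [Finset.card_compl, hβ]
    have hsub : ∀ Z ⊆ (nb E S)ᶜ, (nb (rev E) Z).card ≤ N - S.card := by
      intro Z hZ
      rw [← hα, ← Finset.card_compl]
      refine Finset.card_le_card ?_
      intro i hi
      obtain ⟨j, hj, hij⟩ := mem_nb.1 hi
      rw [Finset.mem_compl]
      intro hiS
      exact (Finset.mem_compl.1 (hZ hj)) (mem_nb.2 ⟨i, hiS, hij⟩)
    by_cases hZ : 2 * ((nb E S)ᶜ).card ≤ N
    · have h3 := h2 _ (by rw [hβ]; exact hZ)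
      have h4 := hsub _ subset_rfl
      have h5 : ((nb (rev E) (nb E S)ᶜ).card : ℝ) < ((nb E S)ᶜ).card := by
        exact_mod_cast (by omega : (nb (rev E) (nb E S)ᶜ).card < ((nb E S)ᶜ).card)
      have h6 : (0 : ℝ) ≤ ((nb E S)ᶜ).card := Nat.cast_nonneg _
      nlinarith
    · push Not at hZ
      obtain ⟨Z, hZ1, hZ2⟩ := Finset.exists_subset_card_eq (s := (nb E S)ᶜ) (n := N / 2)
        (by omega)
      have h3 := h2 Z (by rw [hβ, hZ2]; omega)
      have h4 := hsub Z hZ1
      have h5 : (nb (rev E) Z).card ≤ N / 2 := by omega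
      have h6 : ((nb (rev E) Z).card : ℝ) ≤ (N / 2 : ℕ) := by exact_mod_cast h5
      have h7 : (1 : ℝ) ≤ (N / 2 : ℕ) := by
        have : 1 ≤ N / 2 := by omega
        exact_mod_cast this
      rw [hZ2] at h3
      nlinarith

/-- The numerical choice of the size `m1`. -/
theorem side_choice {a x f ζ B : ℝ} {σ m N : ℕ} (ha0 : 0 < a) (ha : 25 * a ≤ 1)
    (s1 : 2 * σ ≤ N) (s2 : x ≤ σ + m) (s3 : (m : ℝ) ≤ x - f + ζ)
    (s5 : (σ + m : ℝ) ≤ x ∨ (N : ℝ) / 2 ≤ x) (s6 : a * σ ≤ ζ)
    (s4 : ∀ m1 : ℕ, 2 * (σ + m1) ≤ N → m1 + 25 * (a * (σ + m1) - ζ) ≤ m →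
      B ≤ -(a * (σ + m1) * Real.log (4 / 3))) :
    B ≤ -(a * (min (x - 25 * a * max (x - f + a * x) 0) (N / 2) - 1) * Real.log (4 / 3)) := by
  have hA : 0 < Real.log (4 / 3) := Real.log_pos (by norm_num)
  have hN2 : (N : ℝ) / 2 - 1 / 2 ≤ (N / 2 : ℕ) := by
    have : N ≤ 2 * (N / 2) + 1 := by omega
    have : (N : ℝ) ≤ 2 * (N / 2 : ℕ) + 1 := by exact_mod_cast this
    linarith
  have hN2' : ((N / 2 : ℕ) : ℝ) ≤ N / 2 := by
    have : 2 * (N / 2) ≤ N := by omega
    have : (2 : ℝ) * (N / 2 : ℕ) ≤ N := by exact_mod_cast this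
    linarith
  have hm0 : (0 : ℝ) ≤ m := Nat.cast_nonneg _
  have hfin : ∀ m1 : ℕ, 2 * (σ + m1) ≤ N → m1 + 25 * (a * (σ + m1) - ζ) ≤ m →
      min (x - 25 * a * max (x - f + a * x) 0) (N / 2) - 1 ≤ (σ + m1 : ℝ) →
      B ≤ -(a * (min (x - 25 * a * max (x - f + a * x) 0) (N / 2) - 1) * Real.log (4 / 3)) := by
    intro m1 h1 h2 h3
    refine (s4 m1 h1 h2).trans (neg_le_neg ?_)
    exact mul_le_mul_of_nonneg_right (mul_le_mul_of_nonneg_left h3 ha0.le) hA.le
  obtain ⟨m1, hm1⟩ : ∃ m1, m1 = min m (N / 2 - σ) := ⟨_, rfl⟩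
  have hσ : σ ≤ N / 2 := by omega
  have hm1m : m1 ≤ m := by rw [hm1]; exact min_le_left _ _
  have hm1N : m1 ≤ N / 2 - σ := by rw [hm1]; exact min_le_right _ _
  by_cases hc : a * (σ + m1) ≤ ζ
  · refine hfin m1 (by omega) ?_ ?_
    · have : (m1 : ℝ) ≤ m := by exact_mod_cast hm1m
      linarith
    · have h1 : (0 : ℝ) ≤ 25 * a * max (x - f + a * x) 0 :=
        mul_nonneg (by linarith) (le_max_right _ _)
      rcases min_choice m (N / 2 - σ) with h | h
      · have h2 : (m1 : ℝ) = m := by rw [hm1, h]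
        have := min_le_left (x - 25 * a * max (x - f + a * x) 0) ((N : ℝ) / 2)
        rw [h2]
        linarith
      · have h2 : σ + m1 = N / 2 := by omega
        have h3 : (σ + m1 : ℝ) = (N / 2 : ℕ) := by exact_mod_cast h2
        have := min_le_right (x - 25 * a * max (x - f + a * x) 0) ((N : ℝ) / 2)
        rw [h3]
        linarith
  · push Not at hc
    -- now `m` is small
    have hζ : ζ ≤ a * x := by
      rcases s5 with h | h
      · have : (m1 : ℝ) ≤ m := by exact_mod_cast hm1m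
        have : a * (σ + m1) ≤ a * x := mul_le_mul_of_nonneg_left (by linarith) ha0.le
        linarith
      · have h2 : σ + m1 ≤ N / 2 := by omega
        have h3 : (σ + m1 : ℝ) ≤ (N / 2 : ℕ) := by exact_mod_cast h2
        have : a * (σ + m1) ≤ a * x := mul_le_mul_of_nonneg_left (by linarith) ha0.le
        linarith
    have hmm : (m : ℝ) ≤ max (x - f + a * x) 0 := (by linarith : (m : ℝ) ≤ x - f + a * x).trans
      (le_max_left _ _)
    obtain ⟨m2, hm2⟩ : ∃ m2, m2 = min ⌊(m : ℝ) - 25 * a * m⌋₊ (N / 2 - σ) := ⟨_, rfl⟩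
    have hpos : (0 : ℝ) ≤ m - 25 * a * m := by nlinarith
    have h1 : (m2 : ℝ) ≤ m - 25 * a * m := by
      have h2 : m2 ≤ ⌊(m : ℝ) - 25 * a * m⌋₊ := by rw [hm2]; exact min_le_left _ _
      have h3 : (m2 : ℝ) ≤ (⌊(m : ℝ) - 25 * a * m⌋₊ : ℝ) := by exact_mod_cast h2
      exact h3.trans (Nat.floor_le hpos)
    have h2 : m2 ≤ N / 2 - σ := by rw [hm2]; exact min_le_right _ _
    have hm20 : (0 : ℝ) ≤ m2 := Nat.cast_nonneg _
    refine hfin m2 (by omega) ?_ ?_
    · have h3 : a * (σ + m2) - ζ ≤ a * m2 := by linarith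
      have h4 : a * m2 ≤ a * m := mul_le_mul_of_nonneg_left (by nlinarith) ha0.le
      linarith
    · rcases min_choice ⌊(m : ℝ) - 25 * a * m⌋₊ (N / 2 - σ) with h | h
      · have h3 : (m : ℝ) - 25 * a * m - 1 < m2 := by
          rw [hm2, h]
          exact Nat.sub_one_lt_floor _
        have := min_le_left (x - 25 * a * max (x - f + a * x) 0) ((N : ℝ) / 2)
        have h4 : 25 * a * m ≤ 25 * a * max (x - f + a * x) 0 :=
          mul_le_mul_of_nonneg_left hmm (by linarith)
        linarith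
      · have h2 : σ + m2 = N / 2 := by omega
        have h3 : (σ + m2 : ℝ) = (N / 2 : ℕ) := by exact_mod_cast h2
        have := min_le_right (x - 25 * a * max (x - f + a * x) 0) ((N : ℝ) / 2)
        rw [h3]
        linarith

end

end Pool.Agent.Lib.Pa7c826y
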